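import Pool.Agent.Work.MP_7794fd_co.R.Stmts

/-! Item 22: a path through a connected set of vertices. -/

set_option autoImplicit false

namespace Pool.Agent.Work.MP_7794fd_co.R

open Finset

namespace Path

set_option linter.unusedSectionVars false

variable {V E : Type} [Fintype V] [DecidableEq V] [Fintype E] [DecidableEq E] (G : MG V E)

lemma last_departure {W : Set V} {u z : V} (h : Reach G W Finset.univ u z) :
    z = u ∨ ∃ u' g, u' ∈ W ∧ u' ≠ u ∧ G.ends g = s(u, u') ∧
      Reach G (W \ {u}) Finset.univ u' z := by
  induction h with
  | refl => exact Or.inl rfl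
  | @tail z z' _ hs ih =>
    obtain ⟨hz, hz', g, _, hg⟩ := hs
    by_cases h1 : z' = u
    · exact Or.inl h1
    · right
      by_cases h2 : z = u
      · subst h2
        exact ⟨z', g, hz', h1, hg, Relation.ReflTransGen.refl⟩
      · rcases ih with h3 | ⟨u', g', a, b, c, d⟩
        · exact absurd h3 h2
        · exact ⟨u', g', a, b, c, d.tail ⟨⟨hz, h2⟩, ⟨hz', h1⟩, g, Finset.mem_univ _, hg⟩⟩

lemma reach_mono {W W' : Set V} (hW : W ⊆ W') {u z : V} (h : Reach G W Finset.univ u z) :
    Reach G W' Finset.univ u z := by
  induction h with
  | refl => exact Relation.ReflTransGen.refl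
  | tail _ hs ih =>
    obtain ⟨ha, hb, e, he, h'⟩ := hs
    exact ih.tail ⟨hW ha, hW hb, e, he, h'⟩

lemma reach_mem {W : Set V} {u z : V} (hu : u ∈ W) (h : Reach G W Finset.univ u z) : z ∈ W := by
  induction h with
  | refl => exact hu
  | tail _ hs _ => exact hs.2.1

lemma linked_mono {X X' : Finset E} (hX : X ⊆ X') {a b : E} (h : Linked G Set.univ X a b) :
    Linked G Set.univ X' a b := by
  induction h with
  | refl => exact Relation.ReflTransGen.refl
  | tail _ hs ih =>
    obtain ⟨hc, hd, h'⟩ := hs
    exact ih.tail ⟨hX hc, hX hd, h'⟩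

lemma linked_symm {X : Finset E} {a b : E} (h : Linked G Set.univ X a b) :
    Linked G Set.univ X b a := by
  induction h with
  | refl => exact Relation.ReflTransGen.refl
  | tail _ hs ih =>
    obtain ⟨hc, hd, v, hv, h1, h2⟩ := hs
    exact Relation.ReflTransGen.head ⟨hd, hc, v, hv, h2, h1⟩ ih

lemma deg_insert {F : Finset E} {e : E} (he : e ∉ F) (v : V) :
    deg G (insert e F) v = deg G F v + if v ∈ G.ends e then 1 else 0 := by
  unfold deg
  rw [Finset.filter_insert]
  split_ifs with h
  · rw [Finset.card_insert_of_notMem]
    simp [he]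
  · rfl

lemma deg_empty (v : V) : deg G (∅ : Finset E) v = 0 := by
  simp [deg]

lemma main (n : ℕ) : ∀ (W : Set V) (x y u q : V) (e f : E), W.ncard ≤ n → x ∉ W → y ∉ W →
    x ≠ y → u ∈ W → q ∈ W → G.ends e = s(x, u) → G.ends f = s(q, y) →
    Reach G W Finset.univ u q →
    ∃ F : Finset E, deg G F x = 1 ∧ deg G F y = 1 ∧
      (∀ v, v ≠ x → v ≠ y → deg G F v = 0 ∨ deg G F v = 2) ∧
      (∀ v, v ≠ x → v ≠ y → deg G F v ≠ 0 → Reach G W Finset.univ u v) ∧
      (∀ a ∈ F, ∃ z ∈ W, z ∈ G.ends a) ∧
      (∀ a ∈ F, ∀ b ∈ F, Linked G Set.univ F a b) := by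
  induction n with
  | zero =>
    intro W x y u q e f hn _ _ _ hu
    have : W = ∅ := by
      rw [← Set.ncard_eq_zero]
      omega
    rw [this] at hu
    exact absurd hu (Set.notMem_empty u)
  | succ n ih =>
    intro W x y u q e f hn hx hy hxy hu hq he hf hr
    have hxu : x ≠ u := fun h => hx (h ▸ hu)
    have hyu : y ≠ u := fun h => hy (h ▸ hu)
    have hyq : y ≠ q := fun h => hy (h ▸ hq)
    have hxq : x ≠ q := fun h => hx (h ▸ hq)
    by_cases hqu : q = u
    · subst hqu
      have hef : e ∉ ({f} : Finset E) := by
        rw [Finset.mem_singleton]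
        intro h
        subst h
        have hxf : x ∈ G.ends e := by rw [he]; exact Sym2.mem_mk_left _ _
        rw [hf, Sym2.mem_iff] at hxf
        rcases hxf with h | h
        · exact hxu h
        · exact hxy h
      have hdeg : ∀ v, deg G {e, f} v = (if v ∈ G.ends f then 1 else 0) +
          if v ∈ G.ends e then 1 else 0 := by
        intro v
        have h0 : ({f} : Finset E) = insert f ∅ := rfl
        rw [deg_insert G hef, h0, deg_insert G (Finset.notMem_empty f), deg_empty, zero_add]
      have me : ∀ v, v ∈ G.ends e ↔ v = x ∨ v = q := by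
        intro v; rw [he, Sym2.mem_iff]
      have mf : ∀ v, v ∈ G.ends f ↔ v = q ∨ v = y := by
        intro v; rw [hf, Sym2.mem_iff]
      refine ⟨{e, f}, ?_, ?_, ?_, ?_, ?_, ?_⟩
      · rw [hdeg, if_neg, if_pos]
        · rw [me]; exact Or.inl rfl
        · rw [mf]; rintro (h | h)
          · exact hxu h
          · exact hxy h
      · rw [hdeg, if_pos, if_neg]
        · rw [me]; rintro (h | h)
          · exact hxy h.symm
          · exact hyu h
        · rw [mf]; exact Or.inr rfl
      · intro v hvx hvy
        rw [hdeg]
        by_cases hv : v = q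
        · right
          rw [if_pos ((mf v).mpr (Or.inl hv)), if_pos ((me v).mpr (Or.inr hv))]
        · left
          rw [if_neg, if_neg]
          · rw [me]; rintro (h | h)
            · exact hvx h
            · exact hv h
          · rw [mf]; rintro (h | h)
            · exact hv h
            · exact hvy h
      · intro v hvx hvy hd
        have hv : v = q := by
          by_contra hv
          apply hd
          rw [hdeg, if_neg, if_neg]
          · rw [me]; rintro (h | h)
            · exact hvx h
            · exact hv h
          · rw [mf]; rintro (h | h)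
            · exact hv h
            · exact hvy h
        rw [hv]
        exact Relation.ReflTransGen.refl
      · intro a ha
        rw [Finset.mem_insert, Finset.mem_singleton] at ha
        refine ⟨q, hq, ?_⟩
        rcases ha with rfl | rfl
        · rw [me]; exact Or.inr rfl
        · rw [mf]; exact Or.inl rfl
      · have hef' : Linked G Set.univ ({e, f} : Finset E) e f :=
          Relation.ReflTransGen.single ⟨by simp, by simp, q, Set.mem_univ _,
            (me q).mpr (Or.inr rfl), (mf q).mpr (Or.inl rfl)⟩
        intro a ha b hb
        rw [Finset.mem_insert, Finset.mem_singleton] at ha hb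
        rcases ha with rfl | rfl <;> rcases hb with rfl | rfl
        · exact Relation.ReflTransGen.refl
        · exact hef'
        · exact linked_symm G hef'
        · exact Relation.ReflTransGen.refl
    · obtain hh | ⟨u', g, hu'W, hu'u, hg, hr'⟩ := last_departure G hr
      · exact absurd hh hqu
      have hcard : (W \ {u}).ncard ≤ n := by
        have := Set.ncard_sdiff_singleton_add_one hu
        omega
      have hu'W' : u' ∈ W \ {u} := ⟨hu'W, hu'u⟩
      obtain ⟨F, h1, h2, h3, h4, h5, h6⟩ := ih (W \ {u}) u y u' q g f hcard
        (fun h => h.2 rfl) (fun h => hy h.1) hyu.symm hu'W' ⟨hq, hqu⟩ hg hf hr'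
      have me : ∀ v, v ∈ G.ends e ↔ v = x ∨ v = u := by
        intro v; rw [he, Sym2.mem_iff]
      have heF : e ∉ F := by
        intro h
        obtain ⟨z, hz, hze⟩ := h5 e h
        rcases (me z).mp hze with h' | h'
        · exact hx (h' ▸ hz.1)
        · exact hz.2 h'
      have hdx : deg G F x = 0 := by
        by_contra hd
        exact hx (reach_mem G hu'W' (h4 x hxu hxy hd)).1
      have hlink : ∀ a ∈ F, Linked G Set.univ (insert e F) e a := by
        intro a ha
        have hne : (F.filter (fun e => u ∈ G.ends e)).Nonempty := by
          rw [← Finset.card_pos]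
          have : deg G F u = 1 := h1
          unfold deg at this
          omega
        obtain ⟨b, hb⟩ := hne
        rw [Finset.mem_filter] at hb
        refine Relation.ReflTransGen.head (b := b) ?_
          (linked_mono G (Finset.subset_insert e F) (h6 b hb.1 a ha))
        exact ⟨Finset.mem_insert_self _ _, Finset.mem_insert_of_mem hb.1, u, Set.mem_univ _,
          (me u).mpr (Or.inr rfl), hb.2⟩
      refine ⟨insert e F, ?_, ?_, ?_, ?_, ?_, ?_⟩
      · rw [deg_insert G heF, hdx, if_pos ((me x).mpr (Or.inl rfl))]
      · rw [deg_insert G heF, h2, if_neg]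
        rw [me]; rintro (h | h)
        · exact hxy h.symm
        · exact hyu h
      · intro v hvx hvy
        rw [deg_insert G heF]
        by_cases hv : v = u
        · right
          rw [hv, h1, if_pos ((me u).mpr (Or.inr rfl))]
        · rw [if_neg, add_zero]
          · exact h3 v hv hvy
          · rw [me]; rintro (h | h)
            · exact hvx h
            · exact hv h
      · intro v hvx hvy hd
        by_cases hv : v = u
        · rw [hv]; exact Relation.ReflTransGen.refl
        · rw [deg_insert G heF, if_neg, add_zero] at hd
          · have h7 := reach_mono G (Set.sdiff_subset (s := W) (t := {u})) (h4 v hv hvy hd)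
            exact Relation.ReflTransGen.head ⟨hu, hu'W, g, Finset.mem_univ _, hg⟩ h7
          · rw [me]; rintro (h | h)
            · exact hvx h
            · exact hv h
      · intro a ha
        rw [Finset.mem_insert] at ha
        rcases ha with rfl | ha
        · exact ⟨u, hu, (me u).mpr (Or.inr rfl)⟩
        · obtain ⟨z, hz, hza⟩ := h5 a ha
          exact ⟨z, hz.1, hza⟩
      · intro a ha b hb
        rw [Finset.mem_insert] at ha hb
        rcases ha with rfl | ha <;> rcases hb with rfl | hb
        · exact Relation.ReflTransGen.refl
        · exact hlink b hb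
        · exact linked_symm G (hlink a ha)
        · exact linked_mono G (Finset.subset_insert e F) (h6 a ha b hb)

end Path

theorem I_Path : StPath := by
  intro V E _ _ _ _ G W x y u q e f hx hy hxy hu hq he hf hr
  exact Path.main G W.ncard W x y u q e f le_rfl hx hy hxy hu hq he hf hr

end Pool.Agent.Work.MP_7794fd_co.R
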