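import Pool.Agent.Work.MP_7794fd_co.R.Stmts

/-! Project MP_7794fd_co, module R, item 21: the cyclic enumeration of a circuit. -/

set_option autoImplicit false

namespace Pool.Agent.Work.MP_7794fd_co.R

open Finset

namespace Cyc

section Dih

variable {D A : Type}

lemma invol (al : D → A) (r : D → D) (h2 : ∀ p, al (r p) = al p)
    (h1 : ∀ p, r p ≠ p) (h3 : ∀ p q, al q = al p → q = p ∨ q = r p) : ∀ p, r (r p) = p := by
  intro p
  rcases h3 (r p) p (h2 p).symm with h | h
  · exact absurd h.symm (h1 p)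
  · exact h.symm

/-- a power of `sig ∘ rho` never maps a point to its `rho` image -/
lemma ne_rho (rho sig : D → D) (r2 : ∀ p, rho (rho p) = p) (s2 : ∀ p, sig (sig p) = p)
    (rne : ∀ p, rho p ≠ p) (sne : ∀ p, sig p ≠ p) :
    ∀ (m : ℕ) (a : D), (fun p => sig (rho p))^[m] a ≠ rho a := by
  intro m
  induction m using Nat.strong_induction_on with
  | _ m ih =>
    intro a h
    match m, ih, h with
    | 0, _, h => exact rne a (by simpa using h.symm)
    | 1, _, h => exact sne (rho a) (by simpa using h)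
    | k + 2, ih, h =>
      apply ih k (by omega) (sig (rho a))
      rw [Function.iterate_succ_apply', Function.iterate_succ_apply] at h
      have h2 : sig (rho ((fun p => sig (rho p))^[k] (sig (rho a)))) = rho a := h
      have h3 := congrArg sig h2
      rw [s2] at h3
      have h4 := congrArg rho h3
      rw [r2] at h4
      exact h4

/-- a positive power of `sig ∘ rho` never maps a point to its `sig` image -/
lemma ne_sig (rho sig : D → D) (r2 : ∀ p, rho (rho p) = p) (s2 : ∀ p, sig (sig p) = p)
    (rne : ∀ p, rho p ≠ p) (sne : ∀ p, sig p ≠ p) :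
    ∀ (m : ℕ) (a : D), (fun p => sig (rho p))^[m + 1] a ≠ sig a := by
  intro m a h
  rw [Function.iterate_succ_apply'] at h
  have h2 : sig (rho ((fun p => sig (rho p))^[m] a)) = sig a := h
  have h3 := congrArg sig h2
  rw [s2, s2] at h3
  have h4 := congrArg rho h3
  rw [r2] at h4
  exact ne_rho rho sig r2 s2 rne sne m a h4

end Dih

variable {V E : Type} (G : MG V E)

/-- the darts of the edge set `C` -/
def Dart (C : Finset E) : Type := {p : E × V // p.1 ∈ C ∧ p.2 ∈ G.ends p.1}

lemma exRho (C : Finset E) (p : Dart G C) : ∃ q : Dart G C, q.1.1 = p.1.1 ∧ q ≠ p ∧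
    ∀ r : Dart G C, r.1.1 = p.1.1 → r = p ∨ r = q := by
  obtain ⟨⟨e, v⟩, he, hv⟩ := p
  simp only at he hv
  obtain ⟨w, hw⟩ := Sym2.mem_iff_exists.1 hv
  have hvw : v ≠ w := by
    intro h
    apply G.loopless e
    rw [hw, h]
    exact rfl
  refine ⟨⟨(e, w), he, ?_⟩, rfl, ?_, ?_⟩
  · simp only [hw]; exact Sym2.mem_mk_right v w
  · intro h
    have := congrArg (fun q : Dart G C => q.1.2) h
    exact hvw this.symm
  · rintro ⟨⟨e', v'⟩, he', hv'⟩ h
    simp only at h
    subst h
    simp only at hv'
    rw [hw] at hv'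
    rcases Sym2.mem_iff.1 hv' with h | h
    · left; subst h; rfl
    · right; subst h; rfl

lemma exSig [DecidableEq V] [DecidableEq E] (C : Finset E) (hC : ∀ v, deg G C v = 0 ∨ deg G C v = 2) (p : Dart G C) :
    ∃ q : Dart G C, q.1.2 = p.1.2 ∧ q ≠ p ∧
    ∀ r : Dart G C, r.1.2 = p.1.2 → r = p ∨ r = q := by
  obtain ⟨⟨e, v⟩, he, hv⟩ := p
  simp only at he hv
  have hmem : e ∈ C.filter (fun e => v ∈ G.ends e) := mem_filter.2 ⟨he, hv⟩
  have h2 : (C.filter (fun e => v ∈ G.ends e)).card = 2 := by
    rcases hC v with h | h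
    · exfalso
      unfold deg at h
      rw [card_eq_zero] at h
      rw [h] at hmem
      exact absurd hmem (notMem_empty e)
    · exact h
  obtain ⟨a, b, hab, hs⟩ := card_eq_two.1 h2
  have key : ∃ e' : E, e' ≠ e ∧ C.filter (fun e => v ∈ G.ends e) = {e, e'} := by
    rw [hs] at hmem ⊢
    rcases mem_insert.1 hmem with h | h
    · exact ⟨b, by rw [h]; exact hab.symm, by rw [h]⟩
    · have h' := mem_singleton.1 h
      exact ⟨a, by rw [h']; exact hab, by rw [h']; exact pair_comm a b⟩
  obtain ⟨e', hne, hs'⟩ := key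
  have hm' : e' ∈ C.filter (fun e => v ∈ G.ends e) := by rw [hs']; simp
  obtain ⟨h1, h2'⟩ := mem_filter.1 hm'
  refine ⟨⟨(e', v), h1, h2'⟩, rfl, ?_, ?_⟩
  · intro h
    have := congrArg (fun q : Dart G C => q.1.1) h
    exact hne this
  · rintro ⟨⟨e'', v''⟩, he'', hv''⟩ h
    simp only at h
    subst h
    simp only at hv'' he''
    have hm : e'' ∈ C.filter (fun e => v'' ∈ G.ends e) := mem_filter.2 ⟨he'', hv''⟩
    rw [hs'] at hm
    rcases mem_insert.1 hm with h | h
    · left; subst h; rfl
    · right; have := mem_singleton.1 h; subst this; rfl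

instance [Finite V] [Finite E] (C : Finset E) : Finite (Dart G C) := by
  unfold Dart
  infer_instance

end Cyc

open Cyc in
theorem I_Cyc : StCyc := by
  intro V E _ _ _ _ G C hC x hx
  obtain ⟨e0, he0, hx0⟩ := hx
  choose rho rho1 rho2 rho3 using exRho G C
  choose sig sig1 sig2 sig3 using exSig G C hC.deg
  have r2 : ∀ p, rho (rho p) = p := invol (fun p : Dart G C => p.1.1) rho rho1 rho2 rho3
  have s2 : ∀ p, sig (sig p) = p := invol (fun p : Dart G C => p.1.2) sig sig1 sig2 sig3
  set phi : Dart G C → Dart G C := fun p => sig (rho p) with hphi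
  have hinj : Function.Injective phi := by
    intro a b h
    have h1 := congrArg sig h
    simp only [hphi, s2] at h1
    have h3 := congrArg rho h1
    simpa only [r2] using h3
  let d0 : Dart G C := ⟨(e0, x), he0, hx0⟩
  let d : ℕ → Dart G C := fun i => phi^[i] d0
  have dsucc : ∀ i, d (i + 1) = sig (rho (d i)) := fun i => by
    simp only [d, Function.iterate_succ_apply', hphi]
  have dadd : ∀ i m, d (i + m) = phi^[m] (d i) := fun i m => by
    simp only [d]
    rw [add_comm, Function.iterate_add_apply]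
  have hper : d0 ∈ Function.periodicPts phi := by
    exact hinj.mem_periodicPts d0
  set n := Function.minimalPeriod phi d0 with hn
  have hnpos : 0 < n := Function.minimalPeriod_pos_of_mem_periodicPts hper
  have dper : ∀ i, d (i + n) = d i := by
    intro i
    simp only [d]
    rw [hn]
    exact Function.iterate_add_minimalPeriod_eq
  have dmod : ∀ i, d (i % n) = d i := by
    intro i
    simp only [d]
    rw [hn]
    exact Function.iterate_mod_minimalPeriod_eq
  have dinj : ∀ i j, i < n → j < n → d i = d j → i = j := by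
    intro i j hi hj h
    exact Function.iterate_injOn_Iio_minimalPeriod hi hj h
  have dlt : ∀ i j, i < j → j < n → (d i).1.1 ≠ (d j).1.1 := by
    intro i j hij hj h
    rcases rho3 (d i) (d j) h.symm with h1 | h1
    · exact absurd (dinj j i hj (by omega) h1) (by omega)
    · obtain ⟨m, rfl⟩ := Nat.exists_eq_add_of_lt hij
      rw [show i + m + 1 = i + (m + 1) by ring, dadd] at h1
      exact ne_rho rho sig r2 s2 rho2 sig2 (m + 1) (d i) h1
  have dlt' : ∀ i j, i < j → j < n → (d i).1.2 ≠ (d j).1.2 := by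
    intro i j hij hj h
    rcases sig3 (d i) (d j) h.symm with h1 | h1
    · exact absurd (dinj j i hj (by omega) h1) (by omega)
    · obtain ⟨m, rfl⟩ := Nat.exists_eq_add_of_lt hij
      rw [show i + m + 1 = i + (m + 1) by ring, dadd] at h1
      exact ne_sig rho sig r2 s2 rho2 sig2 m (d i) h1
  have hce : ∀ i, G.ends (d i).1.1 = s((d i).1.2, (d (i + 1)).1.2) := by
    intro i
    have h1 : (rho (d i)).1.1 = (d i).1.1 := rho1 _
    have h2 : (d (i + 1)).1.2 = (rho (d i)).1.2 := by rw [dsucc, sig1]
    have h3 : (rho (d i)).1.2 ∈ G.ends (d i).1.1 := by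
      have := (rho (d i)).2.2
      rwa [h1] at this
    have h4 : (d i).1.2 ≠ (rho (d i)).1.2 := by
      intro h
      apply rho2 (d i)
      apply Subtype.ext
      exact Prod.ext h1 h.symm
    rw [h2]
    exact ((Sym2.mem_and_mem_iff h4).1 ⟨(d i).2.2, h3⟩)
  have hnext : ∀ i, (d (i + 1)).1.1 ≠ (d i).1.1 := by
    intro i h
    have h1 : (rho (d i)).1.1 = (d i).1.1 := rho1 _
    have h2 : (d (i + 1)).1.2 = (rho (d i)).1.2 := by rw [dsucc, sig1]
    have h3 : d (i + 1) = rho (d i) := by
      apply Subtype.ext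
      exact Prod.ext (h.trans h1.symm) h2
    rw [dsucc] at h3
    exact sig2 _ h3
  have htwo : 2 ≤ n := by
    by_contra hlt
    have h1 : n = 1 := by omega
    have h2 := dper 0
    rw [h1] at h2
    exact hnext 0 (by rw [h2])
  -- closure
  have hclos : ∀ e, Linked G Set.univ C e0 e → ∃ i, (d i).1.1 = e := by
    intro e hlk
    induction hlk with
    | refl => exact ⟨0, rfl⟩
    | @tail b e _ hstep ih =>
      obtain ⟨hb, he, v, _, hvb, hve⟩ := hstep
      obtain ⟨i, hi⟩ := ih
      -- the dart of the new edge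
      have key : ∀ k, 1 ≤ k → (d k).1.2 = v → ∃ i, (d i).1.1 = e := by
        intro k hk hkv
        obtain ⟨k, rfl⟩ : ∃ k', k = k' + 1 := ⟨k - 1, by omega⟩
        rcases sig3 (d (k + 1)) ⟨(e, v), he, hve⟩ hkv.symm with h | h
        · exact ⟨k + 1, (congrArg (fun q : Dart G C => q.1.1) h).symm⟩
        · rw [dsucc, s2] at h
          refine ⟨k, ?_⟩
          have h5 := congrArg (fun q : Dart G C => q.1.1) h
          simp only [rho1] at h5
          exact h5.symm
      rw [← hi, hce i] at hvb
      rcases Sym2.mem_iff.1 hvb with h | h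
      · exact key (i + n) (by omega) (by rw [dper, h])
      · exact key (i + 1) (by omega) h.symm
  have hall : ∀ e ∈ C, ∃ i < n, (d i).1.1 = e := by
    intro e he
    obtain ⟨i, hi⟩ := hclos e (hC.conn e0 he0 e he)
    exact ⟨i % n, Nat.mod_lt _ hnpos, by rw [dmod, hi]⟩
  refine ⟨n, fun i => (d i).1.2, fun i => (d i).1.1, ?_, rfl⟩
  refine ⟨htwo, ?_, ?_, ?_, ?_, ?_⟩
  · intro i hi j hj h
    rcases lt_trichotomy i j with h1 | h1 | h1
    · exact absurd h (dlt' i j h1 hj)
    · exact h1
    · exact absurd h.symm (dlt' j i h1 hi)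
  · intro i hi j hj h
    rcases lt_trichotomy i j with h1 | h1 | h1
    · exact absurd h (dlt i j h1 hj)
    · exact h1
    · exact absurd h.symm (dlt j i h1 hi)
  · intro e
    constructor
    · exact hall e
    · rintro ⟨i, _, rfl⟩
      exact (d i).2.1
  · intro v
    constructor
    · rintro ⟨e, he, hv⟩
      obtain ⟨i, hi, rfl⟩ := hall e he
      rw [hce i] at hv
      rcases Sym2.mem_iff.1 hv with h | h
      · exact ⟨i, hi, h.symm⟩
      · exact ⟨(i + 1) % n, Nat.mod_lt _ hnpos, by simp only [dmod]; exact h.symm⟩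
    · rintro ⟨i, _, rfl⟩
      exact ⟨(d i).1.1, (d i).2.1, (d i).2.2⟩
  · intro i _
    simp only [dmod]
    exact hce i

end Pool.Agent.Work.MP_7794fd_co.R
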