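import Pool.Agent.Work.MP_7794fd_co.R.Stmts

/-! Project MP_7794fd_co, module R, item Assemble: from a good pairing to a semi-extension. -/

set_option autoImplicit false

set_option linter.unusedSectionVars false

namespace Pool.Agent.Work.MP_7794fd_co.R

namespace Assemble

variable {V E : Type} [Fintype V] [DecidableEq V] [Fintype E] [DecidableEq E] {G : MG V E}

lemma verts_mono {X Y : Finset E} (h : X ⊆ Y) : verts G X ⊆ verts G Y := by
  rintro v ⟨e, he, hv⟩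
  exact ⟨e, h he, hv⟩

lemma mem_verts_of_deg {X : Finset E} {v : V} (h : deg G X v ≠ 0) : v ∈ verts G X := by
  unfold deg at h
  obtain ⟨e, he⟩ := Finset.card_pos.1 (Nat.pos_of_ne_zero h)
  rw [Finset.mem_filter] at he
  exact ⟨e, he.1, he.2⟩

lemma zmod2 (a : ZMod 2) : a = 0 ∨ a = 1 := by
  revert a
  decide

section

variable {C P : Finset E} {n : ℕ} {f : ℕ → V} {c : ℕ → E} {iy : ℕ} {R : ℕ → ℕ → Prop}
  {pr : ℕ → ℕ} {col : ℕ → ZMod 2} {Q : Finset E} {D : ZMod 2 → Finset E}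

lemma key (hcyc : IsCyc G C n f c) (hiy : 0 < iy)
    (hgp : GoodPairing n iy R pr col) (hQ : IsQ G C P n f pr Q)
    (hD : ∀ s e, e ∈ D s ↔ e ∈ Q ∨ ∃ i < n, c i = e ∧ col i = s)
    (x : V) (hx : x ∈ verts G (C ∪ D 1)) :
    (∀ s, x ∈ verts G (D s)) ∨ ∃ i, 0 < i ∧ i < n ∧ i ≠ iy ∧ pr i = i ∧ f i = x := by
  have h0n : 0 < n := lt_of_lt_of_le (by norm_num) hcyc.two
  by_cases hxC : x ∈ verts G C
  · obtain ⟨i, hi, hfi⟩ := (hcyc.memf x).1 hxC
    by_cases hp : pr i = i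
    · refine Or.inr ⟨i, ?_, hi, ?_, hp, hfi⟩
      · rcases Nat.eq_zero_or_pos i with h | h
        · subst h
          rw [hgp.root] at hp
          omega
        · exact h
      · intro h
        have h1 := hgp.inv 0 h0n
        rw [hgp.root] at h1
        rw [h, h1] at hp
        omega
    · left
      intro s
      have hd := hQ.degC i hi
      rw [if_neg hp, hfi] at hd
      have h1 : x ∈ verts G Q := mem_verts_of_deg (by omega)
      exact verts_mono (fun e he => (hD s e).2 (Or.inl he)) h1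
  · left
    intro s
    obtain ⟨e, he, hxe⟩ := hx
    rw [Finset.mem_union] at he
    rcases he with he | he
    · exact absurd ⟨e, he, hxe⟩ hxC
    · rcases (hD 1 e).1 he with h | ⟨i, hi, hci, _⟩
      · exact ⟨e, (hD s e).2 (Or.inl h), hxe⟩
      · exact absurd ⟨e, (hcyc.memc e).2 ⟨i, hi, hci⟩, hxe⟩ hxC

lemma mem_side (hcyc : IsCyc G C n f c)
    (hD : ∀ s e, e ∈ D s ↔ e ∈ Q ∨ ∃ i < n, c i = e ∧ col i = s)
    (i : ℕ) (hi : i < n) (s : ZMod 2) (hs : col i = s) : f i ∈ verts G (D s) := by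
  refine ⟨c i, (hD s (c i)).2 (Or.inr ⟨i, hi, rfl, hs⟩), ?_⟩
  rw [hcyc.ends i hi]
  exact Sym2.mem_mk_left _ _

lemma placed (hcyc : IsCyc G C n f c) (hiy : 0 < iy)
    (hgp : GoodPairing n iy R pr col) (hQ : IsQ G C P n f pr Q)
    (hD : ∀ s e, e ∈ D s ↔ e ∈ Q ∨ ∃ i < n, c i = e ∧ col i = s)
    (hcirc : ∀ s, IsCircuit G (D s)) (hsymm : symmDiff C (D 1) = D 0)
    (A : Set V) (hA : A ⊆ verts G (C ∪ D 1))
    (hcol : ∀ i j, 0 < i → i < n → i ≠ iy → 0 < j → j < n → j ≠ iy → pr i = i → pr j = j →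
      f i ∈ A → f j ∈ A → col i = col j) : Placed G C (D 1) A := by
  by_cases h : ∃ i, 0 < i ∧ i < n ∧ i ≠ iy ∧ pr i = i ∧ f i ∈ A ∧ col i = 0
  · obtain ⟨i, h0, hn, hy, hp, hiA, hc⟩ := h
    right
    obtain ⟨e0, he0⟩ := (hcirc 0).nonempty
    rw [hsymm]
    refine ⟨e0, he0, fun x hx => ?_⟩
    have hx0 : x ∈ verts G (D 0) := by
      rcases key hcyc hiy hgp hQ hD x (hA hx) with h1 | ⟨j, j0, jn, jy, jp, hj⟩
      · exact h1 0
      · rw [← hj]
        refine mem_side hcyc hD j jn 0 ?_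
        rw [← hcol i j h0 hn hy j0 jn jy hp jp hiA (by rw [hj]; exact hx), hc]
    obtain ⟨g, hg, hxg⟩ := hx0
    exact ⟨g, (hcirc 0).conn e0 he0 g hg, hxg⟩
  · left
    intro x hx
    rcases key hcyc hiy hgp hQ hD x (hA hx) with h1 | ⟨j, j0, jn, jy, jp, hj⟩
    · exact h1 1
    · rw [← hj]
      refine mem_side hcyc hD j jn 1 ?_
      rcases zmod2 (col j) with h2 | h2
      · exact absurd ⟨j, j0, jn, jy, jp, by rw [hj]; exact hx, h2⟩ h
      · exact h2

lemma symm_eq (hcyc : IsCyc G C n f c) (hQ : IsQ G C P n f pr Q)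
    (hD : ∀ s e, e ∈ D s ↔ e ∈ Q ∨ ∃ i < n, c i = e ∧ col i = s) :
    symmDiff C (D 1) = D 0 := by
  have hdis : ∀ e, e ∈ C → e ∉ Q := fun e h1 h2 => (Finset.disjoint_left.1 hQ.disj) h1 h2
  ext e
  rw [Finset.mem_symmDiff]
  constructor
  · rintro (⟨h1, h2⟩ | ⟨h1, h2⟩)
    · obtain ⟨i, hi, hci⟩ := (hcyc.memc e).1 h1
      refine (hD 0 e).2 (Or.inr ⟨i, hi, hci, ?_⟩)
      rcases zmod2 (col i) with h3 | h3
      · exact h3
      · exact absurd ((hD 1 e).2 (Or.inr ⟨i, hi, hci, h3⟩)) h2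
    · rcases (hD 1 e).1 h1 with h3 | ⟨i, hi, hci, _⟩
      · exact (hD 0 e).2 (Or.inl h3)
      · exact absurd ((hcyc.memc e).2 ⟨i, hi, hci⟩) h2
  · intro h
    rcases (hD 0 e).1 h with h3 | ⟨i, hi, hci, h0⟩
    · exact Or.inr ⟨(hD 1 e).2 (Or.inl h3), fun h4 => hdis e h4 h3⟩
    · have heC : e ∈ C := (hcyc.memc e).2 ⟨i, hi, hci⟩
      refine Or.inl ⟨heC, fun h4 => ?_⟩
      rcases (hD 1 e).1 h4 with h5 | ⟨j, hj, hcj, h1⟩
      · exact hdis e heC h5
      · have hij : i = j := hcyc.injc i hi j hj (by rw [hci, hcj])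
        rw [hij, h1] at h0
        exact absurd h0 (by decide)

end

end Assemble

open Assemble in
open Classical in
theorem I_Assemble (hs : StSide) : StAssemble := by
  intro V E _ _ _ _ G C P x y hcub hC hP n f c iy pr col Q hcyc hf0 hiy hiyn hfy hgp hQ
  obtain ⟨D, hD⟩ : ∃ D : ZMod 2 → Finset E,
      ∀ s e, e ∈ D s ↔ e ∈ Q ∨ ∃ i < n, c i = e ∧ col i = s :=
    ⟨fun s => Finset.univ.filter (fun e => e ∈ Q ∨ ∃ i < n, c i = e ∧ col i = s),
      fun s e => by rw [Finset.mem_filter]; simp⟩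
  have h0n : 0 < n := lt_of_lt_of_le (by norm_num) hcyc.two
  have hcirc : ∀ s, IsCircuit G (D s) := fun s =>
    hs G C P hcub hC n f c iy _ pr col Q hcyc hiy hiyn hgp hQ s (D s) (hD s)
  have hsymm : symmDiff C (D 1) = D 0 := symm_eq hcyc hQ hD
  have hQD : Q ⊆ D 1 := fun e he => (hD 1 e).2 (Or.inl he)
  have hPD : P ⊆ D 1 := hQ.sub.trans hQD
  have hmono : verts G (C ∪ P) ⊆ verts G (C ∪ D 1) :=
    verts_mono (Finset.union_subset_union (Finset.Subset.refl C) hPD)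
  refine ⟨D 1, ⟨hC, hcirc 1, ?_, ?_, ?_⟩, hPD⟩
  · intro hCD
    have h1 := hQ.degC 0 h0n
    have h2 : pr 0 ≠ 0 := by rw [hgp.root]; omega
    rw [if_neg h2] at h1
    obtain ⟨e, he, _⟩ := mem_verts_of_deg (G := G) (X := Q) (v := f 0) (by omega)
    have h3 : e ∈ C := by rw [hCD]; exact hQD he
    exact (Finset.disjoint_left.1 hQ.disj) h3 he
  · intro e he hends
    refine placed hcyc hiy hgp hQ hD hcirc hsymm _ hends ?_
    intro i j i0 hi iy' j0 hj jy' pi pj hiA hjA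
    by_cases hij : i = j
    · rw [hij]
    · have hne : f i ≠ f j := fun h => hij (hcyc.injf i hi j hj h)
      have hee : G.ends e = s(f i, f j) := (Sym2.mem_and_mem_iff hne).1 ⟨hiA, hjA⟩
      refine hgp.same i j i0 hi iy' j0 hj jy' ?_ pi pj
      refine Or.inr (Or.inl ⟨e, fun h => he (Finset.mem_union_left _ h),
        fun h => he (Finset.mem_union_right _ (hPD h)), hee⟩)
  · intro u hu
    refine placed hcyc hiy hgp hQ hD hcirc hsymm _ (fun z hz => hz.1) ?_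
    have hatt : ∀ i, i < n → f i ∈ {x | x ∈ verts G (C ∪ D 1) ∧
        ∃ q, Reach G (verts G (C ∪ D 1))ᶜ Finset.univ u q ∧ ∃ e, G.ends e = s(q, x)} →
        f i ∈ att G C P u := by
      intro i hi hz
      obtain ⟨_, q, hq, e, he⟩ := hz
      refine ⟨(hcyc.memf (f i)).2 ⟨i, hi, rfl⟩, q, ?_, e, he⟩
      refine Relation.ReflTransGen.mono ?_ _ _ hq
      rintro a b ⟨ha, hb, e', he'⟩
      exact ⟨fun h => ha (hmono h), fun h => hb (hmono h), e', he'⟩
    intro i j i0 hi iy' j0 hj jy' pi pj hiA hjA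
    refine hgp.same i j i0 hi iy' j0 hj jy' ?_ pi pj
    exact Or.inr (Or.inr ⟨u, fun h => hu (hmono h), hatt i hi hiA, hatt j hj hjA⟩)

end Pool.Agent.Work.MP_7794fd_co.R
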