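import Pool.Agent.Work.MP_7794fd_co.R.Stmts

/-! Project MP_7794fd_co, module R, item 12: the root chord ends before all other chords. -/

set_option autoImplicit false

namespace Pool.Agent.Work.MP_7794fd_co.R

open Finset Matrix

namespace Base

theorem two_eq (a : ZMod 2) : a + a = 0 := by
  have h : (2 : ZMod 2) = 0 := by decide
  rw [← two_mul, h, zero_mul]

theorem cr_self (u : ℚ × ℚ) (h : u.1 ≠ u.2) : cr u u = 1 := by
  unfold cr pt lt2
  rcases lt_or_gt_of_ne h with h1 | h1
  · simp [h1, not_lt.2 h1.le]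
  · simp [h1, not_lt.2 h1.le]

theorem kap_add {ι : Type} (pos : ι → ℚ × ℚ) (y : ℚ) (M : Finset ι) (u : ι)
    (h1 : y < (pos u).1) (h2 : y < (pos u).2) :
    kap pos y M (pos u).1 + kap pos y M (pos u).2 = ∑ m ∈ M, cr (pos u) (pos m) := by
  unfold kap cr
  rw [sum_add_distrib]
  have e1 : lt2 y (pos u).1 = 1 := by simp [lt2, h1]
  have e2 : lt2 y (pos u).2 = 1 := by simp [lt2, h2]
  rw [e1, e2]
  have h3 : (1 : ZMod 2) + 1 = 0 := by decide
  rw [h3]
  ring

theorem det_zero {ι : Type} [Fintype ι] [DecidableEq ι] (pos : ι → ℚ × ℚ) (y : ℚ)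
    (V M : Finset ι) (hG : Gen pos V ∅) (hy : ∀ w ∈ V, y < (pos w).1 ∧ y < (pos w).2)
    (hM : M ⊆ V) (hne : M.Nonempty) : (BM pos y V M).det = 0 := by
  have : Fact (Nat.Prime 2) := ⟨Nat.prime_two⟩
  rw [← Matrix.exists_mulVec_eq_zero_iff]
  refine ⟨fun v => if v ∈ M then 1 else 0, ?_, ?_⟩
  · obtain ⟨a, ha⟩ := hne
    intro h
    have := congrFun h a
    simp [ha] at this
  · funext u
    simp only [Matrix.mulVec, dotProduct, Pi.zero_apply, mul_ite, mul_one, mul_zero]
    rw [← Finset.sum_filter, Finset.filter_mem_eq_inter, Finset.univ_inter]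
    by_cases hu : u ∈ M
    · rw [← Finset.add_sum_erase M _ hu]
      have huV := hM hu
      have e1 : BM pos y V M u u = 1 + (kap pos y M (pos u).1 + kap pos y M (pos u).2) := by
        simp [BM, huV, add_assoc]
      have e2 : ∑ v ∈ M.erase u, BM pos y V M u v = ∑ v ∈ M.erase u, cr (pos u) (pos v) := by
        refine Finset.sum_congr rfl fun v hv => ?_
        have hv1 := Finset.ne_of_mem_erase hv
        have hv2 := Finset.mem_of_mem_erase hv
        simp [BM, hu, hv2, Ne.symm hv1]
      rw [e1, e2, kap_add pos y M u (hy u huV).1 (hy u huV).2, ← Finset.add_sum_erase M _ hu,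
        cr_self _ (hG.ne u huV)]
      rw [← add_assoc, two_eq 1, zero_add]
      exact two_eq _
    · refine Finset.sum_eq_zero fun v hv => ?_
      have h1 : u ≠ v := fun h => hu (h ▸ hv)
      simp [BM, hu, h1]

theorem det_one {ι : Type} [Fintype ι] [DecidableEq ι] (pos : ι → ℚ × ℚ) (y : ℚ)
    (V : Finset ι) (hy : ∀ w ∈ V, y < (pos w).1 ∧ y < (pos w).2) :
    (BM pos y V ∅).det = 1 := by
  have h : BM pos y V ∅ = 1 := by
    ext u v
    by_cases huv : u = v
    · subst huv
      rw [Matrix.one_apply_eq]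
      by_cases hu : u ∈ V
      · have e := kap_add pos y ∅ u (hy u hu).1 (hy u hu).2
        rw [Finset.sum_empty] at e
        simp [BM, hu, add_assoc, e]
      · simp [BM, hu]
    · rw [Matrix.one_apply_ne huv]
      simp [BM, huv]
  rw [h, Matrix.det_one]

end Base

theorem I_Base : StBase := by
  intro ι _ _ pos y V h hG hy
  unfold SS
  simp only [Finset.union_empty]
  rw [Finset.sum_eq_single ∅]
  · rw [Base.det_one pos y V hy, one_mul]
  · intro M hM hne
    rw [Base.det_zero pos y V M hG hy (Finset.mem_powerset.1 hM)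
      (Finset.nonempty_iff_ne_empty.2 hne), zero_mul]
  · intro h1
    exact absurd (Finset.empty_mem_powerset V) h1

end Pool.Agent.Work.MP_7794fd_co.R
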