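import Pool.Agent.Work.MP_7794fd_co.R.Stmts

/-! Item 13: the forced chord ends before all other chords. -/

set_option autoImplicit false

namespace Pool.Agent.Work.MP_7794fd_co.R

open Finset Matrix

namespace BaseG

lemma lt2_zero {p z : ℚ} (h : z ≤ p) : lt2 p z = 0 := by
  unfold lt2
  rw [if_neg (not_lt.2 h)]

lemma lt2_one {p z : ℚ} (h : p < z) : lt2 p z = 1 := by
  unfold lt2
  rw [if_pos h]

lemma pt_zero {u : ℚ × ℚ} {z : ℚ} (h1 : z ≤ u.1) (h2 : z ≤ u.2) : pt u z = 0 := by
  unfold pt
  rw [lt2_zero h1, lt2_zero h2, add_zero]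

end BaseG

theorem I_BaseG : StBaseG := by
  intro ι _ _ pos y V g r s h hg hrs hsy hV
  unfold SS
  refine Finset.sum_eq_zero ?_
  intro M hM
  rw [Finset.mem_powerset] at hM
  have hgM : g ∉ M := fun hc => hg (hM hc)
  set pos' : ι → ℚ × ℚ := Function.update pos g (r, s) with hpos'
  have hpg : pos' g = (r, s) := by rw [hpos']; simp
  have hpm : ∀ m ∈ M, pos' m = pos m := by
    intro m hm
    have hne : m ≠ g := fun hc => hgM (hc ▸ hm)
    rw [hpos', Function.update_of_ne hne]
  have hp1 : ∀ m ∈ M, pt (pos' m) r = 0 := by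
    intro m hm
    rw [hpm m hm]
    have := hV m (hM hm)
    exact BaseG.pt_zero (by linarith [this.1]) (by linarith [this.2])
  have hp2 : ∀ m ∈ M, pt (pos' m) s = 0 := by
    intro m hm
    rw [hpm m hm]
    have := hV m (hM hm)
    exact BaseG.pt_zero this.1.le this.2.le
  have hsum1 : ∑ m ∈ M ∪ {g}, pt (pos' m) r = 0 := by
    rw [Finset.sum_union (Finset.disjoint_singleton_right.2 hgM), Finset.sum_singleton,
      Finset.sum_eq_zero hp1, hpg]
    rw [BaseG.pt_zero (le_refl r) hrs.le, add_zero]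
  have hsum2 : ∑ m ∈ M ∪ {g}, pt (pos' m) s = 1 := by
    rw [Finset.sum_union (Finset.disjoint_singleton_right.2 hgM), Finset.sum_singleton,
      Finset.sum_eq_zero hp2, hpg]
    unfold pt
    rw [BaseG.lt2_one hrs, BaseG.lt2_zero (le_refl s)]
    decide
  have hk1 : kap pos' y (M ∪ {g}) r = 1 := by
    unfold kap
    rw [hsum1, BaseG.lt2_zero (by linarith : r ≤ y)]
    decide
  have hk2 : kap pos' y (M ∪ {g}) s = 0 := by
    unfold kap
    rw [hsum2, BaseG.lt2_zero hsy.le]
    decide
  have hdet : (BM pos' y (V ∪ {g}) (M ∪ {g})).det = 0 := by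
    refine Matrix.det_eq_zero_of_row_eq_zero g ?_
    intro v
    unfold BM
    by_cases hgv : g = v
    · subst hgv
      rw [if_pos rfl, if_pos (by simp), hpg, hk1, hk2]
      decide
    · rw [if_neg hgv]
      by_cases hv : g ∈ M ∪ {g} ∧ v ∈ M ∪ {g}
      · rw [if_pos hv]
        have hvM : v ∈ M := by
          have := hv.2
          rw [Finset.mem_union, Finset.mem_singleton] at this
          rcases this with h1 | h1
          · exact h1
          · exact absurd h1.symm hgv
        unfold cr
        rw [hpg, hp1 v hvM, hp2 v hvM, add_zero]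
      · rw [if_neg hv]
  rw [hdet, zero_mul]

end Pool.Agent.Work.MP_7794fd_co.R
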