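import Pool.Agent.Work.MP_7794fd_co.R.Stmts

/-! Item 23: two vertices of the same bridge are joined by a path in the bridge. -/

set_option autoImplicit false
set_option linter.unusedSectionVars false

namespace Pool.Agent.Work.MP_7794fd_co.R

open Finset

namespace BridgePath

variable {V E : Type} [Fintype V] [DecidableEq V] [Fintype E] [DecidableEq E] (G : MG V E)

theorem reach_mem {W : Set V} {X : Finset E} {u v : V} (hu : u ∈ W) (h : Reach G W X u v) :
    v ∈ W := by
  rcases Relation.ReflTransGen.cases_tail h with h1 | ⟨_, _, h2⟩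
  · rw [h1]; exact hu
  · exact h2.2.1

theorem reach_symm {W : Set V} {X : Finset E} {u v : V} (h : Reach G W X u v) :
    Reach G W X v u := by
  induction h with
  | refl => exact Relation.ReflTransGen.refl
  | tail _ hs ih =>
    obtain ⟨ha, hb, e, he, hab⟩ := hs
    exact (Relation.ReflTransGen.single ⟨hb, ha, e, he, by rw [hab, Sym2.eq_swap]⟩).trans ih

theorem verts_mono {X Y : Finset E} (h : X ⊆ Y) {v : V} (hv : v ∈ verts G X) : v ∈ verts G Y := by
  obtain ⟨e, he, h2⟩ := hv
  exact ⟨e, h he, h2⟩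

theorem deg_singleton (e : E) (z : V) : deg G {e} z = if z ∈ G.ends e then 1 else 0 := by
  unfold deg
  rw [Finset.filter_singleton]
  split_ifs <;> simp

end BridgePath

open BridgePath in
theorem I_BridgePath (hp : StPath) : StBridgePath := by
  intro V E _ _ _ _ G C P x y _hcub hC hP v w hv hw hvw hsb
  have hvm : v ∈ verts G (C ∪ P) := verts_mono G subset_union_left hv
  have hwm : w ∈ verts G (C ∪ P) := verts_mono G subset_union_left hw
  rcases hsb with h | ⟨e, heC, heP, hee⟩ | ⟨u, hu, ⟨_, q1, hr1, e1, he1⟩, ⟨_, q2, hr2, e2, he2⟩⟩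
  · exact absurd h hvw
  · refine ⟨{e}, ?_, ?_, ?_, ?_, ?_, ?_, ?_⟩
    · exact disjoint_singleton_right.2 heC
    · rw [deg_singleton, hee, if_pos (by simp)]
    · rw [deg_singleton, hee, if_pos (by simp)]
    · intro z _ hz1 hz2
      rw [deg_singleton, hee, if_neg (by simp [hz1, hz2])]
    · intro z hz
      left
      have hz1 : z ≠ v := by rintro rfl; exact hz hvm
      have hz2 : z ≠ w := by rintro rfl; exact hz hwm
      rw [deg_singleton, hee, if_neg (by simp [hz1, hz2])]
    · intro z hz hd
      have hz1 : z ≠ v := by rintro rfl; exact hz hvm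
      have hz2 : z ≠ w := by rintro rfl; exact hz hwm
      exact absurd (by rw [deg_singleton, hee, if_neg (by simp [hz1, hz2])]) hd
    · intro a ha b hb
      rw [mem_singleton] at ha hb
      rw [ha, hb]
      exact Relation.ReflTransGen.refl
  · have hq1 : q1 ∈ (verts G (C ∪ P))ᶜ := reach_mem G hu hr1
    have hq2 : q2 ∈ (verts G (C ∪ P))ᶜ := reach_mem G hu hr2
    have hr12 : Reach G (verts G (C ∪ P))ᶜ Finset.univ q1 q2 := (reach_symm G hr1).trans hr2
    obtain ⟨F, d1, d2, d3, d4, d5, d6⟩ := hp G (verts G (C ∪ P))ᶜ v w q1 q2 e1 e2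
      (fun h => h hvm) (fun h => h hwm) hvw hq1 hq2 (by rw [he1, Sym2.eq_swap]) he2 hr12
    refine ⟨F, ?_, d1, d2, ?_, ?_, ?_, d6⟩
    · rw [Finset.disjoint_left]
      intro a haC haF
      obtain ⟨z, hz, hza⟩ := d5 a haF
      exact hz ⟨a, mem_union_left _ haC, hza⟩
    · intro z hz hz1 hz2
      by_contra hd
      exact (reach_mem G hq1 (d4 z hz1 hz2 hd)) hz
    · intro z hz
      exact d3 z (by rintro rfl; exact hz hvm) (by rintro rfl; exact hz hwm)
    · intro z hz hd
      have hr := d4 z (by rintro rfl; exact hz hvm) (by rintro rfl; exact hz hwm) hd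
      have hr' := reach_symm G hr
      exact ⟨⟨hv, q1, hr', e1, he1⟩, ⟨hw, q2, hr'.trans hr12, e2, he2⟩⟩

end Pool.Agent.Work.MP_7794fd_co.R
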