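import Pool.Agent.Work.MP_7794fd_co.R.Stmts

/-! Project MP_7794fd_co, module R: deletion and contraction for two indices. -/

set_option autoImplicit false

namespace Pool.Agent.Work.MP_7794fd_co.R

open Finset Matrix

namespace Contr

variable {ι : Type} [Fintype ι] [DecidableEq ι]

/-- row `u` is added to row `v` and column `u` to column `v` -/
def zz (X : Matrix ι ι (ZMod 2)) (u v : ι) : Matrix ι ι (ZMod 2) :=
  transvection v u 1 * X * transvection u v 1

theorem det_zz (X : Matrix ι ι (ZMod 2)) {u v : ι} (h : u ≠ v) : (zz X u v).det = X.det := by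
  rw [zz, det_mul, det_mul, det_transvection_of_ne _ _ h.symm, det_transvection_of_ne _ _ h,
    one_mul, mul_one]

theorem zz_ne (X : Matrix ι ι (ZMod 2)) {u v a b : ι} (ha : a ≠ v) (hb : b ≠ v) :
    zz X u v a b = X a b := by
  rw [zz, mul_transvection_apply_of_ne _ _ _ _ hb, transvection_mul_apply_of_ne _ _ _ _ ha]

theorem zz_row (X : Matrix ι ι (ZMod 2)) {u v b : ι} (hb : b ≠ v) :
    zz X u v v b = X v b + X u b := by
  rw [zz, mul_transvection_apply_of_ne _ _ _ _ hb, transvection_mul_apply_same, one_mul]

theorem zz_col (X : Matrix ι ι (ZMod 2)) {u v a : ι} (ha : a ≠ v) :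
    zz X u v a v = X a v + X a u := by
  rw [zz, mul_transvection_apply_same, transvection_mul_apply_of_ne _ _ _ _ ha,
    transvection_mul_apply_of_ne _ _ _ _ ha, one_mul]

theorem zz_diag (X : Matrix ι ι (ZMod 2)) (u v : ι) :
    zz X u v v v = X v v + X u v + (X v u + X u u) := by
  rw [zz, mul_transvection_apply_same, transvection_mul_apply_same, transvection_mul_apply_same,
    one_mul, one_mul, one_mul]

end Contr

open Contr in
theorem I_Contr (h1 : StDiag) : StContr := by
  intro ι _ _ X X' Y u v huv huu hvv huv' hvu' hoff hYu hY hYv hYvv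
  have two : ∀ x : ZMod 2, x + x = 0 := by decide
  have t2 : (2 : ZMod 2) = 0 := by decide
  rw [← det_zz X huv, ← det_zz X' huv, h1 (zz X u v) (zz X' u v) u ?_ ?_]
  · congr 1
    ext a b
    by_cases hab : a = u ∨ b = u
    · rw [if_pos hab, hYu a b hab]
    · rw [if_neg hab]
      push Not at hab
      obtain ⟨hau, hbu⟩ := hab
      by_cases hav : a = v
      · subst hav
        by_cases hbv : b = a
        · subst hbv
          rw [zz_diag, hYvv]
          ring
        · rw [zz_row X hbv, (hYv b hbu hbv).1]
      · by_cases hbv : b = v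
        · subst hbv
          rw [zz_col X hav, (hYv a hau hav).2]
        · rw [zz_ne X hav hbv, hY a b hau hav hbu hbv]
  · rw [zz_ne X' huv huv, zz_ne X huv huv, huu]
  · intro a b hab
    by_cases hav : a = v
    · subst hav
      by_cases hbv : b = a
      · subst hbv
        rw [zz_diag, zz_diag, hvv, huv', hvu', huu]
        linear_combination 2 * t2
      · rw [zz_row X hbv, zz_row X' hbv]
        by_cases hbu : b = u
        · subst hbu
          rw [hvu', huu]
          linear_combination t2
        · rw [hoff a b (Or.inr ⟨hbu, hbv⟩), hoff u b (Or.inr ⟨hbu, hbv⟩)]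
    · by_cases hbv : b = v
      · subst hbv
        rw [zz_col X hav, zz_col X' hav]
        by_cases hau : a = u
        · subst hau
          rw [huv', huu]
          linear_combination t2
        · rw [hoff a b (Or.inl ⟨hau, hav⟩), hoff a u (Or.inl ⟨hau, hav⟩)]
      · rw [zz_ne X hav hbv, zz_ne X' hav hbv]
        rcases hab with hau | hbu
        · exact hoff a b (Or.inl ⟨hau, hav⟩)
        · exact hoff a b (Or.inr ⟨hbu, hbv⟩)

end Pool.Agent.Work.MP_7794fd_co.R
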