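import Pool.Agent.Work.MP_7794fd_co.R.Stmts

/-! Project MP_7794fd_co, module R, item 20: the combinatorial theorem. -/

set_option autoImplicit false

namespace Pool.Agent.Work.MP_7794fd_co.R

open Finset Matrix

namespace Core

theorem z2_one : ∀ a : ZMod 2, a ≠ 0 → a = 1 := by decide
theorem z2_eq : ∀ a b : ZMod 2, 1 + a + b ≠ 0 → a = b := by decide
theorem z2_01 : ∀ a b : ZMod 2, a ≠ b → (a = 0 ∧ b = 1) ∨ (a = 1 ∧ b = 0) := by decide

/-- the positions of natural chords -/
def P {ι : Type} (e : ι → ℕ × ℕ) : ι → ℚ × ℚ := fun u => (((e u).1 : ℚ), ((e u).2 : ℚ))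

theorem lt2_half (p i : ℕ) (hi : 0 < i) :
    lt2 (p : ℚ) ((i : ℚ) + 1 / 2) = lt2 (p : ℚ) (((i - 1 : ℕ) : ℚ) + 1 / 2) + if p = i then 1 else 0 := by
  have h1 : ((p : ℚ) < (i : ℚ) + 1 / 2) ↔ p ≤ i := by
    constructor
    · intro h
      by_contra hc
      have : (i : ℚ) + 1 ≤ p := by exact_mod_cast (not_le.1 hc)
      linarith
    · intro h
      have : (p : ℚ) ≤ i := by exact_mod_cast h
      linarith
  have h2 : ((p : ℚ) < ((i - 1 : ℕ) : ℚ) + 1 / 2) ↔ p < i := by
    obtain ⟨k, rfl⟩ : ∃ k, i = k + 1 := ⟨i - 1, by omega⟩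
    simp only [Nat.add_sub_cancel]
    constructor
    · intro h
      by_contra hc
      have : (k : ℚ) + 1 ≤ p := by exact_mod_cast (not_lt.1 hc)
      linarith
    · intro h
      have : (p : ℚ) ≤ k := by exact_mod_cast (Nat.lt_succ_iff.1 h)
      linarith
  unfold lt2
  simp only [h1, h2]
  rcases lt_trichotomy p i with h | h | h
  · rw [if_pos h.le, if_pos h, if_neg h.ne]; rfl
  · subst h; simp
  · rw [if_neg (not_le.2 h), if_neg (not_lt.2 h.le), if_neg h.ne']; rfl

theorem lt2_self (p i : ℕ) (hpi : i ≠ p) :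
    lt2 (p : ℚ) ((i : ℚ) + 1 / 2) = lt2 (p : ℚ) (i : ℚ) := by
  have h1 : ((p : ℚ) < (i : ℚ) + 1 / 2) ↔ (p : ℚ) < i := by
    constructor
    · intro h
      have hle : p ≤ i := by
        by_contra hc
        have : (i : ℚ) + 1 ≤ p := by exact_mod_cast (not_le.1 hc)
        linarith
      exact_mod_cast lt_of_le_of_ne hle (Ne.symm hpi)
    · intro h
      linarith
  unfold lt2
  simp only [h1]

variable {n : ℕ}

theorem fin (hker : StKernel) (hpr : StPr) (y : ℕ) (R : ℕ → ℕ → Prop) (hy0 : 0 < y) (hyn : y < n)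
    (_hrefl : ∀ i, R i i) (hsymm : ∀ i j, R i j → R j i) (htrans : ∀ i j k, R i j → R j k → R i k)
    (e : Fin n → ℕ × ℕ) (V' N : Finset (Fin n)) (hN : N ⊆ V')
    (hrange : ∀ u ∈ N, 0 < (e u).1 ∧ (e u).1 < (e u).2 ∧ (e u).2 < n ∧ (e u).1 ≠ y ∧ (e u).2 ≠ y)
    (hdis : ∀ u ∈ N, ∀ v ∈ N, u ≠ v → (e u).1 ≠ (e v).1 ∧ (e u).1 ≠ (e v).2 ∧ (e u).2 ≠ (e v).1 ∧
      (e u).2 ≠ (e v).2)
    (hR : ∀ u ∈ N, R (e u).1 (e u).2)
    (hone : ∀ u ∈ N, ∀ v ∈ N, R (e u).1 (e v).1 → u = v)
    (hdet : (BM (P e) y V' N).det ≠ 0)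
    (hsame : ∀ i j, 0 < i → i < n → i ≠ y → 0 < j → j < n → j ≠ y → i < j → R i j →
      (∀ u ∈ N, i ≠ (e u).1 ∧ i ≠ (e u).2) → (∀ u ∈ N, j ≠ (e u).1 ∧ j ≠ (e u).2) →
      (∃ w ∈ V', w ∉ N ∧ e w = (i, j)) ∨ kap (P e) y N (i : ℚ) = kap (P e) y N (j : ℚ)) :
    ∃ (pr : ℕ → ℕ) (col : ℕ → ZMod 2), GoodPairing n y R pr col := by
  obtain ⟨pr, h1, h2, h3, h4, h5⟩ := hpr n y N e hy0 hyn hrange hdis
  -- the ends
  have hend : ∀ i, 0 < i → i < n → i ≠ y → pr i ≠ i → ∃ u ∈ N, (i = (e u).1 ∨ i = (e u).2) := by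
    intro i hi0 hin hiy hp
    by_contra hc
    push Not at hc
    exact hp (h5 i hi0 hin hiy hc)
  have hnend : ∀ i, pr i = i → ∀ u ∈ N, i ≠ (e u).1 ∧ i ≠ (e u).2 := by
    intro i hp u hu
    have := (hrange u hu).2.1
    refine ⟨?_, ?_⟩
    · rintro rfl
      rw [(h4 u hu).1] at hp
      omega
    · rintro rfl
      rw [(h4 u hu).2] at hp
      omega
  -- the sum over the ends
  have hsum : ∀ i, (∑ m ∈ N, ((if (e m).1 = i then (1 : ZMod 2) else 0) + if (e m).2 = i then 1 else 0)) =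
      if ∃ u ∈ N, (i = (e u).1 ∨ i = (e u).2) then 1 else 0 := by
    intro i
    by_cases hex : ∃ u ∈ N, (i = (e u).1 ∨ i = (e u).2)
    · rw [if_pos hex]
      obtain ⟨u, hu, hiu⟩ := hex
      rw [Finset.sum_eq_single_of_mem u hu]
      · have := (hrange u hu).2.1
        rcases hiu with rfl | rfl
        · rw [if_pos rfl, if_neg (by omega)]; rfl
        · rw [if_neg (by omega), if_pos rfl]; rfl
      · intro v hv hvu
        obtain ⟨a1, a2, a3, a4⟩ := hdis v hv u hu hvu
        rcases hiu with rfl | rfl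
        · rw [if_neg a1, if_neg a3]; rfl
        · rw [if_neg a2, if_neg a4]; rfl
    · rw [if_neg hex]
      push Not at hex
      refine Finset.sum_eq_zero fun v hv => ?_
      rw [if_neg (Ne.symm (hex v hv).1), if_neg (Ne.symm (hex v hv).2)]; rfl
  have hstep : ∀ i : ℕ, 0 < i → kap (P e) y N ((i : ℚ) + 1 / 2) = kap (P e) y N (((i - 1 : ℕ) : ℚ) + 1 / 2) +
      ((if y = i then 1 else 0) + if ∃ u ∈ N, (i = (e u).1 ∨ i = (e u).2) then 1 else 0) := by
    intro i hi
    unfold kap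
    rw [lt2_half y i hi, ← hsum i]
    have : ∀ m ∈ N, pt (P e m) ((i : ℚ) + 1 / 2) = pt (P e m) (((i - 1 : ℕ) : ℚ) + 1 / 2) +
        ((if (e m).1 = i then (1 : ZMod 2) else 0) + if (e m).2 = i then 1 else 0) := by
      intro m _
      unfold pt P
      rw [lt2_half _ i hi, lt2_half _ i hi]
      ring
    rw [Finset.sum_congr rfl this, Finset.sum_add_distrib]
    ring
  have hself : ∀ i : ℕ, i ≠ y → (∀ u ∈ N, i ≠ (e u).1 ∧ i ≠ (e u).2) →
      kap (P e) y N ((i : ℚ) + 1 / 2) = kap (P e) y N (i : ℚ) := by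
    intro i hiy hi
    unfold kap
    rw [lt2_self y i hiy]
    congr 1
    refine Finset.sum_congr rfl fun m hm => ?_
    unfold pt P
    rw [lt2_self _ i (hi m hm).1, lt2_self _ i (hi m hm).2]
  refine ⟨pr, fun i => kap (P e) y N ((i : ℚ) + 1 / 2), ?_⟩
  refine ⟨h1, h2, h3, ?_, ?_, ?_, ?_, ?_, ?_, ?_⟩
  · -- rel
    intro i hi0 hin hiy hp
    obtain ⟨u, hu, rfl | rfl⟩ := hend i hi0 hin hiy hp
    · rw [(h4 u hu).1]; exact hR u hu
    · rw [(h4 u hu).2]; exact hsymm _ _ (hR u hu)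
  · -- one
    intro i j hi0 hin hiy hj0 hjn hjy hpi hpj hRij
    obtain ⟨u, hu, hiu⟩ := hend i hi0 hin hiy hpi
    obtain ⟨v, hv, hjv⟩ := hend j hj0 hjn hjy hpj
    have a1 : R (e u).1 i := by
      rcases hiu with rfl | rfl
      · exact _hrefl _
      · exact hR u hu
    have a2 : R j (e v).1 := by
      rcases hjv with rfl | rfl
      · exact _hrefl _
      · exact hsymm _ _ (hR v hv)
    have huv := hone u hu v hv (htrans _ _ _ a1 (htrans _ _ _ hRij a2))
    subst huv
    rcases hiu with rfl | rfl <;> rcases hjv with rfl | rfl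
    · exact Or.inl rfl
    · exact Or.inr (h4 u hu).1.symm
    · exact Or.inr (h4 u hu).2.symm
    · exact Or.inl rfl
  · -- col0
    show kap (P e) y N (((0 : ℕ) : ℚ) + 1 / 2) = 1
    have a1 : ∀ p : ℕ, 0 < p → lt2 (p : ℚ) (((0 : ℕ) : ℚ) + 1 / 2) = 0 := by
      intro p hp
      have : (1 : ℚ) ≤ p := by exact_mod_cast hp
      unfold lt2
      rw [if_neg]
      push_cast
      linarith
    unfold kap
    rw [a1 y hy0, Finset.sum_eq_zero]
    · ring
    · intro m hm
      unfold pt P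
      rw [a1 _ (hrange m hm).1, a1 _ (lt_trans (hrange m hm).1 (hrange m hm).2.1)]
      ring
  · -- coln
    show kap (P e) y N (((n - 1 : ℕ) : ℚ) + 1 / 2) = 0
    have a1 : ∀ p : ℕ, p < n → lt2 (p : ℚ) (((n - 1 : ℕ) : ℚ) + 1 / 2) = 1 := by
      intro p hp
      have : (p : ℚ) ≤ ((n - 1 : ℕ) : ℚ) := by exact_mod_cast Nat.le_sub_one_of_lt hp
      unfold lt2
      rw [if_pos]
      linarith
    unfold kap
    rw [a1 y hyn, Finset.sum_eq_zero]
    · decide
    · intro m hm
      unfold pt P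
      rw [a1 _ (lt_trans (hrange m hm).2.1 (hrange m hm).2.2.1), a1 _ (hrange m hm).2.2.1]
      decide
  · -- flip
    intro i hi0 hin
    have hs := hstep i hi0
    by_cases hiy : i = y
    · subst hiy
      have hp0 : pr i = 0 := by rw [← h3, h2 0 (by omega)]
      have hne : ¬ ∃ u ∈ N, (i = (e u).1 ∨ i = (e u).2) := by
        rintro ⟨u, hu, h | h⟩
        · exact (hrange u hu).2.2.2.1 h.symm
        · exact (hrange u hu).2.2.2.2 h.symm
      rw [if_pos rfl, if_neg hne] at hs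
      exact ⟨fun h => by omega, fun _ => by rw [hs]; ring⟩
    · rw [if_neg (Ne.symm hiy)] at hs
      by_cases hex : ∃ u ∈ N, (i = (e u).1 ∨ i = (e u).2)
      · rw [if_pos hex] at hs
        refine ⟨fun h => ?_, fun _ => by rw [hs]; ring⟩
        obtain ⟨u, hu, h'⟩ := hex
        have := hnend i h u hu
        rcases h' with h' | h'
        · exact absurd h' this.1
        · exact absurd h' this.2
      · rw [if_neg hex] at hs
        refine ⟨fun _ => by rw [hs]; ring, fun h => absurd (hend i hi0 hin hiy h) hex⟩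
  · -- same
    have key : ∀ i j : ℕ, 0 < i → i < n → i ≠ y → 0 < j → j < n → j ≠ y → i < j → R i j → pr i = i → pr j = j →
        kap (P e) y N ((i : ℚ) + 1 / 2) = kap (P e) y N ((j : ℚ) + 1 / 2) := by
      intro i j hi0 hin hiy hj0 hjn hjy hij hRij hpi hpj
      rw [hself i hiy (hnend i hpi), hself j hjy (hnend j hpj)]
      rcases hsame i j hi0 hin hiy hj0 hjn hjy hij hRij (hnend i hpi) (hnend j hpj) with ⟨w, hw, hwN, hew⟩ | h
      · by_contra hc
        apply hdet
        refine Matrix.det_eq_zero_of_row_eq_zero w fun v => ?_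
        unfold BM
        by_cases hwv : w = v
        · rw [if_pos hwv, if_pos hw]
          by_contra h'
          have h'' := z2_eq _ _ h'
          unfold P at h''
          rw [hew] at h''
          exact hc h''
        · rw [if_neg hwv, if_neg (fun h => hwN h.1)]
      · exact h
    intro i j hi0 hin hiy hj0 hjn hjy hRij hpi hpj
    rcases lt_trichotomy i j with h | h | h
    · exact key i j hi0 hin hiy hj0 hjn hjy h hRij hpi hpj
    · subst h; rfl
    · exact (key j i hj0 hjn hjy hi0 hin hiy h (hsymm _ _ hRij) hpj hpi).symm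
  · -- conn
    intro s lam l1 l2
    refine hker n (P e) y V' N e hy0 hyn hN (fun u _ => rfl) hrange hdis hdet s _ lam (fun i _ => rfl) ?_ ?_ ?_
    · intro i hi0 hin hiy hi hcol
      exact l1 i hi0 hin (h5 i hi0 hin hiy hi) hcol
    · intro u hu
      have hu' := hrange u hu
      have := l2 (e u).1 (by omega) (by rw [(h4 u hu).1]; omega)
      rw [(h4 u hu).1] at this
      exact this
    · have := l2 0 (by omega) (by rw [h3]; omega)
      rw [h3] at this
      exact this

end Core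

open Core in
theorem I_Core (hgr : StGr) (hom : StOm) (hker : StKernel) (hpr : StPr) : StCore := by
  classical
  intro n y R hy0 hyn hrefl hsymm htrans hclass
  let I : ℕ → Prop := fun i => 0 < i ∧ i < n ∧ i ≠ y
  let Big : ℕ → Prop := fun i => I i ∧ ∃ b c, I b ∧ I c ∧ i ≠ b ∧ b ≠ c ∧ i ≠ c ∧ R i b ∧ R b c
  have bigR : ∀ i j, Big i → Big j → R i j := by
    rintro i j ⟨hi, b, c, hb, hc, h1, h2, h3, h4, h5⟩ ⟨hj, b', c', hb', hc', h1', h2', h3', h4', h5'⟩
    refine hclass i b c j b' c' ?_ h1 h2 h3 h1' h2' h3' h4 h5 h4' h5'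
    intro k hk
    simp only [Finset.mem_insert, Finset.mem_singleton] at hk
    rcases hk with rfl | rfl | rfl | rfl | rfl | rfl
    · exact hi
    · exact hb
    · exact hc
    · exact hj
    · exact hb'
    · exact hc'
  have bigmono : ∀ i j, Big i → I j → R i j → Big j := by
    rintro i j ⟨hi, b, c, hb, hc, h1, h2, h3, h4, h5⟩ hj hij
    by_cases hji : j = i
    · subst hji; exact ⟨hi, b, c, hb, hc, h1, h2, h3, h4, h5⟩
    by_cases hjb : j = b
    · subst hjb
      exact ⟨hj, i, c, hi, hc, hji, h3, h2, hsymm _ _ hij, htrans _ _ _ h4 h5⟩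
    · exact ⟨hj, i, b, hi, hb, hji, h1, hjb, hsymm _ _ hij, h4⟩
  have uniq : ∀ i, I i → ¬ Big i → ∀ j k, I j → I k → j ≠ i → k ≠ i → R i j → R i k → j = k := by
    intro i hi hnb j k hj hk hji hki hij hik
    by_contra hjk
    exact hnb ⟨hi, j, k, hj, hk, Ne.symm hji, hjk, Ne.symm hki, hij, htrans _ _ _ (hsymm _ _ hij) hik⟩
  let V : Finset (Fin n) := univ.filter fun p => I p ∧ ¬ Big p ∧ ∃ j, I j ∧ (p : ℕ) < j ∧ R p j
  have memV : ∀ p : Fin n, p ∈ V ↔ I p ∧ ¬ Big p ∧ ∃ j, I j ∧ (p : ℕ) < j ∧ R p j := by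
    intro p; simp [V]
  have hch : ∀ p : Fin n, ∃ j, p ∈ V → I j ∧ (p : ℕ) < j ∧ R p j := by
    intro p
    by_cases hp : p ∈ V
    · obtain ⟨-, -, j, hj⟩ := (memV p).1 hp
      exact ⟨j, fun _ => hj⟩
    · exact ⟨0, fun h => absurd h hp⟩
  choose q hq using hch
  let e : Fin n → ℕ × ℕ := fun p => ((p : ℕ), q p)
  have hVI : ∀ u ∈ V, I u := fun u hu => ((memV u).1 hu).1
  have hVB : ∀ u ∈ V, ¬ Big u := fun u hu => ((memV u).1 hu).2.1
  have hVqB : ∀ u ∈ V, ¬ Big (q u) := fun u hu hb =>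
    hVB u hu (bigmono _ _ hb (hVI u hu) (hsymm _ _ (hq u hu).2.2))
  have oneV : ∀ u ∈ V, ∀ v ∈ V, R u v → u = v := by
    intro u hu v hv huv
    by_contra hne
    have hne' : (u : ℕ) ≠ v := fun h => hne (Fin.ext h)
    have a1 := uniq u (hVI u hu) (hVB u hu) (q u) v (hq u hu).1 (hVI v hv) (by have := (hq u hu).2.1; omega)
      (Ne.symm hne') (hq u hu).2.2 huv
    have a2 := uniq v (hVI v hv) (hVB v hv) (q v) u (hq v hv).1 (hVI u hu) (by have := (hq v hv).2.1; omega)
      hne' (hq v hv).2.2 (hsymm _ _ huv)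
    have := (hq u hu).2.1
    have := (hq v hv).2.1
    omega
  have rangeV : ∀ u ∈ V, 0 < (e u).1 ∧ (e u).1 < (e u).2 ∧ (e u).2 < n ∧ (e u).1 ≠ y ∧ (e u).2 ≠ y := by
    intro u hu
    exact ⟨(hVI u hu).1, (hq u hu).2.1, (hq u hu).1.2.1, (hVI u hu).2.2, (hq u hu).1.2.2⟩
  have disV : ∀ u ∈ V, ∀ v ∈ V, u ≠ v → (e u).1 ≠ (e v).1 ∧ (e u).1 ≠ (e v).2 ∧ (e u).2 ≠ (e v).1 ∧
      (e u).2 ≠ (e v).2 := by
    intro u hu v hv huv
    refine ⟨fun h => huv (Fin.ext h), fun h => ?_, fun h => ?_, fun h => ?_⟩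
    · have a1 : R v (e v).2 := (hq v hv).2.2
      rw [← h] at a1
      exact huv (oneV u hu v hv (hsymm _ _ a1))
    · have a1 : R u (e u).2 := (hq u hu).2.2
      rw [h] at a1
      exact huv (oneV u hu v hv a1)
    · have a1 : R u (e u).2 := (hq u hu).2.2
      have a2 : R v (e v).2 := (hq v hv).2.2
      rw [h] at a1
      exact huv (oneV u hu v hv (htrans _ _ _ a1 (hsymm _ _ a2)))
  have sameV : ∀ i j, I i → I j → i < j → R i j → ¬ Big i → ∃ w ∈ V, e w = (i, j) := by
    intro i j hi hj hij hRij hnb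
    let w : Fin n := ⟨i, hi.2.1⟩
    have hw : w ∈ V := (memV w).2 ⟨hi, hnb, j, hj, hij, hRij⟩
    refine ⟨w, hw, ?_⟩
    have a1 := uniq i hi hnb (q w) j (hq w hw).1 hj (by have : (w : ℕ) < q w := (hq w hw).2.1; show q w ≠ (w : ℕ); omega)
      (by omega) (hq w hw).2.2 hRij
    exact Prod.ext rfl a1
  have castne : ∀ a b : ℕ, a ≠ b → (a : ℚ) ≠ b := fun a b h => by exact_mod_cast h
  -- general position
  have genV : ∀ Z : Finset ℚ, (∀ u ∈ V, (((u : ℕ) : ℚ)) ∉ Z ∧ ((q u : ℕ) : ℚ) ∉ Z) → Gen (P e) V Z := by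
    intro Z hZ
    refine ⟨fun u hu => ?_, fun u hu v hv huv => ?_, hZ⟩
    · exact castne _ _ (rangeV u hu).2.1.ne
    · obtain ⟨a1, a2, a3, a4⟩ := disV u hu v hv huv
      exact ⟨castne _ _ a1, castne _ _ a2, castne _ _ a3, castne _ _ a4⟩
  have ynot : ∀ u ∈ V, (((u : ℕ) : ℚ)) ≠ (y : ℚ) ∧ ((q u : ℕ) : ℚ) ≠ (y : ℚ) := fun u hu =>
    ⟨castne _ _ (rangeV u hu).2.2.2.1, castne _ _ (rangeV u hu).2.2.2.2⟩
  by_cases hbig : ∃ i, Big i
  swap
  · -- no big class
    push Not at hbig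
    have h1 := hgr (P e) V {(y : ℚ)} (Finset.singleton_nonempty _) (genV _ fun u hu => by
      simp only [Finset.mem_singleton]
      exact ynot u hu)
    have h2 : ∃ M ∈ V.powerset, (BM (P e) (y : ℚ) (V ∪ ∅) (M ∪ ∅)).det *
        allc (Finset.erase {(y : ℚ)} (y : ℚ)) (kap (P e) (y : ℚ) (M ∪ ∅)) ≠ 0 := by
      apply Finset.exists_ne_zero_of_sum_ne_zero
      have : Gr (P e) V {(y : ℚ)} = ∑ M ∈ V.powerset, (BM (P e) (y : ℚ) (V ∪ ∅) (M ∪ ∅)).det *
        allc (Finset.erase {(y : ℚ)} (y : ℚ)) (kap (P e) (y : ℚ) (M ∪ ∅)) := by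
        unfold Gr SS
        rw [Finset.sum_singleton]
      rw [← this, h1]
      exact one_ne_zero
    obtain ⟨M, hM, hdet⟩ := h2
    have hMV := Finset.mem_powerset.1 hM
    have hdet' := left_ne_zero_of_mul hdet
    rw [Finset.union_empty, Finset.union_empty] at hdet'
    refine Core.fin hker hpr y R hy0 hyn hrefl hsymm htrans e V M hMV (fun u hu => rangeV u (hMV hu))
      (fun u hu v hv => disV u (hMV hu) v (hMV hv)) (fun u hu => (hq u (hMV hu)).2.2)
      (fun u hu v hv => oneV u (hMV hu) v (hMV hv)) hdet' ?_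
    intro i j hi0 hin hiy hj0 hjn hjy hij hRij hni _
    obtain ⟨w, hw, hew⟩ := sameV i j ⟨hi0, hin, hiy⟩ ⟨hj0, hjn, hjy⟩ hij hRij (hbig i)
    refine Or.inl ⟨w, hw, fun hwM => (hni w hwM).1 ?_, hew⟩
    rw [hew]
  · -- the big class
    obtain ⟨i₀, hi₀⟩ := hbig
    let A : Finset ℚ := (univ.filter (fun p : Fin n => Big p)).image (fun p : Fin n => (((p : ℕ)) : ℚ))
    have memA : ∀ a, a ∈ A ↔ ∃ i : ℕ, Big i ∧ (i : ℚ) = a := by
      intro a
      simp only [A, Finset.mem_image, Finset.mem_filter, Finset.mem_univ, true_and]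
      constructor
      · rintro ⟨p, hp, rfl⟩
        exact ⟨p, hp, rfl⟩
      · rintro ⟨i, hi, rfl⟩
        exact ⟨⟨i, hi.1.2.1⟩, hi, rfl⟩
    have hAne : A.Nonempty := ⟨(i₀ : ℚ), (memA _).2 ⟨i₀, hi₀, rfl⟩⟩
    have hyA : (y : ℚ) ∉ A := by
      intro h
      obtain ⟨i, hi, hiy⟩ := (memA _).1 h
      exact hi.1.2.2 (by exact_mod_cast hiy)
    let g : Fin n := ⟨0, by omega⟩
    have hg : g ∉ V := fun h => by
      have := (hVI g h).1
      exact absurd this (lt_irrefl 0)
    have hgen : Gen (P e) V (insert (y : ℚ) A) := genV _ fun u hu => by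
      simp only [Finset.mem_insert, not_or]
      refine ⟨⟨(ynot u hu).1, fun h => ?_⟩, ⟨(ynot u hu).2, fun h => ?_⟩⟩
      · obtain ⟨i, hi, hiu⟩ := (memA _).1 h
        have : i = (u : ℕ) := by exact_mod_cast hiu
        exact hVB u hu (this ▸ hi)
      · obtain ⟨i, hi, hiu⟩ := (memA _).1 h
        have : i = q u := by exact_mod_cast hiu
        exact hVqB u hu (this ▸ hi)
    have hOm := hom (P e) (y : ℚ) V g A hg hAne hyA hgen
    unfold Om at hOm
    by_cases hS : SS (P e) (y : ℚ) V ∅ (mono A) = 0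
    · -- a pair of the big class is used
      rw [hS, zero_add] at hOm
      obtain ⟨p, hp, hne⟩ := Finset.exists_ne_zero_of_sum_ne_zero (by rw [hOm]; exact one_ne_zero)
      unfold pairs at hp
      rw [Finset.mem_filter, Finset.mem_product] at hp
      obtain ⟨⟨hp1, hp2⟩, hp3⟩ := hp
      obtain ⟨r, hr, hrp⟩ := (memA _).1 hp1
      obtain ⟨s, hs, hsp⟩ := (memA _).1 hp2
      have hrs : r < s := by
        rw [← hrp, ← hsp] at hp3
        exact_mod_cast hp3
      let e' : Fin n → ℕ × ℕ := Function.update e g (r, s)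
      have hPe : Function.update (P e) g p = P e' := by
        funext u
        by_cases hu : u = g
        · subst hu
          rw [Function.update_self]
          show p = (((e' g).1 : ℚ), ((e' g).2 : ℚ))
          simp only [e', Function.update_self]
          rw [hrp, hsp]
        · rw [Function.update_of_ne hu]
          show _ = (((e' u).1 : ℚ), ((e' u).2 : ℚ))
          simp only [e', Function.update_of_ne hu]
          rfl
      rw [hPe] at hne
      unfold SS at hne
      obtain ⟨M, hM, hne'⟩ := Finset.exists_ne_zero_of_sum_ne_zero hne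
      have hMV := Finset.mem_powerset.1 hM
      have hdet := left_ne_zero_of_mul hne'
      have hall := right_ne_zero_of_mul hne'
      have he'g : e' g = (r, s) := by simp [e']
      have he'u : ∀ u ∈ V, e' u = e u := by
        intro u hu
        have : u ≠ g := fun h => hg (h ▸ hu)
        simp only [e', Function.update_of_ne this]
      have hmem : ∀ u, u ∈ M ∪ {g} ↔ u ∈ M ∨ u = g := by
        intro u; rw [Finset.mem_union, Finset.mem_singleton]
      have rI := hr.1
      have sI := hs.1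
      have hRr : ∀ u ∈ V, ¬ R r (e u).1 := fun u hu h =>
        hVB u hu (bigmono r _ hr (hVI u hu) h)
      have hRrs := bigR r s hr hs
      refine Core.fin hker hpr y R hy0 hyn hrefl hsymm htrans e' (V ∪ {g}) (M ∪ {g})
        (Finset.union_subset_union hMV (Finset.Subset.refl _)) ?_ ?_ ?_ ?_ hdet ?_
      · intro u hu
        rcases (hmem u).1 hu with hu | rfl
        · rw [he'u u (hMV hu)]; exact rangeV u (hMV hu)
        · rw [he'g]; exact ⟨rI.1, hrs, sI.2.1, rI.2.2, sI.2.2⟩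
      · have hgu : ∀ u ∈ V, r ≠ (e u).1 ∧ r ≠ (e u).2 ∧ s ≠ (e u).1 ∧ s ≠ (e u).2 := by
          intro u hu
          refine ⟨fun h => hVB u hu (show Big (e u).1 from h ▸ hr), fun h => hVqB u hu (show Big (e u).2 from h ▸ hr),
            fun h => hVB u hu (show Big (e u).1 from h ▸ hs), fun h => hVqB u hu (show Big (e u).2 from h ▸ hs)⟩
        intro u hu v hv huv
        rcases (hmem u).1 hu with hu | rfl <;> rcases (hmem v).1 hv with hv | rfl
        · rw [he'u u (hMV hu), he'u v (hMV hv)]; exact disV u (hMV hu) v (hMV hv) huv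
        · rw [he'u u (hMV hu), he'g]
          obtain ⟨a1, a2, a3, a4⟩ := hgu u (hMV hu)
          exact ⟨a1.symm, a3.symm, a2.symm, a4.symm⟩
        · rw [he'u v (hMV hv), he'g]
          obtain ⟨a1, a2, a3, a4⟩ := hgu v (hMV hv)
          exact ⟨a1, a2, a3, a4⟩
        · exact absurd rfl huv
      · intro u hu
        rcases (hmem u).1 hu with hu | rfl
        · rw [he'u u (hMV hu)]; exact (hq u (hMV hu)).2.2
        · rw [he'g]; exact hRrs
      · intro u hu v hv
        rcases (hmem u).1 hu with hu | rfl <;> rcases (hmem v).1 hv with hv | rfl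
        · rw [he'u u (hMV hu), he'u v (hMV hv)]; exact oneV u (hMV hu) v (hMV hv)
        · rw [he'u u (hMV hu), he'g]
          intro h
          exact absurd (hsymm _ _ h) (hRr u (hMV hu))
        · rw [he'u v (hMV hv), he'g]
          intro h
          exact absurd h (hRr v (hMV hv))
        · intro _; rfl
      · intro i j hi0 hin hiy hj0 hjn hjy hij hRij hni hnj
        by_cases hbi : Big i
        · right
          have hbj : Big j := bigmono i j hbi ⟨hj0, hjn, hjy⟩ hRij
          have hone : ∀ k, Big k → k ≠ r → k ≠ s → kap (P e') (y : ℚ) (M ∪ {g}) (k : ℚ) = 1 := by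
            intro k hk hkr hks
            apply z2_one
            unfold allc at hall
            refine Finset.prod_ne_zero_iff.1 hall (k : ℚ) ?_
            rw [Finset.mem_erase, Finset.mem_erase, ← hrp, ← hsp]
            exact ⟨castne _ _ hks, castne _ _ hkr, (memA _).2 ⟨k, hk, rfl⟩⟩
          have hgm : g ∈ M ∪ {g} := (hmem g).2 (Or.inr rfl)
          have a1 := hni g hgm
          have a2 := hnj g hgm
          rw [he'g] at a1 a2
          rw [hone i hbi a1.1 a1.2, hone j hbj a2.1 a2.2]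
        · left
          obtain ⟨w, hw, hew⟩ := sameV i j ⟨hi0, hin, hiy⟩ ⟨hj0, hjn, hjy⟩ hij hRij hbi
          refine ⟨w, Finset.mem_union_left _ hw, fun hwM => ?_, by rw [he'u w hw, hew]⟩
          apply (hni w hwM).1
          rw [he'u w hw, hew]
    · -- no pair of the big class
      unfold SS at hS
      obtain ⟨M, hM, hne⟩ := Finset.exists_ne_zero_of_sum_ne_zero hS
      have hMV := Finset.mem_powerset.1 hM
      have hdet := left_ne_zero_of_mul hne
      have hmono := right_ne_zero_of_mul hne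
      rw [Finset.union_empty] at hdet hmono
      rw [Finset.union_empty] at hdet
      refine Core.fin hker hpr y R hy0 hyn hrefl hsymm htrans e V M hMV (fun u hu => rangeV u (hMV hu))
        (fun u hu v hv => disV u (hMV hu) v (hMV hv)) (fun u hu => (hq u (hMV hu)).2.2)
        (fun u hu v hv => oneV u (hMV hu) v (hMV hv)) hdet ?_
      intro i j hi0 hin hiy hj0 hjn hjy hij hRij hni _
      by_cases hbi : Big i
      · right
        have hbj : Big j := bigmono i j hbi ⟨hj0, hjn, hjy⟩ hRij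
        have hiA := (memA _).2 ⟨i, hbi, rfl⟩
        have hjA := (memA _).2 ⟨j, hbj, rfl⟩
        by_contra hc
        apply hmono
        unfold mono
        have two : (1 : ZMod 2) + 1 = 0 := by decide
        rcases z2_01 _ _ hc with ⟨h0, h1⟩ | ⟨h1, h0⟩
        · rw [Finset.prod_eq_zero hiA h0, Finset.prod_eq_zero hjA (by rw [h1]; exact two), add_zero]
        · rw [Finset.prod_eq_zero hjA h0, Finset.prod_eq_zero hiA (by rw [h1]; exact two), add_zero]
      · left
        obtain ⟨w, hw, hew⟩ := sameV i j ⟨hi0, hin, hiy⟩ ⟨hj0, hjn, hjy⟩ hij hRij hbi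
        refine ⟨w, hw, fun hwM => (hni w hwM).1 ?_, hew⟩
        rw [hew]

end Pool.Agent.Work.MP_7794fd_co.R
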