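import Pool.Agent.Work.MP_7794fd_co.R.Stmts

/-! MP_7794fd_co, module R: the relation to lie in the same bridge. -/

set_option autoImplicit false

namespace Pool.Agent.Work.MP_7794fd_co.R

open Finset Matrix

set_option linter.unusedSectionVars false

namespace Equiv

variable {V E : Type} [Fintype V] [DecidableEq V] [Fintype E] [DecidableEq E] (G : MG V E)

theorem reach_symm {W : Set V} {X : Finset E} {u v : V} (h : Reach G W X u v) :
    Reach G W X v u := by
  induction h with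
  | refl => exact Relation.ReflTransGen.refl
  | tail _ hs ih =>
    obtain ⟨h1, h2, e, he, hab⟩ := hs
    exact (Relation.ReflTransGen.single ⟨h2, h1, e, he, by
      rw [hab, Sym2.eq_swap]⟩).trans ih

theorem reach_mem {W : Set V} {X : Finset E} {u v : V} (h : Reach G W X u v) (hu : u ∈ W) :
    v ∈ W := by
  induction h with
  | refl => exact hu
  | tail _ hs _ => exact hs.2.1

/-- two edges outside `C` at a vertex of `C` are equal -/
theorem third {C : Finset E} (hG : Cubic G) (hC : IsCircuit G C) {w : V} (hw : w ∈ verts G C)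
    {e e' : E} (he : e ∉ C) (he' : e' ∉ C) (h1 : w ∈ G.ends e) (h2 : w ∈ G.ends e') : e = e' := by
  by_contra hne
  obtain ⟨f, hf, hwf⟩ := hw
  have hpos : 0 < deg G C w := Finset.card_pos.2 ⟨f, Finset.mem_filter.2 ⟨hf, hwf⟩⟩
  have h22 : deg G C w = 2 := by
    rcases hC.deg w with h | h
    · omega
    · exact h
  have h33 := hG w
  unfold deg at h22 h33
  have hsub : insert e (insert e' (C.filter (fun e => w ∈ G.ends e))) ⊆
      Finset.univ.filter (fun e => w ∈ G.ends e) := by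
    intro a ha
    simp only [Finset.mem_insert, Finset.mem_filter] at ha
    simp only [Finset.mem_filter, Finset.mem_univ, true_and]
    rcases ha with rfl | rfl | ⟨_, ha⟩
    · exact h1
    · exact h2
    · exact ha
  have hcard := Finset.card_le_card hsub
  rw [Finset.card_insert_of_notMem, Finset.card_insert_of_notMem, h22, h33] at hcard
  · omega
  · simp [he']
  · simp [hne, he]

theorem verts_mono {C P : Finset E} {v : V} (h : v ∈ verts G C) : v ∈ verts G (C ∪ P) := by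
  obtain ⟨e, he, hv⟩ := h
  exact ⟨e, Finset.mem_union_left _ he, hv⟩

/-- the edge which realises an attachment -/
theorem att_edge {C P : Finset E} {u w : V} (hu : u ∉ verts G (C ∪ P)) (h : w ∈ att G C P u) :
    ∃ q e, Reach G (verts G (C ∪ P))ᶜ Finset.univ u q ∧ G.ends e = s(q, w) ∧
      q ∉ verts G (C ∪ P) ∧ e ∉ C := by
  obtain ⟨_, q, hq, e, he⟩ := h
  have hq' : q ∉ verts G (C ∪ P) := reach_mem G hq hu
  refine ⟨q, e, hq, he, hq', ?_⟩
  intro heC
  apply hq'
  exact ⟨e, Finset.mem_union_left _ heC, by rw [he]; simp⟩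

theorem att_att {C P : Finset E} (hG : Cubic G) (hC : IsCircuit G C) {u₁ u₂ v w : V}
    (h₁ : u₁ ∉ verts G (C ∪ P)) (h₂ : u₂ ∉ verts G (C ∪ P))
    (hv : v ∈ att G C P u₁) (hw₁ : w ∈ att G C P u₁) (hw₂ : w ∈ att G C P u₂) :
    v ∈ att G C P u₂ := by
  obtain ⟨q₁, e₁, r₁, d₁, n₁, c₁⟩ := att_edge G h₁ hw₁
  obtain ⟨q₂, e₂, r₂, d₂, n₂, c₂⟩ := att_edge G h₂ hw₂
  have he : e₁ = e₂ := third G hG hC hw₁.1 c₁ c₂ (by rw [d₁]; simp) (by rw [d₂]; simp)
  have hq : q₁ = q₂ := by
    rw [← he, d₁] at d₂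
    rcases Sym2.eq_iff.1 d₂ with h | h
    · exact h.1
    · rw [h.1, h.2]
  obtain ⟨hvC, p, rp, e, hep⟩ := hv
  refine ⟨hvC, p, ?_, e, hep⟩
  exact (r₂.trans (by rw [← hq]; exact reach_symm G r₁)).trans rp

/-- a chord and a component have no common attachment -/
theorem chord_att {C P : Finset E} (hG : Cubic G) (hC : IsCircuit G C) {u v w : V} {e : E}
    (hu : u ∉ verts G (C ∪ P)) (hv : v ∈ verts G C) (he : e ∉ C) (hd : G.ends e = s(v, w))
    (hw : w ∈ att G C P u) : False := by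
  obtain ⟨q, e', r, d, n, c⟩ := att_edge G hu hw
  have hee : e = e' := third G hG hC hw.1 he c (by rw [hd]; simp) (by rw [d]; simp)
  rw [← hee, hd] at d
  rcases Sym2.eq_iff.1 d with h | h
  · exact n (h.1 ▸ verts_mono G hv)
  · exact n (h.2 ▸ verts_mono G hw.1)

/-- two chords at the same vertex are equal -/
theorem chord_chord {C : Finset E} (hG : Cubic G) (hC : IsCircuit G C) {v w z : V} {e e' : E}
    (hw : w ∈ verts G C) (he : e ∉ C) (he' : e' ∉ C) (hd : G.ends e = s(v, w))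
    (hd' : G.ends e' = s(w, z)) : v = z := by
  have hee : e = e' := third G hG hC hw he he' (by rw [hd]; simp) (by rw [hd']; simp)
  rw [← hee, hd] at hd'
  rcases Sym2.eq_iff.1 hd' with h | h
  · rw [h.1, h.2]
  · exact h.1

end Equiv

open Pool.Agent.Work.MP_7794fd_co.R.Equiv in
theorem I_Equiv : StEquiv := by
  intro V E _ _ _ _ G C P x y hG hC hP
  refine ⟨?_, ?_, ?_⟩
  · rintro v w (h | ⟨e, h1, h2, h3⟩ | ⟨u, h1, h2, h3⟩)
    · exact Or.inl h.symm
    · exact Or.inr (Or.inl ⟨e, h1, h2, by rw [h3, Sym2.eq_swap]⟩)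
    · exact Or.inr (Or.inr ⟨u, h1, h3, h2⟩)
  · rintro v w z hv hw hz (rfl | ⟨e, h1, h2, h3⟩ | ⟨u, h1, h2, h3⟩)
      h'
    · exact h'
    · rcases h' with rfl | ⟨e', k1, k2, k3⟩ | ⟨u', k1, k2, k3⟩
      · exact Or.inr (Or.inl ⟨e, h1, h2, h3⟩)
      · exact Or.inl (chord_chord G hG hC hw h1 k1 h3 k3)
      · exact (chord_att G hG hC k1 hv h1 h3 k2).elim
    · rcases h' with rfl | ⟨e', k1, k2, k3⟩ | ⟨u', k1, k2, k3⟩
      · exact Or.inr (Or.inr ⟨u, h1, h2, h3⟩)
      · exact (chord_att G hG hC h1 hz k1 (by rw [k3, Sym2.eq_swap]) h3).elim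
      · exact Or.inr (Or.inr ⟨u', k1, att_att G hG hC h1 k1 h2 h3 k2, k3⟩)
  · rintro v hv w hw z hz hvw hwz hvz (rfl | ⟨e, h1, h2, h3⟩ | ⟨u, h1, h2, h3⟩) h'
    · exact absurd rfl hvw
    · rcases h' with rfl | ⟨e', k1, k2, k3⟩ | ⟨u', k1, k2, k3⟩
      · exact absurd rfl hwz
      · exact absurd (chord_chord G hG hC hw h1 k1 h3 k3) hvz
      · exact (chord_att G hG hC k1 hv h1 h3 k2).elim
    · rcases h' with rfl | ⟨e', k1, k2, k3⟩ | ⟨u', k1, k2, k3⟩
      · exact absurd rfl hwz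
      · exact (chord_att G hG hC h1 hz k1 (by rw [k3, Sym2.eq_swap]) h3).elim
      · exact ⟨u', k1, att_att G hG hC h1 k1 h2 h3 k2, k2, k3⟩

end Pool.Agent.Work.MP_7794fd_co.R
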