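import Pool.Agent.Work.MP_7794fd_co.R.Stmts

/-! Project MP_7794fd_co, module R, item Gr: the sum over the second end of the root chord. -/

set_option autoImplicit false
set_option linter.unusedSectionVars false

namespace Pool.Agent.Work.MP_7794fd_co.R

open Finset Matrix

namespace Gr

theorem two_eq {a b : ZMod 2} (h : a + b = 0) : a = b := CharTwo.add_eq_zero.mp h

theorem self_add (a : ZMod 2) : a + a = 0 := CharTwo.add_self_eq_zero a

/-- the next point of `A` which is moved, and the end it moves over -/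
theorem geo (E A : Finset ℚ) (hdis : ∀ a ∈ A, a ∉ E) (hpot : ∃ a ∈ A, ∃ e ∈ E, e < a) :
    ∃ c ∈ A, ∃ p ∈ E, ∃ c', c' < p ∧ p < c ∧ (∀ a ∈ A, a ≠ c → Away c' c a) ∧
      (∀ e ∈ E, e ≠ p → Away c' c e) := by
  classical
  obtain ⟨a0, ha0, e0, he0, hlt0⟩ := hpot
  let A1 := A.filter (fun a => ∃ e ∈ E, e < a)
  have hA1 : A1.Nonempty := ⟨a0, Finset.mem_filter.mpr ⟨ha0, e0, he0, hlt0⟩⟩
  let c := A1.min' hA1
  have hc : c ∈ A1 := A1.min'_mem hA1
  obtain ⟨hcA, e1, he1, hlt1⟩ := Finset.mem_filter.mp hc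
  let E1 := E.filter (fun e => e < c)
  have hE1 : E1.Nonempty := ⟨e1, Finset.mem_filter.mpr ⟨he1, hlt1⟩⟩
  let p := E1.max' hE1
  have hp : p ∈ E1 := E1.max'_mem hE1
  obtain ⟨hpE, hpc⟩ := Finset.mem_filter.mp hp
  obtain ⟨c', h1, h2⟩ := Order.exists_between_finsets ((E ∪ A).filter (fun e => e < p)) {p}
    (by
      intro x hx y hy
      rw [Finset.mem_singleton] at hy
      rw [hy]; exact (Finset.mem_filter.mp hx).2)
  have h2' : c' < p := h2 p (Finset.mem_singleton_self p)
  refine ⟨c, hcA, p, hpE, c', h2', hpc, ?_, ?_⟩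
  · intro a ha hac
    rcases lt_trichotomy a p with h | h | h
    · exact Or.inl (h1 a (Finset.mem_filter.mpr ⟨Finset.mem_union_right _ ha, h⟩))
    · exact absurd (h ▸ hpE) (hdis a ha)
    · right
      have h3 : a ∈ A1 := Finset.mem_filter.mpr ⟨ha, p, hpE, h⟩
      exact lt_of_le_of_ne (A1.min'_le a h3) (Ne.symm hac)
  · intro e he hep
    rcases lt_trichotomy e p with h | h | h
    · exact Or.inl (h1 e (Finset.mem_filter.mpr ⟨Finset.mem_union_left _ he, h⟩))
    · exact absurd h hep
    · right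
      by_contra hcon
      have h3 : e ≠ c := fun h' => hdis c hcA (h' ▸ he)
      have h4 : e < c := lt_of_le_of_ne (not_lt.mp hcon) h3
      have h5 : e ∈ E1 := Finset.mem_filter.mpr ⟨he, h4⟩
      exact absurd (E1.le_max' e h5) (not_le.mpr h)

/-- the potential -/
def pot (E A : Finset ℚ) : ℕ := ∑ a ∈ A, (E.filter (fun e => e < a)).card

theorem pot_lt {E B : Finset ℚ} {c c' p : ℚ} (hc : c ∉ B) (hc' : c' ∉ B) (hp : p ∈ E)
    (h1 : c' < p) (h2 : p < c) : pot E (insert c' B) < pot E (insert c B) := by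
  unfold pot
  rw [Finset.sum_insert hc, Finset.sum_insert hc']
  refine Nat.add_lt_add_right (Finset.card_lt_card ?_) _
  rw [Finset.ssubset_iff_of_subset]
  · exact ⟨p, Finset.mem_filter.mpr ⟨hp, h2⟩, fun h => by
      have := (Finset.mem_filter.mp h).2
      exact absurd h1 (not_lt.mpr this.le)⟩
  · intro e he
    obtain ⟨h3, h4⟩ := Finset.mem_filter.mp he
    exact Finset.mem_filter.mpr ⟨h3, h4.trans (h1.trans h2)⟩

theorem lt2_away {c' c z p : ℚ} (h : Away c' c z) (h1 : c' < p) (h2 : p ≤ c) :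
    lt2 z p = lt2 z c := by
  rcases h with h | h
  · rw [lt2, lt2, if_pos (h.trans h1), if_pos (h.trans (h1.trans_le h2))]
  · rw [lt2, lt2, if_neg (not_lt.mpr (h2.trans h.le)), if_neg (not_lt.mpr h.le)]

section

variable {ι : Type} [Fintype ι] [DecidableEq ι]

/-- the ends of the chords of `V` -/
def ends (pos : ι → ℚ × ℚ) (V : Finset ι) : Finset ℚ :=
  V.image (fun u => (pos u).1) ∪ V.image (fun u => (pos u).2)

theorem mem_ends1 {pos : ι → ℚ × ℚ} {V : Finset ι} {u : ι} (h : u ∈ V) :
    (pos u).1 ∈ ends pos V :=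
  Finset.mem_union_left _ (Finset.mem_image_of_mem (fun u => (pos u).1) h)

theorem mem_ends2 {pos : ι → ℚ × ℚ} {V : Finset ι} {u : ι} (h : u ∈ V) :
    (pos u).2 ∈ ends pos V :=
  Finset.mem_union_right _ (Finset.mem_image_of_mem (fun u => (pos u).2) h)

theorem mem_ends {pos : ι → ℚ × ℚ} {V : Finset ι} {p : ℚ} (h : p ∈ ends pos V) :
    ∃ u ∈ V, ∃ q, EndsOf pos u p q := by
  rcases Finset.mem_union.mp h with h | h
  · obtain ⟨u, hu, rfl⟩ := Finset.mem_image.mp h
    exact ⟨u, hu, (pos u).2, Or.inl rfl⟩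
  · obtain ⟨u, hu, rfl⟩ := Finset.mem_image.mp h
    exact ⟨u, hu, (pos u).1, Or.inr rfl⟩

theorem gen_mono {pos : ι → ℚ × ℚ} {V V' : Finset ι} {Z Z' : Finset ℚ} (h : Gen pos V Z)
    (hV : V' ⊆ V) (hZ : ∀ u ∈ V', (pos u).1 ∉ Z' ∧ (pos u).2 ∉ Z') : Gen pos V' Z' :=
  ⟨fun u hu => h.ne u (hV hu), fun u hu v hv => h.dis u (hV hu) v (hV hv), hZ⟩

theorem not_mem_of_ends {pos : ι → ℚ × ℚ} {V : Finset ι} {Z : Finset ℚ} (h : Gen pos V Z)
    {a : ℚ} (ha : a ∈ Z) : a ∉ ends pos V := by
  intro h'
  rcases Finset.mem_union.mp h' with h'' | h''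
  · obtain ⟨u, hu, rfl⟩ := Finset.mem_image.mp h''
    exact (h.out u hu).1 ha
  · obtain ⟨u, hu, rfl⟩ := Finset.mem_image.mp h''
    exact (h.out u hu).2 ha

/-- colours only see the chords -/
theorem kap_congr (pos : ι → ℚ × ℚ) (y : ℚ) (M : Finset ι) {c' c p : ℚ} (h1 : c' < p)
    (h2 : p ≤ c) (hy : Away c' c y) (hM : ∀ w ∈ M, Away c' c (pos w).1 ∧ Away c' c (pos w).2) :
    kap pos y M p = kap pos y M c := by
  unfold kap
  rw [lt2_away hy h1 h2]
  congr 1
  refine Finset.sum_congr rfl fun w hw => ?_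
  rw [pt, pt, lt2_away (hM w hw).1 h1 h2, lt2_away (hM w hw).2 h1 h2]

theorem SS_congr (pos : ι → ℚ × ℚ) (y : ℚ) (V W : Finset ι) (h h' : (ℚ → ZMod 2) → ZMod 2)
    (hh : ∀ M ∈ V.powerset, h (kap pos y (M ∪ W)) = h' (kap pos y (M ∪ W))) :
    SS pos y V W h = SS pos y V W h' := by
  unfold SS
  exact Finset.sum_congr rfl fun M hM => by rw [hh M hM]

theorem allc_insert {B : Finset ℚ} {z : ℚ} (hz : z ∉ B) (k : ℚ → ZMod 2) :
    allc (insert z B) k = k z * allc B k := by
  unfold allc; rw [Finset.prod_insert hz]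

theorem Gr_insert (pos : ι → ℚ × ℚ) (V : Finset ι) {B : Finset ℚ} {z : ℚ} (hz : z ∉ B) :
    Gr pos V (insert z B) = SS pos z V ∅ (allc B) +
      ∑ r ∈ B, SS pos r V ∅ (fun k => k z * allc (B.erase r) k) := by
  unfold R.Gr
  rw [Finset.sum_insert hz, Finset.erase_insert hz]
  congr 1
  refine Finset.sum_congr rfl fun r hr => ?_
  have hrz : r ≠ z := fun h => hz (h ▸ hr)
  rw [Finset.erase_insert_of_ne hrz.symm]
  refine SS_congr pos r V ∅ _ _ fun M _ => ?_
  exact allc_insert (fun h => hz (Finset.mem_of_mem_erase h)) _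

theorem allc_indep {B : Finset ℚ} {c' c : ℚ} (h : ∀ a ∈ B, Away c' c a) :
    Indep c' c (allc B) := by
  intro k1 k2 hk
  exact Finset.prod_congr rfl fun a ha => hk a (h a ha)

theorem step (hsplit : StSplit) (hlin : StLin) (hpoint : StPoint) (hroot : StRoot)
    (pos : ι → ℚ × ℚ) (V : Finset ι) (B : Finset ℚ) (u : ι) (c' c p q : ℚ)
    (hu : u ∈ V) (hpq : EndsOf pos u p q) (h1 : c' < p) (h2 : p < c) (hq : Away c' c q)
    (hV : ∀ w ∈ V, w ≠ u → Away c' c (pos w).1 ∧ Away c' c (pos w).2)
    (hB : ∀ a ∈ B, Away c' c a) (hcB : c ∉ B) (hc'B : c' ∉ B) (hqB : q ∉ B) :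
    Gr pos V (insert c B) + Gr pos V (insert c' B) =
      (Gr pos V B + Gr pos (V.erase u) B) +
      (Gr pos (V.erase u) (insert c B) + Gr pos (V.erase u) (insert q B)) := by
  rw [Gr_insert pos V hcB, Gr_insert pos V hc'B, Gr_insert pos _ hcB, Gr_insert pos _ hqB]
  have e1 := hroot pos V u c' c p q (allc B) hu hpq h1 h2 hq hV (allc_indep hB)
  have e2 : ∀ r ∈ B, SS pos r V ∅ (fun k => k c * allc (B.erase r) k) +
      SS pos r V ∅ (fun k => k c' * allc (B.erase r) k) =
      SS pos r V ∅ (allc (B.erase r)) + (SS pos r (V.erase u) ∅ (allc (B.erase r)) +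
        (SS pos r (V.erase u) ∅ (fun k => k c * allc (B.erase r) k) +
          SS pos r (V.erase u) ∅ (fun k => k q * allc (B.erase r) k))) := by
    intro r hr
    have f1 := hlin pos r V ∅ (fun k => k c * allc (B.erase r) k)
      (fun k => k c' * allc (B.erase r) k) (fun k => (k c + k c') * allc (B.erase r) k)
      (fun M _ => by ring)
    rw [← f1]
    have f2 := hpoint pos r V ∅ u c' c p q (allc (B.erase r)) hu (Finset.disjoint_empty_right _)
      hpq h1 h2 hq (hB r hr) (fun w hw hwu => hV w (by simpa using hw) hwu)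
    rw [f2]
    have f3 := hsplit pos r V ∅ u (allc (B.erase r)) hu (Finset.disjoint_empty_right _)
    have f4 : SS pos r (V.erase u) ∅ (fun κ => (1 + κ (pos u).1 + κ (pos u).2) *
        allc (B.erase r) κ) = SS pos r (V.erase u) ∅ (allc (B.erase r)) +
        SS pos r (V.erase u) ∅ (fun k => k c * allc (B.erase r) k + k q * allc (B.erase r) k) := by
      refine hlin pos r (V.erase u) ∅ _ _ _ fun M hM => ?_
      have g1 : kap pos r (M ∪ ∅) p = kap pos r (M ∪ ∅) c := by
        refine kap_congr pos r (M ∪ ∅) h1 h2.le (hB r hr) fun w hw => ?_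
        rw [Finset.union_empty] at hw
        have hw' := Finset.mem_powerset.mp hM hw
        exact hV w (Finset.mem_of_mem_erase hw') (Finset.ne_of_mem_erase hw')
      rw [← g1]
      rcases hpq with hpq | hpq
      · rw [hpq]; ring
      · rw [hpq]; ring
    have f5 := hlin pos r (V.erase u) ∅ (fun k => k c * allc (B.erase r) k)
      (fun k => k q * allc (B.erase r) k)
      (fun k => k c * allc (B.erase r) k + k q * allc (B.erase r) k) (fun M _ => rfl)
    rw [f4, f5] at f3
    rw [f3]
    generalize SS pos r (V.erase u) (insert u ∅) (allc (B.erase r)) = X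
    generalize SS pos r (V.erase u) ∅ (allc (B.erase r)) +
      (SS pos r (V.erase u) ∅ (fun k => k c * allc (B.erase r) k) +
        SS pos r (V.erase u) ∅ (fun k => k q * allc (B.erase r) k)) = Y
    rw [add_assoc, self_add, add_zero]
  have e3 : ∑ r ∈ B, SS pos r V ∅ (fun k => k c * allc (B.erase r) k) +
      ∑ r ∈ B, SS pos r V ∅ (fun k => k c' * allc (B.erase r) k) =
      Gr pos V B + (Gr pos (V.erase u) B +
        (∑ r ∈ B, SS pos r (V.erase u) ∅ (fun k => k c * allc (B.erase r) k) +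
          ∑ r ∈ B, SS pos r (V.erase u) ∅ (fun k => k q * allc (B.erase r) k))) := by
    unfold R.Gr
    rw [← Finset.sum_add_distrib, ← Finset.sum_add_distrib, ← Finset.sum_add_distrib,
      ← Finset.sum_add_distrib]
    exact Finset.sum_congr rfl e2
  have e4 : ∀ a b c d : ZMod 2, (a + b) + (c + d) = (a + c) + (b + d) := fun a b c d => by ring
  rw [e4, e1, e3]
  ring

theorem base (hbase : StBase) (pos : ι → ℚ × ℚ) (V : Finset ι) (A : Finset ℚ)
    (hA : A.Nonempty) (hG : Gen pos V A)
    (h : ∀ a ∈ A, ∀ w ∈ V, a < (pos w).1 ∧ a < (pos w).2) : Gr pos V A = 1 := by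
  have hG0 : Gen pos V ∅ := gen_mono hG subset_rfl fun u _ => by simp
  unfold R.Gr
  rw [Finset.sum_eq_single (A.max' hA)]
  · rw [hbase pos _ V _ hG0 (fun w hw => h _ (A.max'_mem hA) w hw)]
    unfold allc
    refine Finset.prod_eq_one fun z hz => ?_
    have h1 : ¬ A.max' hA < z := not_lt.mpr (A.le_max' z (Finset.mem_of_mem_erase hz))
    rw [kap, lt2, if_neg h1]; simp
  · intro r hr hne
    rw [hbase pos _ V _ hG0 (fun w hw => h _ hr w hw)]
    unfold allc
    refine Finset.prod_eq_zero (i := A.max' hA) (Finset.mem_erase.mpr ⟨hne.symm,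
      A.max'_mem hA⟩) ?_
    have h1 : r < A.max' hA := lt_of_le_of_ne (A.le_max' r hr) hne
    rw [kap, lt2, if_pos h1, Finset.sum_empty, add_zero]
    exact self_add 1
  · intro h'
    exact absurd (A.max'_mem hA) h'

end

end Gr

open Gr in
theorem I_Gr (hsplit : StSplit) (hlin : StLin) (hpoint : StPoint) (hroot : StRoot)
    (hbase : StBase) : StGr := by
  intro ι _ _ pos
  have main : ∀ (N1 N2 N3 : ℕ) (V : Finset ι) (A : Finset ℚ), A.card = N1 → V.card = N2 →
      pot (ends pos V) A = N3 → A.Nonempty → Gen pos V A → Gr pos V A = 1 := by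
    intro N1
    induction N1 using Nat.strong_induction_on with
    | _ N1 ih1 =>
    intro N2
    induction N2 using Nat.strong_induction_on with
    | _ N2 ih2 =>
    intro N3
    induction N3 using Nat.strong_induction_on with
    | _ N3 ih3 =>
    intro V A hN1 hN2 hN3 hA hG
    by_cases hpot : ∃ a ∈ A, ∃ e ∈ ends pos V, e < a
    · obtain ⟨c, hcA, p, hpE, c', h1, h2, hAw, hEw⟩ := geo (ends pos V) A
        (fun a ha => not_mem_of_ends hG ha) hpot
      obtain ⟨u, hu, q, hpq⟩ := mem_ends hpE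
      set B := A.erase c with hB
      have hAB : insert c B = A := Finset.insert_erase hcA
      have hcB : c ∉ B := Finset.notMem_erase c A
      have hBaw : ∀ a ∈ B, Away c' c a := fun a ha =>
        hAw a (Finset.mem_of_mem_erase ha) (Finset.ne_of_mem_erase ha)
      have hc'aw : ¬ Away c' c c' := by
        rintro (h | h)
        · exact lt_irrefl _ h
        · exact absurd (h1.trans h2) (not_lt.mpr h.le)
      have hc'B : c' ∉ B := fun h => hc'aw (hBaw c' h)
      -- the ends of `u`
      have hpq' : p ≠ q ∧ q ∈ ends pos V ∧ (∀ w ∈ V, w ≠ u → (pos w).1 ≠ p ∧ (pos w).2 ≠ p ∧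
          (pos w).1 ≠ q ∧ (pos w).2 ≠ q) := by
        have g1 := hG.ne u hu
        have g2 := fun w hw hwu => hG.dis w hw u hu hwu
        rcases hpq with h | h
        · rw [h] at g1
          refine ⟨g1, ?_, fun w hw hwu => ?_⟩
          · have := mem_ends2 (pos := pos) hu; rwa [h] at this
          · have := g2 w hw hwu; rw [h] at this
            exact ⟨this.1, this.2.2.1, this.2.1, this.2.2.2⟩
        · rw [h] at g1
          refine ⟨g1.symm, ?_, fun w hw hwu => ?_⟩
          · have := mem_ends1 (pos := pos) hu; rwa [h] at this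
          · have := g2 w hw hwu; rw [h] at this
            exact ⟨this.2.1, this.2.2.2, this.1, this.2.2.1⟩
      obtain ⟨hpq1, hqE, hoth⟩ := hpq'
      have hqaw : Away c' c q := hEw q hqE hpq1.symm
      have hVaw : ∀ w ∈ V, w ≠ u → Away c' c (pos w).1 ∧ Away c' c (pos w).2 := fun w hw hwu =>
        ⟨hEw _ (mem_ends1 hw) (hoth w hw hwu).1, hEw _ (mem_ends2 hw) (hoth w hw hwu).2.1⟩
      have hqA : q ∉ A := fun h => not_mem_of_ends hG h hqE
      have hqB : q ∉ B := fun h => hqA (Finset.mem_of_mem_erase h)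
      have hstep := step hsplit hlin hpoint hroot pos V B u c' c p q hu hpq h1 h2 hqaw hVaw hBaw
        hcB hc'B hqB
      have hcardB : B.card < N1 := by rw [← hN1]; exact Finset.card_erase_lt_of_mem hcA
      have hcardV : (V.erase u).card < N2 := by rw [← hN2]; exact Finset.card_erase_lt_of_mem hu
      have hcardc : (insert c B).card = N1 := by rw [hAB]; exact hN1
      have hBc : B.card + 1 = N1 := by rw [← hcardc, Finset.card_insert_of_notMem hcB]
      have hcardq : (insert q B).card = N1 := by rw [Finset.card_insert_of_notMem hqB, hBc]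
      have hcardc' : (insert c' B).card = N1 := by rw [Finset.card_insert_of_notMem hc'B, hBc]
      have hBA : B ⊆ A := Finset.erase_subset _ _
      have hVV : V.erase u ⊆ V := Finset.erase_subset _ _
      have hGB : Gen pos V B := gen_mono hG subset_rfl fun w hw =>
        ⟨fun h => (hG.out w hw).1 (hBA h), fun h => (hG.out w hw).2 (hBA h)⟩
      have hGB' : Gen pos (V.erase u) B := gen_mono hGB hVV fun w hw => hGB.out w (hVV hw)
      have hGc : Gen pos (V.erase u) (insert c B) := by
        rw [hAB]; exact gen_mono hG hVV fun w hw => hG.out w (hVV hw)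
      have hGq : Gen pos (V.erase u) (insert q B) := gen_mono hG hVV fun w hw => by
        have g1 := hoth w (hVV hw) (Finset.ne_of_mem_erase hw)
        have g2 := hGB.out w (hVV hw)
        exact ⟨fun h => (Finset.mem_insert.mp h).elim g1.2.2.1 g2.1,
          fun h => (Finset.mem_insert.mp h).elim g1.2.2.2 g2.2⟩
      have hGc' : Gen pos V (insert c' B) := gen_mono hG subset_rfl fun w hw => by
        have g2 := hGB.out w hw
        have g3 : ∀ e ∈ ends pos V, e ≠ c' := by
          intro e he h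
          by_cases hep : e = p
          · exact h1.ne (h.symm.trans hep)
          · exact hc'aw (h ▸ hEw e he hep)
        exact ⟨fun h => (Finset.mem_insert.mp h).elim (g3 _ (mem_ends1 hw)) g2.1,
          fun h => (Finset.mem_insert.mp h).elim (g3 _ (mem_ends2 hw)) g2.2⟩
      -- the four induction hypotheses
      have i1 : Gr pos V B + Gr pos (V.erase u) B = 0 := by
        rcases B.eq_empty_or_nonempty with hBe | hBn
        · rw [hBe]; simp [R.Gr]
        · rw [ih1 B.card hcardB V.card _ V B rfl rfl rfl hBn hGB,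
            ih1 B.card hcardB _ _ (V.erase u) B rfl rfl rfl hBn hGB']
          exact self_add 1
      have i2 : Gr pos (V.erase u) (insert c B) + Gr pos (V.erase u) (insert q B) = 0 := by
        rw [ih2 _ hcardV _ (V.erase u) (insert c B) hcardc rfl rfl (Finset.insert_nonempty _ _) hGc,
          ih2 _ hcardV _ (V.erase u) (insert q B) hcardq rfl rfl (Finset.insert_nonempty _ _) hGq]
        exact self_add 1
      rw [i1, i2, add_zero] at hstep
      rw [← hAB, two_eq hstep]
      refine ih3 (pot (ends pos V) (insert c' B)) ?_ V (insert c' B) hcardc' hN2 rfl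
        (Finset.insert_nonempty _ _) hGc'
      rw [← hN3, ← hAB]
      exact pot_lt hcB hc'B hpE h1 h2
    · push Not at hpot
      refine base hbase pos V A hA hG fun a ha w hw => ⟨?_, ?_⟩
      · exact lt_of_le_of_ne (hpot a ha _ (mem_ends1 hw)) fun h => (hG.out w hw).1 (h ▸ ha)
      · exact lt_of_le_of_ne (hpot a ha _ (mem_ends2 hw)) fun h => (hG.out w hw).2 (h ▸ ha)
  exact fun V A hA hG => main _ _ _ V A rfl rfl rfl hA hG

end Pool.Agent.Work.MP_7794fd_co.R
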