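import Pool.Agent.Work.MP_7794fd_co.R.Stmts

/-!
# Item Iso: an isolated vertex
-/

set_option autoImplicit false

namespace Pool.Agent.Work.MP_7794fd_co.R

open Finset Matrix

theorem I_Iso : StIso := by
  intro ι _ _ X Y u hX hXY hY hu
  have h1 : X = X.updateRow u (X u u • (Pi.single u 1 : ι → ZMod 2)) := by
    ext a b
    by_cases ha : a = u
    · subst ha
      rw [Matrix.updateRow_self, Pi.smul_apply, smul_eq_mul]
      by_cases hb : b = a
      · subst hb
        rw [Pi.single_eq_same, mul_one]
      · rw [Pi.single_eq_of_ne hb, mul_zero, (hX b hb).1]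
    · rw [Matrix.updateRow_ne ha]
  have h2 : X.updateRow u (Pi.single u 1 : ι → ZMod 2) = Y := by
    ext a b
    by_cases ha : a = u
    · subst ha
      rw [Matrix.updateRow_self]
      by_cases hb : b = a
      · subst hb
        rw [Pi.single_eq_same, hu]
      · rw [Pi.single_eq_of_ne hb, (hY b hb).1]
    · rw [Matrix.updateRow_ne ha]
      by_cases hb : b = u
      · subst hb
        rw [(hX a ha).2, (hY a ha).2]
      · exact (hXY a b ha hb).symm
  rw [← h2, ← Matrix.det_updateRow_smul, ← h1]

end Pool.Agent.Work.MP_7794fd_co.R
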