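import Pool.Agent.Work.MP_7794fd_co.R.Stmts

/-! An outside vertex with all neighbours on `C`, the other outside vertices connected. -/

set_option autoImplicit false

namespace Pool.Agent.Work.MP_7794fd_co.R

open Finset

namespace Isol

variable {V E : Type} [Fintype V] [DecidableEq V] [Fintype E] [DecidableEq E] (G : MG V E)

omit [Fintype V] [Fintype E] in
theorem deg_pair {e₁ e₂ : E} (hne : e₁ ≠ e₂) (v : V) :
    deg G {e₁, e₂} v = (if v ∈ G.ends e₁ then 1 else 0) + (if v ∈ G.ends e₂ then 1 else 0) := by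
  unfold deg
  rw [Finset.filter_insert, Finset.filter_singleton]
  by_cases h1 : v ∈ G.ends e₁ <;> by_cases h2 : v ∈ G.ends e₂
  · rw [if_pos h1, if_pos h2, if_pos h1, if_pos h2, Finset.card_insert_of_notMem
      (by rw [Finset.mem_singleton]; exact hne), Finset.card_singleton]
  · rw [if_pos h1, if_neg h2, if_pos h1, if_neg h2]
    simp
  · rw [if_neg h1, if_pos h2, if_neg h1, if_pos h2]
    simp
  · rw [if_neg h1, if_neg h2, if_neg h1, if_neg h2]
    simp

omit [Fintype V] [DecidableEq V] [Fintype E] [DecidableEq E] in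
theorem other_end {e : E} {w : V} (h : w ∈ G.ends e) : ∃ a, G.ends e = s(w, a) := by
  obtain ⟨a, ha⟩ := Sym2.mem_iff_exists.1 h
  exact ⟨a, ha⟩

omit [Fintype V] in
theorem four_le {C : Finset E} {a : V} {e₁ e₂ : E} (hne : e₁ ≠ e₂) (h1 : e₁ ∉ C) (h2 : e₂ ∉ C)
    (ha1 : a ∈ G.ends e₁) (ha2 : a ∈ G.ends e₂) (hd : deg G C a = 2) :
    4 ≤ deg G Finset.univ a := by
  unfold deg at *
  have hsub : insert e₁ (insert e₂ (C.filter (fun e => a ∈ G.ends e)))
      ⊆ Finset.univ.filter (fun e => a ∈ G.ends e) := by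
    intro e he
    rw [Finset.mem_filter]
    refine ⟨Finset.mem_univ _, ?_⟩
    rw [Finset.mem_insert, Finset.mem_insert, Finset.mem_filter] at he
    rcases he with rfl | rfl | ⟨-, h⟩
    · exact ha1
    · exact ha2
    · exact h
  have hc := Finset.card_le_card hsub
  have n2 : e₂ ∉ C.filter (fun e => a ∈ G.ends e) := by
    rw [Finset.mem_filter]
    exact fun h => h2 h.1
  have n1 : e₁ ∉ insert e₂ (C.filter (fun e => a ∈ G.ends e)) := by
    rw [Finset.mem_insert, Finset.mem_filter]
    rintro (h | h)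
    · exact hne h
    · exact h1 h.1
  rw [Finset.card_insert_of_notMem n1, Finset.card_insert_of_notMem n2, hd] at hc
  exact hc

end Isol

open Isol in
theorem I_Isol (hm : StMain) : StIsol := by
  intro V E _ _ _ _ G hG C w hC hw hnb hconn
  have hw3 : deg G Finset.univ w = 3 := hG w
  have hcard : 1 < (Finset.univ.filter (fun e => w ∈ G.ends e)).card := by
    have h : (Finset.univ.filter (fun e => w ∈ G.ends e)).card = 3 := hw3
    rw [h]
    norm_num
  obtain ⟨e₁, h₁, e₂, h₂, hne⟩ := Finset.one_lt_card.1 hcard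
  have hw₁ : w ∈ G.ends e₁ := (Finset.mem_filter.1 h₁).2
  have hw₂ : w ∈ G.ends e₂ := (Finset.mem_filter.1 h₂).2
  obtain ⟨a, ha⟩ := other_end G hw₁
  obtain ⟨b, hb⟩ := other_end G hw₂
  have haC : a ∈ verts G C := hnb e₁ a ha
  have hbC : b ∈ verts G C := hnb e₂ b hb
  have h1C : e₁ ∉ C := fun h => hw ⟨e₁, h, hw₁⟩
  have h2C : e₂ ∉ C := fun h => hw ⟨e₂, h, hw₂⟩
  have hwa : w ≠ a := fun h => hw (h ▸ haC)
  have hwb : w ≠ b := fun h => hw (h ▸ hbC)
  have ha1 : a ∈ G.ends e₁ := by rw [ha]; exact Sym2.mem_mk_right w a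
  have hb2 : b ∈ G.ends e₂ := by rw [hb]; exact Sym2.mem_mk_right w b
  have hdeg2 : ∀ v ∈ verts G C, deg G C v = 2 := by
    rintro v ⟨e, he, hv⟩
    rcases hC.deg v with h | h
    · exfalso
      have : e ∈ C.filter (fun e => v ∈ G.ends e) := Finset.mem_filter.2 ⟨he, hv⟩
      rw [Finset.card_eq_zero.1 h] at this
      exact absurd this (Finset.notMem_empty e)
    · exact h
  have hab : a ≠ b := by
    intro h
    have h4 := four_le G hne h1C h2C ha1 (by rw [h]; exact hb2) (hdeg2 a haC)
    have h3 := hG a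
    omega
  have mem1 : ∀ v, v ∈ G.ends e₁ ↔ v = w ∨ v = a := by
    intro v
    rw [ha]
    exact Sym2.mem_iff
  have mem2 : ∀ v, v ∈ G.ends e₂ ↔ v = w ∨ v = b := by
    intro v
    rw [hb]
    exact Sym2.mem_iff
  have hP : IsCPath G C {e₁, e₂} a b := by
    refine ⟨?_, hab, haC, hbC, ?_, ?_, ?_, ?_, ?_⟩
    · rw [Finset.disjoint_right]
      intro e he
      rw [Finset.mem_insert, Finset.mem_singleton] at he
      rcases he with rfl | rfl
      · exact h1C
      · exact h2C
    · rw [deg_pair G hne, if_pos ha1, if_neg]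
      rw [mem2]
      rintro (h | h)
      · exact hwa h.symm
      · exact hab h
    · rw [deg_pair G hne, if_pos hb2, if_neg]
      rw [mem1]
      rintro (h | h)
      · exact hwb h.symm
      · exact hab h.symm
    · intro v hv hva hvb
      have hvw : v ≠ w := fun h => hw (h ▸ hv)
      rw [deg_pair G hne, if_neg, if_neg]
      · rw [mem2]
        rintro (h | h)
        · exact hvw h
        · exact hvb h
      · rw [mem1]
        rintro (h | h)
        · exact hvw h
        · exact hva h
    · intro v hv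
      by_cases hvw : v = w
      · right
        rw [deg_pair G hne, hvw, if_pos hw₁, if_pos hw₂]
      · left
        rw [deg_pair G hne, if_neg, if_neg]
        · rw [mem2]
          rintro (h | h)
          · exact hvw h
          · exact hv (h ▸ hbC)
        · rw [mem1]
          rintro (h | h)
          · exact hvw h
          · exact hv (h ▸ haC)
    · intro e he f hf
      refine Relation.ReflTransGen.single ⟨he, hf, w, trivial, ?_, ?_⟩
      · rw [Finset.mem_insert, Finset.mem_singleton] at he
        rcases he with rfl | rfl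
        · exact hw₁
        · exact hw₂
      · rw [Finset.mem_insert, Finset.mem_singleton] at hf
        rcases hf with rfl | rfl
        · exact hw₁
        · exact hw₂
  have hout : ∀ z, z ∉ verts G C → z ≠ w → z ∉ verts G (C ∪ {e₁, e₂}) := by
    rintro z hz hzw ⟨e, he, hze⟩
    rw [Finset.mem_union, Finset.mem_insert, Finset.mem_singleton] at he
    rcases he with he | rfl | rfl
    · exact hz ⟨e, he, hze⟩
    · rcases (mem1 z).1 hze with h | h
      · exact hzw h
      · exact hz (h ▸ haC)
    · rcases (mem2 z).1 hze with h | h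
      · exact hzw h
      · exact hz (h ▸ hbC)
  have hin : ∀ z, z ∉ verts G (C ∪ {e₁, e₂}) → z ∉ verts G C ∧ z ≠ w := by
    intro z hz
    refine ⟨?_, ?_⟩
    · rintro ⟨e, he, hze⟩
      exact hz ⟨e, Finset.mem_union_left _ he, hze⟩
    · rintro rfl
      exact hz ⟨e₁, Finset.mem_union_right _ (Finset.mem_insert_self _ _), hw₁⟩
  obtain ⟨D, hD, -⟩ := hm G hG C {e₁, e₂} a b hC hP (by
    intro u u' hu hu' _ _
    obtain ⟨huC, huw⟩ := hin u hu
    obtain ⟨huC', huw'⟩ := hin u' hu'
    have hr := hconn u u' huC huC' huw huw'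
    have key : ∀ z, Reach G (verts G C)ᶜ Finset.univ u z →
        z ≠ w ∧ Reach G (verts G (C ∪ {e₁, e₂}))ᶜ Finset.univ u z := by
      intro z hz
      induction hz with
      | refl => exact ⟨huw, Relation.ReflTransGen.refl⟩
      | @tail x z _ hs ih =>
        obtain ⟨hx, hz, e, _, he⟩ := hs
        have hzw : z ≠ w := by
          rintro rfl
          refine hx (hnb e x ?_)
          rw [he]
          exact Sym2.eq_swap
        exact ⟨hzw, ih.2.tail ⟨hout x hx ih.1, hout z hz hzw, e, Finset.mem_univ _, he⟩⟩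
    exact (key u' hr).2)
  exact ⟨D, hD⟩

end Pool.Agent.Work.MP_7794fd_co.R
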