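import Pool.Agent.Work.MP_7794fd_co.R.Stmts

/-! Project MP_7794fd_co, module R: nonzero determinants give connected circuits. -/

set_option autoImplicit false

namespace Pool.Agent.Work.MP_7794fd_co.R

open Finset Matrix

namespace Kernel

theorem lt2_half (p i : ℕ) : lt2 (p : ℚ) ((i : ℚ) + 1 / 2) = if p ≤ i then 1 else 0 := by
  unfold lt2
  have h : ((p : ℚ) < (i : ℚ) + 1 / 2) ↔ p ≤ i := by
    constructor
    · intro h
      by_contra hc
      push Not at hc
      have : (i : ℚ) + 1 ≤ p := by exact_mod_cast hc
      linarith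
    · intro h
      have : (p : ℚ) ≤ i := by exact_mod_cast h
      linarith
  simp only [h]

theorem lt2_nat (p i : ℕ) : lt2 (p : ℚ) (i : ℚ) = if p < i then 1 else 0 := by
  unfold lt2; simp only [Nat.cast_lt]

theorem ind_succ (p i : ℕ) : (if p ≤ i + 1 then (1 : ZMod 2) else 0) + (if p ≤ i then 1 else 0) =
    if p = i + 1 then 1 else 0 := by
  split_ifs <;> first | (exfalso; omega) | decide

theorem ind_lt (p i : ℕ) : (if p ≤ i then (1 : ZMod 2) else 0) + (if p < i then 1 else 0) =
    if p = i then 1 else 0 := by
  split_ifs <;> first | (exfalso; omega) | decide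

theorem two : (2 : ZMod 2) = 0 := by decide

theorem ne_iff (a s : ZMod 2) : a ≠ s ↔ a + 1 = s := by revert a s; decide

theorem eqs (a b s x : ZMod 2) :
    (if a = s then x else 0) + (if b = s then x else 0) = (a + b) * x := by
  revert a b s x; decide

section
variable {ι : Type} [DecidableEq ι] (M : Finset ι) (e : ι → ℕ × ℕ) (n y : ℕ)

/-- the jump sum -/
def JS (w : ι → ZMod 2) (i : ℕ) : ZMod 2 :=
  ∑ u ∈ M, w u * ((if (e u).1 = i then 1 else 0) + (if (e u).2 = i then 1 else 0))

variable (he : ∀ u ∈ M, 0 < (e u).1 ∧ (e u).1 < (e u).2 ∧ (e u).2 < n ∧ (e u).1 ≠ y ∧ (e u).2 ≠ y)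
  (hdis : ∀ u ∈ M, ∀ v ∈ M, u ≠ v → (e u).1 ≠ (e v).1 ∧ (e u).1 ≠ (e v).2 ∧
    (e u).2 ≠ (e v).1 ∧ (e u).2 ≠ (e v).2)

include he hdis in
theorem JS_end (w : ι → ZMod 2) (i : ℕ) (u : ι) (hu : u ∈ M) (hi : (e u).1 = i ∨ (e u).2 = i) :
    JS M e w i = w u := by
  unfold JS
  rw [Finset.sum_eq_single_of_mem u hu]
  · have := he u hu
    rcases hi with h | h
    · have h2 : (e u).2 ≠ i := by omega
      rw [if_pos h, if_neg h2]; ring
    · have h2 : (e u).1 ≠ i := by omega
      rw [if_pos h, if_neg h2]; ring
  · intro v hv hvu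
    have h1 := hdis v hv u hu hvu
    have h2 : (e v).1 ≠ i := by rcases hi with h | h <;> omega
    have h3 : (e v).2 ≠ i := by rcases hi with h | h <;> omega
    rw [if_neg h2, if_neg h3]; ring

omit [DecidableEq ι] in
theorem JS_none (w : ι → ZMod 2) (i : ℕ) (h : ∀ u ∈ M, i ≠ (e u).1 ∧ i ≠ (e u).2) :
    JS M e w i = 0 := by
  unfold JS
  refine Finset.sum_eq_zero fun u hu => ?_
  have := h u hu
  rw [if_neg this.1.symm, if_neg this.2.symm]; ring

end

end Kernel

open Kernel in
theorem I_Kernel : StKernel := by
  intro ι _ _ n pos y V M e hy0 hyn hMV hpos he hdis hdet s col lam hcol hpl hch hroot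
  have hkap : ∀ i : ℕ, kap pos y M ((i : ℚ) + 1 / 2) = 1 + (if y ≤ i then 1 else 0) +
      ∑ u ∈ M, ((if (e u).1 ≤ i then 1 else 0) + (if (e u).2 ≤ i then 1 else 0)) := by
    intro i
    unfold kap
    rw [lt2_half]
    congr 1
    refine Finset.sum_congr rfl fun u hu => ?_
    unfold pt
    rw [hpos u hu]
    simp only
    rw [lt2_half, lt2_half]
  have hkap' : ∀ i : ℕ, kap pos y M (i : ℚ) = 1 + (if y < i then 1 else 0) +
      ∑ u ∈ M, ((if (e u).1 < i then 1 else 0) + (if (e u).2 < i then 1 else 0)) := by
    intro i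
    unfold kap
    rw [lt2_nat]
    congr 1
    refine Finset.sum_congr rfl fun u hu => ?_
    unfold pt
    rw [hpos u hu]
    simp only
    rw [lt2_nat, lt2_nat]
  -- differences of colours
  have hcd : ∀ i, i + 1 < n → col (i + 1) + col i = (if y = i + 1 then 1 else 0) +
      JS M e (fun _ => 1) (i + 1) := by
    intro i hi
    rw [hcol (i + 1) hi, hcol i (by omega), hkap, hkap]
    unfold JS
    have h1 : ∑ u ∈ M, (1 : ZMod 2) * ((if (e u).1 = i + 1 then 1 else 0) +
        (if (e u).2 = i + 1 then 1 else 0)) =
        ∑ u ∈ M, ((if (e u).1 ≤ i + 1 then 1 else 0) + (if (e u).2 ≤ i + 1 then 1 else 0)) +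
        ∑ u ∈ M, ((if (e u).1 ≤ i then 1 else 0) + (if (e u).2 ≤ i then 1 else 0)) := by
      rw [← Finset.sum_add_distrib]
      refine Finset.sum_congr rfl fun u _ => ?_
      rw [← ind_succ, ← ind_succ]; ring
    rw [h1, ← ind_succ]
    linear_combination two
  have hcd' : ∀ i : ℕ, kap pos y M ((i : ℚ) + 1 / 2) + kap pos y M (i : ℚ) =
      (if y = i then 1 else 0) + JS M e (fun _ => 1) i := by
    intro i
    rw [hkap, hkap']
    unfold JS
    have h1 : ∑ u ∈ M, (1 : ZMod 2) * ((if (e u).1 = i then 1 else 0) +
        (if (e u).2 = i then 1 else 0)) =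
        ∑ u ∈ M, ((if (e u).1 ≤ i then 1 else 0) + (if (e u).2 ≤ i then 1 else 0)) +
        ∑ u ∈ M, ((if (e u).1 < i then 1 else 0) + (if (e u).2 < i then 1 else 0)) := by
      rw [← Finset.sum_add_distrib]
      refine Finset.sum_congr rfl fun u _ => ?_
      rw [← ind_lt, ← ind_lt]; ring
    rw [h1, ← ind_lt]
    linear_combination two
  have harc : ∀ i, 0 < i → arc n col s i = if col i = s then i else i - 1 := by
    intro i hi
    unfold arc
    rw [if_neg (show ¬ i = 0 by omega)]
  set a0 := lam (arc n col s 0) with ha0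
  set mu : ℕ → ZMod 2 := fun i => if col i = s then lam i + a0 else 0 with hmud
  set j : ι → ZMod 2 := fun u => lam (arc n col s (e u).1) + a0 with hjd
  have hj2 : ∀ u ∈ M, lam (arc n col s (e u).2) + a0 = j u := by
    intro u hu; rw [hjd]; simp only; rw [hch u hu]
  -- a colour change
  have hchange : ∀ i, i + 1 < n → col (i + 1) + col i = 1 →
      mu (i + 1) + mu i = lam (arc n col s (i + 1)) + a0 := by
    intro i _ h
    rw [harc (i + 1) (by omega)]
    by_cases hs : col (i + 1) = s
    · have h2 : col i ≠ s := by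
        rw [ne_iff, ← hs]
        linear_combination h + (1 - col (i + 1)) * two
      simp only [hmud, hs, if_true, if_neg h2, add_zero]
    · have h2 : col i = s := by
        rw [← Ne, ne_iff] at hs
        rw [← hs]
        linear_combination h - col (i + 1) * two
      simp only [hmud, if_neg hs, h2, if_true, zero_add, Nat.add_sub_cancel]
  have hsame : ∀ i, i + 1 < n → col (i + 1) + col i = 0 →
      (col (i + 1) = s → lam (i + 1) = lam i) → mu (i + 1) + mu i = 0 := by
    intro i _ h hl
    have h2 : col i = col (i + 1) := by linear_combination h - col (i + 1) * two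
    simp only [hmud, h2]
    by_cases hs : col (i + 1) = s
    · rw [if_pos hs, if_pos hs, hl hs]
      linear_combination (lam i + a0) * two
    · rw [if_neg hs, if_neg hs, add_zero]
  -- step 1
  have hstep : ∀ i, i + 1 < n → mu (i + 1) + mu i = JS M e j (i + 1) := by
    intro i hi
    by_cases hend : ∃ u ∈ M, (e u).1 = i + 1 ∨ (e u).2 = i + 1
    · obtain ⟨u, hu, hu2⟩ := hend
      rw [JS_end M e n y he hdis j (i + 1) u hu hu2]
      have h1 := hcd i hi
      rw [JS_end M e n y he hdis _ (i + 1) u hu hu2] at h1
      have hne : y ≠ i + 1 := by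
        have := he u hu
        rcases hu2 with h | h <;> omega
      rw [if_neg hne, zero_add] at h1
      rw [hchange i hi h1]
      rcases hu2 with h | h
      · rw [← h]
      · rw [← h]; exact hj2 u hu
    · push Not at hend
      have hend' : ∀ u ∈ M, i + 1 ≠ (e u).1 ∧ i + 1 ≠ (e u).2 := fun u hu =>
        ⟨(hend u hu).1.symm, (hend u hu).2.symm⟩
      rw [JS_none M e j (i + 1) hend']
      have h1 := hcd i hi
      rw [JS_none M e _ (i + 1) hend', add_zero] at h1
      by_cases hyi : y = i + 1
      · rw [if_pos hyi] at h1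
        rw [hchange i hi h1, ← hyi, ← hroot]
        linear_combination a0 * two
      · rw [if_neg hyi] at h1
        refine hsame i hi h1 fun hs => ?_
        have := hpl (i + 1) (by omega) hi (fun h => hyi h.symm) hend' hs
        simpa using this
  -- step 2
  have hn : 0 < n := by omega
  have hcol0 : col 0 = 1 := by
    rw [hcol 0 hn, hkap, if_neg (by omega), Finset.sum_eq_zero]
    · ring
    · intro u hu
      have := he u hu
      rw [if_neg (by omega), if_neg (by omega), add_zero]
  have hmu0 : mu 0 = 0 := by
    simp only [hmud]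
    split_ifs with h
    · have : a0 = lam 0 := by rw [ha0]; unfold arc; rw [if_pos h]
      rw [this]; linear_combination lam 0 * two
    · rfl
  have hmu : ∀ i, i < n → mu i = ∑ u ∈ M, j u * ((if (e u).1 ≤ i then 1 else 0) +
      (if (e u).2 ≤ i then 1 else 0)) := by
    intro i
    induction i with
    | zero =>
      intro _
      rw [hmu0, Finset.sum_eq_zero]
      intro u hu
      have := he u hu
      rw [if_neg (by omega), if_neg (by omega)]; ring
    | succ i ih =>
      intro hi
      have h1 := hstep i hi
      have h2 := ih (by omega)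
      have h3 : JS M e j (i + 1) =
          ∑ u ∈ M, j u * ((if (e u).1 ≤ i + 1 then 1 else 0) + (if (e u).2 ≤ i + 1 then 1 else 0)) +
          ∑ u ∈ M, j u * ((if (e u).1 ≤ i then 1 else 0) + (if (e u).2 ≤ i then 1 else 0)) := by
        unfold JS
        rw [← Finset.sum_add_distrib]
        refine Finset.sum_congr rfl fun u _ => ?_
        rw [← ind_succ, ← ind_succ]; ring
      rw [h3, ← h2] at h1
      linear_combination h1
  -- step 3 and 4
  set jx : ι → ZMod 2 := fun u => if u ∈ M then j u else 0 with hjx
  have hker : BM pos y V M *ᵥ jx = 0 := by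
    funext u
    rw [Matrix.mulVec, dotProduct, Pi.zero_apply]
    by_cases hu : u ∈ M
    · -- row of M
      have hsum : ∑ v, BM pos y V M u v * jx v = ∑ v ∈ M, BM pos y V M u v * j v := by
        rw [← Finset.sum_subset (Finset.subset_univ M)]
        · refine Finset.sum_congr rfl fun v hv => ?_
          simp only [hjx, if_pos hv]
        · intro v _ hv
          simp only [hjx, if_neg hv, mul_zero]
      rw [hsum, ← Finset.add_sum_erase M _ hu]
      obtain ⟨hp0, hpq, hqn, hpy, hqy⟩ := he u hu
      obtain ⟨q', hq'⟩ : ∃ q', (e u).2 = q' + 1 := ⟨(e u).2 - 1, by omega⟩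
      have hpn : (e u).1 < n := by omega
      have hq'n : q' < n := by omega
      -- left side
      have hcp : col (e u).1 + kap pos y M ((e u).1 : ℚ) = 1 := by
        rw [hcol _ hpn, hcd', JS_end M e n y he hdis _ _ u hu (Or.inl rfl), if_neg hpy.symm,
          zero_add]
      have hcq : col q' = kap pos y M ((e u).2 : ℚ) := by
        rw [hcol _ hq'n, hkap, hkap', hq']
        simp only [Nat.lt_succ_iff]
      have hmup : mu (e u).1 = if col (e u).1 = s then j u else 0 := by
        simp only [hmud]
        split_ifs with h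
        · rw [hjd]; simp only; rw [harc _ hp0, if_pos h]
        · rfl
      have hmuq : mu q' = if col q' = s then j u else 0 := by
        simp only [hmud]
        split_ifs with h
        · rw [← hj2 u hu, hq', harc _ (by omega)]
          have h1 := hcd q' (by omega)
          rw [JS_end M e n y he hdis _ (q' + 1) u hu (Or.inr hq'), if_neg (by omega), zero_add] at h1
          have h2 : col (q' + 1) ≠ s := by
            rw [ne_iff, ← h]
            linear_combination h1 - col q' * two + (1 : ZMod 2) * two
          rw [if_neg h2, Nat.add_sub_cancel]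
        · rfl
      have hl : mu (e u).1 + mu q' = (1 + kap pos y M ((e u).1 : ℚ) + kap pos y M ((e u).2 : ℚ)) *
          j u := by
        rw [hmup, hmuq, eqs, ← hcq]
        linear_combination j u * hcp - j u * kap pos y M ((e u).1 : ℚ) * two
      have hr : mu (e u).1 + mu q' = ∑ v ∈ M.erase u, cr (pos u) (pos v) * j v := by
        rw [hmu _ hpn, hmu _ hq'n, ← Finset.sum_add_distrib, ← Finset.add_sum_erase M _ hu]
        have h0 : j u * ((if (e u).1 ≤ (e u).1 then 1 else 0) + (if (e u).2 ≤ (e u).1 then 1 else 0))
            + j u * ((if (e u).1 ≤ q' then 1 else 0) + (if (e u).2 ≤ q' then 1 else 0)) = 0 := by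
          rw [if_pos le_rfl, if_neg (by omega), if_pos (by omega), if_neg (by omega)]
          linear_combination j u * two
        rw [h0, zero_add]
        refine Finset.sum_congr rfl fun v hv => ?_
        rw [Finset.mem_erase] at hv
        have hd := hdis v hv.2 u hu hv.1
        unfold cr pt
        rw [hpos u hu, hpos v hv.2]
        simp only
        rw [lt2_nat, lt2_nat, lt2_nat, lt2_nat, hq']
        have e1 : (if (e v).1 ≤ (e u).1 then (1 : ZMod 2) else 0) =
            if (e v).1 < (e u).1 then 1 else 0 := by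
          split_ifs <;> first | rfl | (exfalso; omega)
        have e2 : (if (e v).2 ≤ (e u).1 then (1 : ZMod 2) else 0) =
            if (e v).2 < (e u).1 then 1 else 0 := by
          split_ifs <;> first | rfl | (exfalso; omega)
        rw [e1, e2]
        simp only [Nat.lt_succ_iff]
        ring
      have hdiag : BM pos y V M u u = 1 + kap pos y M ((e u).1 : ℚ) + kap pos y M ((e u).2 : ℚ) := by
        unfold BM
        rw [if_pos rfl, if_pos (hMV hu), hpos u hu]
      have hoff : ∑ v ∈ M.erase u, BM pos y V M u v * j v =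
          ∑ v ∈ M.erase u, cr (pos u) (pos v) * j v := by
        refine Finset.sum_congr rfl fun v hv => ?_
        rw [Finset.mem_erase] at hv
        unfold BM
        rw [if_neg (Ne.symm hv.1), if_pos ⟨hu, hv.2⟩]
      rw [hdiag, hoff, ← hl, ← hr]
      linear_combination (mu (e u).1 + mu q') * two
    · refine Finset.sum_eq_zero fun v _ => ?_
      by_cases hvu : v = u
      · subst hvu
        simp only [hjx, if_neg hu, mul_zero]
      · unfold BM
        rw [if_neg (fun h => hvu h.symm), if_neg (fun h => hu h.1), zero_mul]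
  have hjx0 : jx = 0 := Matrix.eq_zero_of_mulVec_eq_zero hdet hker
  have hj0 : ∀ u ∈ M, j u = 0 := by
    intro u hu
    have := congrFun hjx0 u
    simpa only [hjx, if_pos hu, Pi.zero_apply] using this
  have hfin : ∀ i, i < n → col i = s → lam i = a0 := by
    intro i hi hs
    have h1 := hmu i hi
    rw [Finset.sum_eq_zero (fun u hu => by rw [hj0 u hu, zero_mul])] at h1
    simp only [hmud, if_pos hs] at h1
    linear_combination h1 - a0 * two
  intro i hi k hk hci hck
  rw [hfin i hi hci, hfin k hk hck]

end Pool.Agent.Work.MP_7794fd_co.R
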