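import Pool.Agent.Work.MP_7794fd_co.R.Stmts

/-! Project MP_7794fd_co, module R, item Lin: linearity of the state sum. -/

set_option autoImplicit false

namespace Pool.Agent.Work.MP_7794fd_co.R

theorem I_Lin : StLin := by
  intro ι _ _ pos y V W h₁ h₂ h₃ H
  unfold SS
  rw [← Finset.sum_add_distrib]
  refine Finset.sum_congr rfl fun M hM => ?_
  rw [H M hM, mul_add]

end Pool.Agent.Work.MP_7794fd_co.R
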