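import Pool.Agent.Work.MP_7794fd_co.R.Stmts

/-! Project MP_7794fd_co, module R, item Main: the rooted theorem from the combinatorial
theorem. -/

set_option autoImplicit false

namespace Pool.Agent.Work.MP_7794fd_co.R

open Finset Matrix

namespace Main

variable {V E : Type} [Fintype V] [DecidableEq V] [Fintype E] [DecidableEq E]

/-- three vertices with the same attachments -/
lemma three_le (G : MG V E) (C P : Finset E) (u a b c : V) (hab : a ≠ b) (hbc : b ≠ c)
    (hac : a ≠ c) (ha : a ∈ att G C P u) (hb : b ∈ att G C P u) (hc : c ∈ att G C P u) :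
    3 ≤ (att G C P u).ncard := by
  have h3 : ({a, b, c} : Set V).ncard = 3 := Set.ncard_eq_three.mpr ⟨a, b, c, hab, hac, hbc, rfl⟩
  rw [← h3]
  refine Set.ncard_le_ncard ?_ (Set.toFinite _)
  intro z hz
  simp only [Set.mem_insert_iff, Set.mem_singleton_iff] at hz
  rcases hz with rfl | rfl | rfl
  · exact ha
  · exact hb
  · exact hc

/-- attachments along a walk -/
lemma att_trans (G : MG V E) (C P : Finset E) (u u' a : V)
    (h : Reach G (verts G (C ∪ P))ᶜ Finset.univ u u') (ha : a ∈ att G C P u') :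
    a ∈ att G C P u := by
  obtain ⟨h1, q, h2, h3⟩ := ha
  exact ⟨h1, q, Relation.ReflTransGen.trans h h2, h3⟩

end Main

theorem I_Main (hcore : StCore) (hcyc : StCyc) (heq : StEquiv) (hpaths : StPaths)
    (hass : StAssemble) : StMain := by
  intro V E _ _ _ _ G hG C P x y hC hP hbig
  obtain ⟨n, f, c, hf, hf0⟩ := hcyc G C hC x hP.memx
  obtain ⟨iy, hiy, hfy⟩ := (hf.memf y).mp hP.memy
  have hiy0 : 0 < iy := by
    rcases Nat.eq_zero_or_pos iy with h | h
    · exfalso
      rw [h, hf0] at hfy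
      exact hP.ne hfy
    · exact h
  obtain ⟨hsymm, htrans, hthree⟩ := heq G C P x y hG hC hP
  have hmem : ∀ i < n, f i ∈ verts G C := fun i hi => (hf.memf (f i)).mpr ⟨i, hi, rfl⟩
  obtain ⟨pr, col, hgp⟩ := hcore n iy
    (fun i j => i = j ∨ (i < n ∧ j < n ∧ SameBridge G C P (f i) (f j))) hiy0 hiy
    (fun i => Or.inl rfl)
    (by
      rintro i j (h | ⟨h1, h2, h3⟩)
      · exact Or.inl h.symm
      · exact Or.inr ⟨h2, h1, hsymm _ _ h3⟩)
    (by
      rintro i j k (h | ⟨h1, h2, h3⟩) (h' | ⟨h1', h2', h3'⟩)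
      · exact Or.inl (h.trans h')
      · exact Or.inr ⟨by omega, h2', by rw [h]; exact h3'⟩
      · exact Or.inr ⟨h1, by omega, by rw [← h']; exact h3⟩
      · exact Or.inr ⟨h1, h2', htrans _ _ _ (hmem i h1) (hmem j h2) (hmem k h2') h3 h3'⟩)
    (by
      intro a b c a' b' c' hin hab hbc hac hab' hbc' hac' Rab Rbc Rab' Rbc'
      have key : ∀ a b c : ℕ, a ≠ b → b ≠ c → a ≠ c →
          (a = b ∨ (a < n ∧ b < n ∧ SameBridge G C P (f a) (f b))) →
          (b = c ∨ (b < n ∧ c < n ∧ SameBridge G C P (f b) (f c))) →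
          ∃ u, u ∉ verts G (C ∪ P) ∧ f a ∈ att G C P u ∧ 3 ≤ (att G C P u).ncard ∧ a < n := by
        intro a b c hab hbc hac R1 R2
        rcases R1 with R1 | ⟨ha, hb, R1⟩
        · exact absurd R1 hab
        rcases R2 with R2 | ⟨_, hc, R2⟩
        · exact absurd R2 hbc
        have e1 : f a ≠ f b := fun h => hab (hf.injf a ha b hb h)
        have e2 : f b ≠ f c := fun h => hbc (hf.injf b hb c hc h)
        have e3 : f a ≠ f c := fun h => hac (hf.injf a ha c hc h)
        obtain ⟨u, hu, h1, h2, h3⟩ := hthree _ (hmem a ha) _ (hmem b hb) _ (hmem c hc) e1 e2 e3 R1 R2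
        exact ⟨u, hu, h1, Main.three_le G C P u _ _ _ e1 e2 e3 h1 h2 h3, ha⟩
      obtain ⟨u, hu, hau, hu3, ha⟩ := key a b c hab hbc hac Rab Rbc
      obtain ⟨u', hu', hau', hu3', ha'⟩ := key a' b' c' hab' hbc' hac' Rab' Rbc'
      have hr := hbig u u' hu hu' hu3 hu3'
      exact Or.inr ⟨ha, ha', Or.inr (Or.inr ⟨u, hu, hau, Main.att_trans G C P u u' _ hr hau'⟩)⟩)
  have hgp' : GoodPairing n iy (fun i j => SameBridge G C P (f i) (f j)) pr col := by
    refine ⟨hgp.lt, hgp.inv, hgp.root, ?_, ?_, hgp.col0, hgp.coln, hgp.flip, ?_, hgp.conn⟩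
    · intro i h0 hi hy hne
      rcases hgp.rel i h0 hi hy hne with h | h
      · exact absurd h.symm hne
      · exact h.2.2
    · intro i j h0 hi hy h0' hj hy' hne hne' hs
      exact hgp.one i j h0 hi hy h0' hj hy' hne hne' (Or.inr ⟨hi, hj, hs⟩)
    · intro i j h0 hi hy h0' hj hy' hs h1 h2
      exact hgp.same i j h0 hi hy h0' hj hy' (Or.inr ⟨hi, hj, hs⟩) h1 h2
  obtain ⟨Q, hQ⟩ := hpaths G C P x y hG hC hP n f c iy pr col hf hf0 hiy0 hiy hfy hgp'
  exact hass G C P x y hG hC hP n f c iy pr col Q hf hf0 hiy0 hiy hfy hgp' hQ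

end Pool.Agent.Work.MP_7794fd_co.R
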