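import Pool.Agent.Work.MP_7794fd_co.R.Stmts

/-! Project MP_7794fd_co, module R, item Om: the parity theorem. -/

set_option autoImplicit false
set_option linter.unusedSectionVars false

namespace Pool.Agent.Work.MP_7794fd_co.R

open Finset Matrix

namespace Om

theorem two_eq {a b : ZMod 2} (h : a + b = 0) : a = b := CharTwo.add_eq_zero.mp h

theorem self_add (a : ZMod 2) : a + a = 0 := CharTwo.add_self_eq_zero a

/-- the next point of `A` which is moved, and the end it moves over -/
theorem geo (E A : Finset ℚ) (hdis : ∀ a ∈ A, a ∉ E) (hpot : ∃ a ∈ A, ∃ e ∈ E, e < a) :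
    ∃ c ∈ A, ∃ p ∈ E, ∃ c', c' < p ∧ p < c ∧ (∀ a ∈ A, a ≠ c → Away c' c a) ∧
      (∀ e ∈ E, e ≠ p → Away c' c e) := by
  classical
  obtain ⟨a0, ha0, e0, he0, hlt0⟩ := hpot
  let A1 := A.filter (fun a => ∃ e ∈ E, e < a)
  have hA1 : A1.Nonempty := ⟨a0, Finset.mem_filter.mpr ⟨ha0, e0, he0, hlt0⟩⟩
  let c := A1.min' hA1
  have hc : c ∈ A1 := A1.min'_mem hA1
  obtain ⟨hcA, e1, he1, hlt1⟩ := Finset.mem_filter.mp hc
  let E1 := E.filter (fun e => e < c)
  have hE1 : E1.Nonempty := ⟨e1, Finset.mem_filter.mpr ⟨he1, hlt1⟩⟩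
  let p := E1.max' hE1
  have hp : p ∈ E1 := E1.max'_mem hE1
  obtain ⟨hpE, hpc⟩ := Finset.mem_filter.mp hp
  obtain ⟨c', h1, h2⟩ := Order.exists_between_finsets ((E ∪ A).filter (fun e => e < p)) {p}
    (by
      intro x hx y hy
      rw [Finset.mem_singleton] at hy
      rw [hy]; exact (Finset.mem_filter.mp hx).2)
  have h2' : c' < p := h2 p (Finset.mem_singleton_self p)
  refine ⟨c, hcA, p, hpE, c', h2', hpc, ?_, ?_⟩
  · intro a ha hac
    rcases lt_trichotomy a p with h | h | h
    · exact Or.inl (h1 a (Finset.mem_filter.mpr ⟨Finset.mem_union_right _ ha, h⟩))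
    · exact absurd (h ▸ hpE) (hdis a ha)
    · right
      have h3 : a ∈ A1 := Finset.mem_filter.mpr ⟨ha, p, hpE, h⟩
      exact lt_of_le_of_ne (A1.min'_le a h3) (Ne.symm hac)
  · intro e he hep
    rcases lt_trichotomy e p with h | h | h
    · exact Or.inl (h1 e (Finset.mem_filter.mpr ⟨Finset.mem_union_left _ he, h⟩))
    · exact absurd h hep
    · right
      by_contra hcon
      have h3 : e ≠ c := fun h' => hdis c hcA (h' ▸ he)
      have h4 : e < c := lt_of_le_of_ne (not_lt.mp hcon) h3
      have h5 : e ∈ E1 := Finset.mem_filter.mpr ⟨he, h4⟩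
      exact absurd (E1.le_max' e h5) (not_le.mpr h)

/-- the potential -/
def pot (E A : Finset ℚ) : ℕ := ∑ a ∈ A, (E.filter (fun e => e < a)).card

theorem pot_lt {E B : Finset ℚ} {c c' p : ℚ} (hc : c ∉ B) (hc' : c' ∉ B) (hp : p ∈ E)
    (h1 : c' < p) (h2 : p < c) : pot E (insert c' B) < pot E (insert c B) := by
  unfold pot
  rw [Finset.sum_insert hc, Finset.sum_insert hc']
  refine Nat.add_lt_add_right (Finset.card_lt_card ?_) _
  rw [Finset.ssubset_iff_of_subset]
  · exact ⟨p, Finset.mem_filter.mpr ⟨hp, h2⟩, fun h => by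
      have := (Finset.mem_filter.mp h).2
      exact absurd h1 (not_lt.mpr this.le)⟩
  · intro e he
    obtain ⟨h3, h4⟩ := Finset.mem_filter.mp he
    exact Finset.mem_filter.mpr ⟨h3, h4.trans (h1.trans h2)⟩

theorem lt2_away {c' c z p : ℚ} (h : Away c' c z) (h1 : c' < p) (h2 : p ≤ c) :
    lt2 z p = lt2 z c := by
  rcases h with h | h
  · rw [lt2, lt2, if_pos (h.trans h1), if_pos (h.trans (h1.trans_le h2))]
  · rw [lt2, lt2, if_neg (not_lt.mpr (h2.trans h.le)), if_neg (not_lt.mpr h.le)]

section

variable {ι : Type} [Fintype ι] [DecidableEq ι]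

/-- the ends of the chords of `V` -/
def ends (pos : ι → ℚ × ℚ) (V : Finset ι) : Finset ℚ :=
  V.image (fun u => (pos u).1) ∪ V.image (fun u => (pos u).2)

theorem mem_ends1 {pos : ι → ℚ × ℚ} {V : Finset ι} {u : ι} (h : u ∈ V) :
    (pos u).1 ∈ ends pos V :=
  Finset.mem_union_left _ (Finset.mem_image_of_mem (fun u => (pos u).1) h)

theorem mem_ends2 {pos : ι → ℚ × ℚ} {V : Finset ι} {u : ι} (h : u ∈ V) :
    (pos u).2 ∈ ends pos V :=
  Finset.mem_union_right _ (Finset.mem_image_of_mem (fun u => (pos u).2) h)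

theorem mem_ends {pos : ι → ℚ × ℚ} {V : Finset ι} {p : ℚ} (h : p ∈ ends pos V) :
    ∃ u ∈ V, ∃ q, EndsOf pos u p q := by
  rcases Finset.mem_union.mp h with h | h
  · obtain ⟨u, hu, rfl⟩ := Finset.mem_image.mp h
    exact ⟨u, hu, (pos u).2, Or.inl rfl⟩
  · obtain ⟨u, hu, rfl⟩ := Finset.mem_image.mp h
    exact ⟨u, hu, (pos u).1, Or.inr rfl⟩

theorem gen_mono {pos : ι → ℚ × ℚ} {V V' : Finset ι} {Z Z' : Finset ℚ} (h : Gen pos V Z)
    (hV : V' ⊆ V) (hZ : ∀ u ∈ V', (pos u).1 ∉ Z' ∧ (pos u).2 ∉ Z') : Gen pos V' Z' :=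
  ⟨fun u hu => h.ne u (hV hu), fun u hu v hv => h.dis u (hV hu) v (hV hv), hZ⟩

theorem not_mem_of_ends {pos : ι → ℚ × ℚ} {V : Finset ι} {Z : Finset ℚ} (h : Gen pos V Z)
    {a : ℚ} (ha : a ∈ Z) : a ∉ ends pos V := by
  intro h'
  rcases Finset.mem_union.mp h' with h'' | h''
  · obtain ⟨u, hu, rfl⟩ := Finset.mem_image.mp h''
    exact (h.out u hu).1 ha
  · obtain ⟨u, hu, rfl⟩ := Finset.mem_image.mp h''
    exact (h.out u hu).2 ha

theorem SS_congr (pos : ι → ℚ × ℚ) (y : ℚ) (V W : Finset ι) (h h' : (ℚ → ZMod 2) → ZMod 2)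
    (hh : ∀ M ∈ V.powerset, h (kap pos y (M ∪ W)) = h' (kap pos y (M ∪ W))) :
    SS pos y V W h = SS pos y V W h' := by
  unfold SS
  exact Finset.sum_congr rfl fun M hM => by rw [hh M hM]


theorem SS_one (hgr : StGr) (pos : ι → ℚ × ℚ) (y : ℚ) (V : Finset ι) (A : Finset ℚ)
    (hG : Gen pos V (insert y A)) (h : (ℚ → ZMod 2) → ZMod 2)
    (hh : ∀ M ∈ V.powerset, h (kap pos y (M ∪ ∅)) = 1) : SS pos y V ∅ h = 1 := by
  have h1 : Gr pos V {y} = 1 := hgr pos V {y} (Finset.singleton_nonempty y)
    (gen_mono hG subset_rfl fun u hu => by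
      have h2 := hG.out u hu
      exact ⟨fun h3 => h2.1 (Finset.mem_insert.mpr (Or.inl (Finset.mem_singleton.mp h3))),
        fun h3 => h2.2 (Finset.mem_insert.mpr (Or.inl (Finset.mem_singleton.mp h3)))⟩)
  have h2 : SS pos y V ∅ h = SS pos y V ∅ (allc (({y} : Finset ℚ).erase y)) := by
    refine SS_congr pos y V ∅ _ _ fun M hM => ?_
    rw [hh M hM]
    simp [allc]
  rw [h2, ← h1]
  unfold R.Gr
  rw [Finset.sum_singleton]

theorem one (hgr : StGr) (pos : ι → ℚ × ℚ) (y : ℚ) (V : Finset ι) (g : ι) (c : ℚ)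
    (hG : Gen pos V (insert y {c})) : Om pos y V g {c} = 1 := by
  unfold R.Om
  have h1 : pairs ({c} : Finset ℚ) = ∅ := by
    unfold pairs
    rw [Finset.filter_eq_empty_iff]
    intro p hp
    obtain ⟨h1, h2⟩ := Finset.mem_product.mp hp
    rw [Finset.mem_singleton] at h1 h2
    rw [h1, h2]; exact lt_irrefl c
  rw [h1, Finset.sum_empty, add_zero]
  refine SS_one hgr pos y V {c} hG _ fun M _ => ?_
  unfold mono
  rw [Finset.prod_singleton, Finset.prod_singleton]
  generalize kap pos y (M ∪ ∅) c = k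
  rw [add_left_comm, self_add, add_zero]

theorem base (hgr : StGr) (hbaseG : StBaseG) (pos : ι → ℚ × ℚ) (y : ℚ) (V : Finset ι) (g : ι)
    (A : Finset ℚ) (hg : g ∉ V) (hA : A.Nonempty) (hG : Gen pos V (insert y A))
    (hy : ∀ a ∈ A, a < y) (h : ∀ a ∈ A, ∀ w ∈ V, a < (pos w).1 ∧ a < (pos w).2) :
    Om pos y V g A = 1 := by
  unfold R.Om
  have h1 : ∑ p ∈ pairs A, SS (Function.update pos g p) y V {g}
      (allc ((A.erase p.1).erase p.2)) = 0 := by
    refine Finset.sum_eq_zero fun p hp => ?_
    unfold pairs at hp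
    obtain ⟨hp1, hp2⟩ := Finset.mem_filter.mp hp
    obtain ⟨hp3, hp4⟩ := Finset.mem_product.mp hp1
    exact hbaseG pos y V g p.1 p.2 _ hg hp2 (hy _ hp4) (h _ hp4)
  rw [h1, add_zero]
  refine SS_one hgr pos y V A hG _ fun M hM => ?_
  have h2 : ∀ a ∈ A, kap pos y (M ∪ ∅) a = 1 := by
    intro a ha
    have e1 : lt2 y a = 0 := if_neg (not_lt.mpr (hy a ha).le)
    have e2 : ∑ m ∈ M ∪ ∅, pt (pos m) a = 0 := by
      refine Finset.sum_eq_zero fun m hm => ?_
      rw [Finset.union_empty] at hm
      have hm' := Finset.mem_powerset.mp hM hm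
      have h3 := h a ha m hm'
      rw [pt, lt2, lt2, if_neg (not_lt.mpr h3.1.le), if_neg (not_lt.mpr h3.2.le), add_zero]
    rw [kap, e1, e2, add_zero, add_zero]
  obtain ⟨a0, ha0⟩ := hA
  unfold mono
  rw [Finset.prod_eq_one h2, Finset.prod_eq_zero ha0 (by rw [h2 a0 ha0]; exact self_add 1),
    add_zero]

end

end Om

open Om in
theorem I_Om (hgr : StGr) (hbaseG : StBaseG) (hslide : StOmSlide) (hslideY : StOmSlideY) :
    StOm := by
  intro ι _ _ pos y V0 g A0 hg0 hA0 hyA0 hG0
  have main : ∀ (N1 N2 N3 : ℕ) (V : Finset ι) (A : Finset ℚ), A.card = N1 → V.card = N2 →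
      pot (insert y (ends pos V)) A = N3 → g ∉ V → A.Nonempty → y ∉ A →
      Gen pos V (insert y A) → Om pos y V g A = 1 := by
    intro N1
    induction N1 using Nat.strong_induction_on with
    | _ N1 ih1 =>
    intro N2
    induction N2 using Nat.strong_induction_on with
    | _ N2 ih2 =>
    intro N3
    induction N3 using Nat.strong_induction_on with
    | _ N3 ih3 =>
    intro V A hN1 hN2 hN3 hg hA hyA hG
    have hyE : y ∉ ends pos V := not_mem_of_ends hG (Finset.mem_insert_self y A)
    have hAE : ∀ a ∈ A, a ∉ ends pos V := fun a ha =>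
      not_mem_of_ends hG (Finset.mem_insert_of_mem ha)
    by_cases hpot : ∃ a ∈ A, ∃ e ∈ insert y (ends pos V), e < a
    · obtain ⟨c, hcA, p, hpE, c', h1, h2, hAw, hEw⟩ := geo (insert y (ends pos V)) A
        (fun a ha h => (Finset.mem_insert.mp h).elim (fun h' => hyA (h' ▸ ha)) (hAE a ha)) hpot
      set B := A.erase c with hB
      have hAB : insert c B = A := Finset.insert_erase hcA
      have hcB : c ∉ B := Finset.notMem_erase c A
      have hBA : B ⊆ A := Finset.erase_subset _ _
      rcases B.eq_empty_or_nonempty with hBe | hBn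
      · rw [← hAB, hBe] at hG ⊢
        exact one hgr pos y V g c hG
      have hBaw : ∀ a ∈ B, Away c' c a := fun a ha =>
        hAw a (Finset.mem_of_mem_erase ha) (Finset.ne_of_mem_erase ha)
      have hc'aw : ¬ Away c' c c' := by
        rintro (h | h)
        · exact lt_irrefl _ h
        · exact absurd (h1.trans h2) (not_lt.mpr h.le)
      have hc'B : c' ∉ B := fun h => hc'aw (hBaw c' h)
      have hyB : y ∉ B := fun h => hyA (hBA h)
      have hcardB : B.card < N1 := by rw [← hN1]; exact Finset.card_erase_lt_of_mem hcA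
      have hcardc : (insert c B).card = N1 := by rw [hAB]; exact hN1
      have hBc : B.card + 1 = N1 := by rw [← hcardc, Finset.card_insert_of_notMem hcB]
      have hcardc' : (insert c' B).card = N1 := by rw [Finset.card_insert_of_notMem hc'B, hBc]
      have hGB : Gen pos V (insert y B) := gen_mono hG subset_rfl fun w hw =>
        ⟨fun h => (hG.out w hw).1 (Finset.insert_subset_insert y hBA h),
          fun h => (hG.out w hw).2 (Finset.insert_subset_insert y hBA h)⟩
      have hc'E : ∀ e ∈ insert y (ends pos V), e ≠ c' := by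
        intro e he h
        by_cases hep : e = p
        · exact h1.ne (h.symm.trans hep)
        · exact hc'aw (h ▸ hEw e he hep)
      have hGc' : Gen pos V (insert y (insert c' B)) := gen_mono hG subset_rfl fun w hw => by
        have g2 := hGB.out w hw
        have key : ∀ e ∈ ends pos V, e ∉ insert y B → e ∉ insert y (insert c' B) := by
          intro e he he2 he3
          rcases Finset.mem_insert.mp he3 with h | h
          · exact he2 (Finset.mem_insert.mpr (Or.inl h))
          rcases Finset.mem_insert.mp h with h | h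
          · exact hc'E e (Finset.mem_insert_of_mem he) h
          · exact he2 (Finset.mem_insert_of_mem h)
        exact ⟨key _ (mem_ends1 hw) g2.1, key _ (mem_ends2 hw) g2.2⟩
      have hyc' : y ≠ c' := hc'E y (Finset.mem_insert_self _ _)
      have hyc'B : y ∉ insert c' B := fun h => (Finset.mem_insert.mp h).elim hyc' hyB
      have iB : Om pos y V g B = 1 := ih1 B.card hcardB V.card _ V B rfl rfl rfl hg hBn hyB hGB
      have last : Om pos y V g (insert c' B) = 1 := by
        refine ih3 (pot (insert y (ends pos V)) (insert c' B)) ?_ V (insert c' B) hcardc' hN2 rfl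
          hg (Finset.insert_nonempty _ _) hyc'B hGc'
        rw [← hN3, ← hAB]
        exact pot_lt hcB hc'B hpE h1 h2
      rw [← hAB, ← last]
      rcases Finset.mem_insert.mp hpE with hpy | hpE'
      · -- the end `p` is the end of the root chord
        rw [hpy] at h1 h2
        have hVaw : ∀ w ∈ V, Away c' c (pos w).1 ∧ Away c' c (pos w).2 := fun w hw =>
          ⟨hEw _ (Finset.mem_insert_of_mem (mem_ends1 hw))
            (fun h => hyE (hpy ▸ h ▸ mem_ends1 hw)),
           hEw _ (Finset.mem_insert_of_mem (mem_ends2 hw))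
            (fun h => hyE (hpy ▸ h ▸ mem_ends2 hw))⟩
        have hGr : Gr pos V B = 1 := hgr pos V B hBn (gen_mono hG subset_rfl fun w hw =>
          ⟨fun h => (hG.out w hw).1 (Finset.mem_insert_of_mem (hBA h)),
            fun h => (hG.out w hw).2 (Finset.mem_insert_of_mem (hBA h))⟩)
        exact hslideY pos y V g B c' c hg hBn h1 h2 hyB hBaw hVaw iB hGr
      · -- the end `p` is an end of the chord `u`
        obtain ⟨u, hu, q, hpq⟩ := mem_ends hpE'
        have hpq' : p ≠ q ∧ q ∈ ends pos V ∧ (∀ w ∈ V, w ≠ u → (pos w).1 ≠ p ∧ (pos w).2 ≠ p ∧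
            (pos w).1 ≠ q ∧ (pos w).2 ≠ q) := by
          have g1 := hG.ne u hu
          have g2 := fun w hw hwu => hG.dis w hw u hu hwu
          rcases hpq with h | h
          · rw [h] at g1
            refine ⟨g1, ?_, fun w hw hwu => ?_⟩
            · have := mem_ends2 (pos := pos) hu; rwa [h] at this
            · have := g2 w hw hwu; rw [h] at this
              exact ⟨this.1, this.2.2.1, this.2.1, this.2.2.2⟩
          · rw [h] at g1
            refine ⟨g1.symm, ?_, fun w hw hwu => ?_⟩
            · have := mem_ends1 (pos := pos) hu; rwa [h] at this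
            · have := g2 w hw hwu; rw [h] at this
              exact ⟨this.2.1, this.2.2.2, this.1, this.2.2.1⟩
        obtain ⟨hpq1, hqE, hoth⟩ := hpq'
        have hqaw : Away c' c q := hEw q (Finset.mem_insert_of_mem hqE) hpq1.symm
        have hyp : y ≠ p := fun h => hyE (h ▸ hpE')
        have hyaw : Away c' c y := hEw y (Finset.mem_insert_self _ _) hyp
        have hVaw : ∀ w ∈ V, w ≠ u → Away c' c (pos w).1 ∧ Away c' c (pos w).2 :=
          fun w hw hwu => ⟨hEw _ (Finset.mem_insert_of_mem (mem_ends1 hw)) (hoth w hw hwu).1,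
            hEw _ (Finset.mem_insert_of_mem (mem_ends2 hw)) (hoth w hw hwu).2.1⟩
        have hqA : q ∉ A := fun h => hAE q h hqE
        have hqB : q ∉ B := fun h => hqA (Finset.mem_of_mem_erase h)
        have hyq : y ≠ q := fun h => hyE (h ▸ hqE)
        have hcardV : (V.erase u).card < N2 := by
          rw [← hN2]; exact Finset.card_erase_lt_of_mem hu
        have hcardq : (insert q B).card = N1 := by
          rw [Finset.card_insert_of_notMem hqB, hBc]
        have hVV : V.erase u ⊆ V := Finset.erase_subset _ _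
        have hgV : g ∉ V.erase u := fun h => hg (hVV h)
        have hGB' : Gen pos (V.erase u) (insert y B) :=
          gen_mono hGB hVV fun w hw => hGB.out w (hVV hw)
        have hGc : Gen pos (V.erase u) (insert y (insert c B)) := by
          rw [hAB]; exact gen_mono hG hVV fun w hw => hG.out w (hVV hw)
        have hGq : Gen pos (V.erase u) (insert y (insert q B)) :=
          gen_mono hG hVV fun w hw => by
            have g1 := hoth w (hVV hw) (Finset.ne_of_mem_erase hw)
            have g2 := hGB.out w (hVV hw)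
            have key : ∀ e, e ≠ q → e ∉ insert y B → e ∉ insert y (insert q B) := by
              intro e he he2 he3
              rcases Finset.mem_insert.mp he3 with h | h
              · exact he2 (Finset.mem_insert.mpr (Or.inl h))
              rcases Finset.mem_insert.mp h with h | h
              · exact he h
              · exact he2 (Finset.mem_insert_of_mem h)
            exact ⟨key _ g1.2.2.1 g2.1, key _ g1.2.2.2 g2.2⟩
        have hyq' : y ∉ insert q B := fun h => (Finset.mem_insert.mp h).elim hyq hyB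
        have hyc : y ∉ insert c B := by rw [hAB]; exact hyA
        exact hslide pos y V g u B c' c p q hg hBn hu hpq h1 h2 hqaw hyaw hyB hBaw hGB hVaw iB
          (ih1 B.card hcardB _ _ (V.erase u) B rfl rfl rfl hgV hBn hyB hGB')
          (ih2 _ hcardV _ (V.erase u) (insert c B) hcardc rfl rfl hgV
            (Finset.insert_nonempty _ _) hyc hGc)
          (ih2 _ hcardV _ (V.erase u) (insert q B) hcardq rfl rfl hgV
            (Finset.insert_nonempty _ _) hyq' hGq)
    · push Not at hpot
      refine base hgr hbaseG pos y V g A hg hA hG (fun a ha => ?_) fun a ha w hw => ⟨?_, ?_⟩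
      · exact lt_of_le_of_ne (hpot a ha y (Finset.mem_insert_self _ _)) fun h => hyA (h ▸ ha)
      · exact lt_of_le_of_ne (hpot a ha _ (Finset.mem_insert_of_mem (mem_ends1 hw)))
          fun h => hAE a ha (h ▸ mem_ends1 hw)
      · exact lt_of_le_of_ne (hpot a ha _ (Finset.mem_insert_of_mem (mem_ends2 hw)))
          fun h => hAE a ha (h ▸ mem_ends2 hw)
  exact main _ _ _ V0 A0 rfl rfl rfl hg0 hA0 hyA0 hG0

end Pool.Agent.Work.MP_7794fd_co.R
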