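import Pool.Agent.Work.MP_7794fd_co.R.Stmts

/-! Item OmInsert: adding a point to the set of attachments. -/

set_option autoImplicit false

namespace Pool.Agent.Work.MP_7794fd_co.R

open Finset Matrix

namespace OmInsert

lemma mono_insert (A : Finset ℚ) (c : ℚ) (hc : c ∉ A) :
    mono (insert c A) = fun κ : ℚ → ZMod 2 =>
      κ c * (∏ a ∈ A, κ a) + (1 + κ c) * ∏ a ∈ A, (1 + κ a) := by
  funext κ
  unfold mono
  rw [Finset.prod_insert hc, Finset.prod_insert hc]

lemma allc_insert (A : Finset ℚ) (c : ℚ) (hc : c ∉ A) :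
    allc (insert c A) = fun κ : ℚ → ZMod 2 => κ c * allc A κ := by
  funext κ
  unfold allc
  rw [Finset.prod_insert hc]

lemma sum_pairs (A : Finset ℚ) (F : ℚ × ℚ → ZMod 2) :
    ∑ p ∈ pairs A, F p = ∑ a ∈ A, ∑ b ∈ A, if a < b then F (a, b) else 0 := by
  unfold pairs
  rw [Finset.sum_filter, Finset.sum_product]

lemma sum_pairs_insert (A : Finset ℚ) (c : ℚ) (hc : c ∉ A) (F : ℚ × ℚ → ZMod 2) :
    ∑ p ∈ pairs (insert c A), F p = ∑ p ∈ pairs A, F p +
      ∑ r ∈ A, if r < c then F (r, c) else F (c, r) := by
  rw [sum_pairs, sum_pairs, Finset.sum_insert hc, Finset.sum_insert hc, if_neg (lt_irrefl c),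
    zero_add]
  have h1 : ∀ a ∈ A, (∑ b ∈ insert c A, if a < b then F (a, b) else 0) =
      (if a < c then F (a, c) else 0) + ∑ b ∈ A, if a < b then F (a, b) else 0 := by
    intro a _
    rw [Finset.sum_insert hc]
  rw [Finset.sum_congr rfl h1, Finset.sum_add_distrib, ← add_assoc, ← Finset.sum_add_distrib,
    add_comm]
  congr 1
  apply Finset.sum_congr rfl
  intro r hr
  have hne : r ≠ c := fun h => hc (h ▸ hr)
  rcases lt_or_gt_of_ne hne with h | h
  · rw [if_neg (not_lt.2 h.le), if_pos h, if_pos h, zero_add]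
  · rw [if_pos h, if_neg (not_lt.2 h.le), if_neg (not_lt.2 h.le), add_zero]

end OmInsert

open OmInsert in
theorem I_OmInsert (hsw : StSwap) (hlin : StLin) : StOmInsert := by
  intro ι _ _ pos y V g A c hg hA hc
  unfold Om
  rw [mono_insert A c hc, sum_pairs_insert A c hc, add_assoc]
  congr 2
  · apply Finset.sum_congr rfl
    intro p hp
    have hp1 : p.1 ∈ A := (Finset.mem_product.1 (Finset.mem_filter.1 hp).1).1
    have hp2 : p.2 ∈ A := (Finset.mem_product.1 (Finset.mem_filter.1 hp).1).2
    have h1 : c ≠ p.1 := fun h => hc (h ▸ hp1)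
    have h2 : c ≠ p.2 := fun h => hc (h ▸ hp2)
    rw [Finset.erase_insert_of_ne h1, Finset.erase_insert_of_ne h2, allc_insert]
    intro h
    exact hc (Finset.mem_of_mem_erase (Finset.mem_of_mem_erase h))
  · apply Finset.sum_congr rfl
    intro r hr
    have hne : c ≠ r := fun h => hc (h ▸ hr)
    have hcr : c ∉ A.erase r := fun h => hc (Finset.mem_of_mem_erase h)
    split_ifs with h
    · show SS (Function.update pos g (r, c)) y V {g} (allc (((insert c A).erase r).erase c)) = _
      rw [Finset.erase_insert_of_ne hne, Finset.erase_insert hcr]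
    · show SS (Function.update pos g (c, r)) y V {g} (allc (((insert c A).erase c).erase r)) = _
      rw [Finset.erase_insert hc]
      apply hsw
      intro u _
      by_cases hu : u = g
      · subst hu
        right
        rw [Function.update_self, Function.update_self]
        rfl
      · left
        rw [Function.update_of_ne hu, Function.update_of_ne hu]

end Pool.Agent.Work.MP_7794fd_co.R
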