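import Pool.Agent.Work.MP_7794fd_co.R.Stmts

/-! Project MP_7794fd_co, module R, item OmSlide: moving a point of `A` over an end of a free
chord. -/

set_option autoImplicit false

namespace Pool.Agent.Work.MP_7794fd_co.R

open Finset Matrix

namespace OmSlide

variable {ι : Type} [Fintype ι] [DecidableEq ι]

theorem two0 : (2 : ZMod 2) = 0 := by decide

theorem ss_congr (pos : ι → ℚ × ℚ) (y : ℚ) (V W : Finset ι) (h h' : (ℚ → ZMod 2) → ZMod 2)
    (hyp : ∀ M ∈ V.powerset, h (kap pos y (M ∪ W)) = h' (kap pos y (M ∪ W))) :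
    SS pos y V W h = SS pos y V W h' :=
  Finset.sum_congr rfl (fun M hM => by rw [hyp M hM])

theorem ss_add (pos : ι → ℚ × ℚ) (y : ℚ) (V W : Finset ι) (h₁ h₂ : (ℚ → ZMod 2) → ZMod 2) :
    SS pos y V W (fun κ => h₁ κ + h₂ κ) = SS pos y V W h₁ + SS pos y V W h₂ := by
  unfold SS
  rw [← Finset.sum_add_distrib]
  exact Finset.sum_congr rfl (fun M _ => by ring)

theorem lt2_away {c' c p z : ℚ} (h : Away c' c z) (h1 : c' < p) (h2 : p < c) :
    lt2 z p = lt2 z c := by
  unfold lt2
  rcases h with h | h
  · rw [if_pos (h.trans h1), if_pos (h.trans (h1.trans h2))]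
  · rw [if_neg (by linarith), if_neg (by linarith)]

omit [Fintype ι] [DecidableEq ι] in
theorem kap_eq (pos : ι → ℚ × ℚ) (y : ℚ) (N : Finset ι) {c' c p : ℚ} (h1 : c' < p) (h2 : p < c)
    (hy : Away c' c y) (hN : ∀ w ∈ N, Away c' c (pos w).1 ∧ Away c' c (pos w).2) :
    kap pos y N p = kap pos y N c := by
  unfold kap
  rw [lt2_away hy h1 h2]
  congr 1
  refine Finset.sum_congr rfl (fun m hm => ?_)
  unfold pt
  rw [lt2_away (hN m hm).1 h1 h2, lt2_away (hN m hm).2 h1 h2]

theorem step (hsplit : StSplit) (hpoint : StPoint) (pos : ι → ℚ × ℚ) (y : ℚ) (V W : Finset ι)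
    (u : ι) (c' c p q : ℚ) (h : (ℚ → ZMod 2) → ZMod 2) (hu : u ∈ V) (hd : Disjoint V W)
    (he : EndsOf pos u p q) (h1 : c' < p) (h2 : p < c) (hq : Away c' c q) (hy : Away c' c y)
    (hw : ∀ w ∈ V ∪ W, w ≠ u → Away c' c (pos w).1 ∧ Away c' c (pos w).2) :
    SS pos y V W (fun κ => κ c * h κ) + SS pos y V W (fun κ => κ c' * h κ) =
      SS pos y V W h + SS pos y (V.erase u) W h +
        SS pos y (V.erase u) W (fun κ => κ c * h κ) +
        SS pos y (V.erase u) W (fun κ => κ q * h κ) := by
  have huW : u ∉ W := fun hc => (Finset.disjoint_left.mp hd hu hc)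
  have e1 := hpoint pos y V W u c' c p q h hu hd he h1 h2 hq hy hw
  have e2 := hsplit pos y V W u h hu hd
  have e3 : SS pos y V W (fun κ => (κ c + κ c') * h κ) =
      SS pos y V W (fun κ => κ c * h κ) + SS pos y V W (fun κ => κ c' * h κ) := by
    rw [← ss_add]
    exact ss_congr _ _ _ _ _ _ (fun M _ => by ring)
  have e4 : SS pos y (V.erase u) W (fun κ => (1 + κ (pos u).1 + κ (pos u).2) * h κ) =
      SS pos y (V.erase u) W h + SS pos y (V.erase u) W (fun κ => κ c * h κ) +
        SS pos y (V.erase u) W (fun κ => κ q * h κ) := by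
    rw [← ss_add, ← ss_add]
    refine ss_congr _ _ _ _ _ _ (fun M hM => ?_)
    have hk : kap pos y (M ∪ W) p = kap pos y (M ∪ W) c := by
      refine kap_eq pos y (M ∪ W) h1 h2 hy (fun w hw' => ?_)
      rcases Finset.mem_union.mp hw' with hw1 | hw1
      · have := Finset.mem_erase.mp (Finset.mem_powerset.mp hM hw1)
        exact hw w (Finset.mem_union_left _ this.2) this.1
      · exact hw w (Finset.mem_union_right _ hw1) (fun hc => huW (hc ▸ hw1))
    rcases he with he | he
    · rw [he]
      simp only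
      rw [hk]
      ring
    · rw [he]
      simp only
      rw [hk]
      ring
  linear_combination (-1 : ZMod 2) * e3 + e1 - e2 + e4 -
    (SS pos y (V.erase u) W (fun κ => (1 + κ (pos u).1 + κ (pos u).2) * h κ)) * two0

theorem fin {a1 a2 s1 s2 u1 u2 m m0 mc mq t t0 tc tq v1 v2 Q Q0 : ZMod 2}
    (g1 : a1 + a2 = m + m0 + mc + mq) (g2 : s1 + s2 = t + t0 + tc + tq) (g3 : u1 + u2 = v1 + v2)
    (h : m + t = 1) (h0 : m0 + t0 = 1) (hc : 1 = mc + Q0 + tc + v1) (hq : 1 = mq + Q0 + tq + v2) :
    a1 + Q + s1 + u1 = a2 + Q + s2 + u2 := by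
  linear_combination g1 + g2 + g3 + h + h0 - hc - hq + (2 - a2 - s2 - u2 - Q0) * two0

end OmSlide

open OmSlide in
/-- Item 16: moving a point of `A` over an end of a free chord. -/
theorem I_OmSlide (hins : StOmInsert) (hlin : StLin) (hsplit : StSplit) (hpoint : StPoint)
    (hchord : StChord) : StOmSlide := by
  intro ι _ _ pos y V g u A c' c p q hg hA hu he h1 h2 hq hy hyA hAa hgen hw hOm hOm0 hOmc hOmq
  have _hl : StLin := @hlin
  have hgu : g ≠ u := fun h => hg (h ▸ hu)
  have hc'c : c' < c := h1.trans h2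
  have hcA : c ∉ A := fun h => by
    rcases hAa c h with h' | h' <;> linarith
  have hc'A : c' ∉ A := fun h => by
    rcases hAa c' h with h' | h' <;> linarith
  have hqA : q ∉ A := by
    intro h
    rcases he with he | he
    · have := (hgen.out u hu).2
      rw [he] at this
      exact this (Finset.mem_insert_of_mem h)
    · have := (hgen.out u hu).1
      rw [he] at this
      exact this (Finset.mem_insert_of_mem h)
  have hg0 : g ∉ V.erase u := fun h => hg (Finset.mem_of_mem_erase h)
  -- the sums of the insertions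
  have ec := hins pos y V g A c hg hA hcA
  have ec' := hins pos y V g A c' hg hA hc'A
  have ec0 := hins pos y (V.erase u) g A c hg0 hA hcA
  have eq0 := hins pos y (V.erase u) g A q hg0 hA hqA
  -- the first terms
  have f1 : ∀ (U : Finset ι) (t : ℚ),
      SS pos y U ∅ (fun κ => κ t * (∏ a ∈ A, κ a) + (1 + κ t) * ∏ a ∈ A, (1 + κ a)) =
        SS pos y U ∅ (fun κ => κ t * mono A κ) +
          SS pos y U ∅ (fun κ => ∏ a ∈ A, (1 + κ a)) := by
    intro U t
    rw [← ss_add]
    refine ss_congr _ _ _ _ _ _ (fun M _ => ?_)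
    unfold mono
    ring
  have g1 := step hsplit hpoint pos y V ∅ u c' c p q (mono A) hu (by simp) he h1 h2 hq hy
    (fun w hw' hne => hw w (by simpa using hw') hne)
  -- the second terms
  have g2 : ∀ r ∈ pairs A,
      SS (Function.update pos g r) y V {g} (fun κ => κ c * allc ((A.erase r.1).erase r.2) κ) +
        SS (Function.update pos g r) y V {g} (fun κ => κ c' * allc ((A.erase r.1).erase r.2) κ) =
      SS (Function.update pos g r) y V {g} (allc ((A.erase r.1).erase r.2)) +
        SS (Function.update pos g r) y (V.erase u) {g} (allc ((A.erase r.1).erase r.2)) +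
        SS (Function.update pos g r) y (V.erase u) {g}
          (fun κ => κ c * allc ((A.erase r.1).erase r.2) κ) +
        SS (Function.update pos g r) y (V.erase u) {g}
          (fun κ => κ q * allc ((A.erase r.1).erase r.2) κ) := by
    intro r hr
    have hr' := Finset.mem_product.mp (Finset.mem_filter.mp hr).1
    refine step hsplit hpoint (Function.update pos g r) y V {g} u c' c p q _ hu
      (Finset.disjoint_singleton_right.mpr hg) ?_ h1 h2 hq hy ?_
    · unfold EndsOf
      rw [Function.update_of_ne hgu.symm]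
      exact he
    · intro w hw' hne
      rcases Finset.mem_union.mp hw' with hw1 | hw1
      · have hwg : w ≠ g := fun h => hg (h ▸ hw1)
        rw [Function.update_of_ne hwg]
        exact hw w hw1 hne
      · rw [Finset.mem_singleton] at hw1
        rw [hw1, Function.update_self]
        exact ⟨hAa _ hr'.1, hAa _ hr'.2⟩
  have G2 := Finset.sum_congr (rfl : pairs A = pairs A) g2
  rw [Finset.sum_add_distrib, Finset.sum_add_distrib, Finset.sum_add_distrib,
    Finset.sum_add_distrib] at G2
  -- the third terms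
  have g3 : ∀ r ∈ A,
      SS (Function.update pos g (r, c)) y V {g} (allc (A.erase r)) +
        SS (Function.update pos g (r, c')) y V {g} (allc (A.erase r)) =
      SS (Function.update pos g (r, c)) y (V.erase u) {g} (allc (A.erase r)) +
        SS (Function.update pos g (r, q)) y (V.erase u) {g} (allc (A.erase r)) := by
    intro r hr
    refine hchord pos y V g u r c' c p q (allc (A.erase r)) hg hu he h1 h2 hq hy (hAa r hr)
      (fun h => hqA (h ▸ hr)) hw ?_
    intro κ₁ κ₂ hk
    unfold allc
    exact Finset.prod_congr rfl (fun a ha => hk a (hAa a (Finset.mem_of_mem_erase ha)))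
  have G3 := Finset.sum_congr (rfl : A = A) g3
  rw [Finset.sum_add_distrib, Finset.sum_add_distrib] at G3
  rw [f1] at ec ec' ec0 eq0
  rw [hOmc] at ec0
  rw [hOmq] at eq0
  unfold Om at hOm hOm0
  rw [ec, ec']
  exact fin g1 G2 G3 hOm hOm0 ec0 eq0

end Pool.Agent.Work.MP_7794fd_co.R
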