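import Pool.Agent.Work.MP_7794fd_co.R.Stmts

/-! Moving a point of `A` over the end of the root chord. -/

set_option autoImplicit false

namespace Pool.Agent.Work.MP_7794fd_co.R

open Finset Matrix

namespace OmSlideY

theorem two0 : (2 : ZMod 2) = 0 := by decide

theorem self0 (a : ZMod 2) : a + a = 0 := by
  have : (2 : ZMod 2) * a = 0 := by rw [two0, zero_mul]
  linear_combination this

theorem not_mem_of_away {A : Finset ℚ} {c' c z : ℚ} (hAw : ∀ a ∈ A, Away c' c a)
    (h1 : c' ≤ z) (h2 : z ≤ c) : z ∉ A := by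
  intro h
  rcases hAw z h with h | h <;> linarith

theorem indep_allc {A : Finset ℚ} {c' c : ℚ} (hAw : ∀ a ∈ A, Away c' c a) (r : ℚ) :
    Indep c' c (allc (A.erase r)) := by
  intro κ₁ κ₂ h
  unfold allc
  refine Finset.prod_congr rfl ?_
  intro a ha
  exact h a (hAw a (Finset.mem_of_mem_erase ha))

theorem lin2 (hlin : StLin) {ι : Type} [Fintype ι] [DecidableEq ι] (pos : ι → ℚ × ℚ) (y : ℚ)
    (V W : Finset ι) (h₁ h₂ h₃ : (ℚ → ZMod 2) → ZMod 2) (h : ∀ κ, h₃ κ = h₁ κ + h₂ κ) :
    SS pos y V W h₁ + SS pos y V W h₂ = SS pos y V W h₃ :=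
  (hlin pos y V W h₁ h₂ h₃ (fun _ _ => h _)).symm

end OmSlideY

open OmSlideY in
theorem I_OmSlideY (hins : StOmInsert) (hlin : StLin) (hpointY : StPointY) (hchordY : StChordY) :
    StOmSlideY := by
  intro ι _ _ pos y V g A c' c hg hA hc'y hyc _ hAw hV hOm hGr
  have hcA : c ∉ A := not_mem_of_away hAw (by linarith) le_rfl
  have hc'A : c' ∉ A := not_mem_of_away hAw le_rfl (by linarith)
  have hV0 : ∀ w ∈ V ∪ (∅ : Finset ι), Away c' c (pos w).1 ∧ Away c' c (pos w).2 := by
    intro w hw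
    rw [Finset.union_empty] at hw
    exact hV w hw
  have e1 : SS pos y V ∅ (fun κ => κ c * (∏ a ∈ A, κ a) + (1 + κ c) * ∏ a ∈ A, (1 + κ a))
      + SS pos y V ∅ (fun κ => κ c' * (∏ a ∈ A, κ a) + (1 + κ c') * ∏ a ∈ A, (1 + κ a))
      = SS pos y V ∅ (mono A) := by
    rw [lin2 hlin pos y V ∅ _ _ (fun κ => (κ c + κ c') * mono A κ) (fun κ => ?_)]
    · exact hpointY pos y V ∅ c' c (mono A) hc'y hyc hV0
    · unfold mono
      linear_combination (-(∏ a ∈ A, (1 + κ a))) * two0
  have e2 : (∑ p ∈ pairs A, SS (Function.update pos g p) y V {g}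
        (fun κ => κ c * allc ((A.erase p.1).erase p.2) κ))
      + (∑ p ∈ pairs A, SS (Function.update pos g p) y V {g}
        (fun κ => κ c' * allc ((A.erase p.1).erase p.2) κ))
      = ∑ p ∈ pairs A, SS (Function.update pos g p) y V {g} (allc ((A.erase p.1).erase p.2)) := by
    rw [← Finset.sum_add_distrib]
    refine Finset.sum_congr rfl ?_
    intro p hp
    have hp' := Finset.mem_filter.1 hp
    have hpA := Finset.mem_product.1 hp'.1
    rw [lin2 hlin _ y V {g} _ _
      (fun κ => (κ c + κ c') * allc ((A.erase p.1).erase p.2) κ) (fun κ => by ring)]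
    refine hpointY _ y V {g} c' c _ hc'y hyc ?_
    intro w hw
    rcases Finset.mem_union.1 hw with hw | hw
    · have hne : w ≠ g := fun h => hg (h ▸ hw)
      rw [Function.update_of_ne hne]
      exact hV w hw
    · rw [Finset.mem_singleton.1 hw, Function.update_self]
      exact ⟨hAw _ hpA.1, hAw _ hpA.2⟩
  have e3 : (∑ r ∈ A, SS (Function.update pos g (r, c)) y V {g} (allc (A.erase r)))
      + (∑ r ∈ A, SS (Function.update pos g (r, c')) y V {g} (allc (A.erase r))) = Gr pos V A := by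
    rw [← Finset.sum_add_distrib]
    unfold Gr
    refine Finset.sum_congr rfl ?_
    intro r hr
    exact hchordY pos y V g r c' c _ hg hc'y hyc (hAw r hr) hV (indep_allc hAw r)
  have hOm' : SS pos y V ∅ (mono A) + (∑ p ∈ pairs A, SS (Function.update pos g p) y V {g}
      (allc ((A.erase p.1).erase p.2))) = 1 := hOm
  rw [hins pos y V g A c hg hA hcA, hins pos y V g A c' hg hA hc'A]
  have key : ∀ a a' b b' d d' m s G : ZMod 2, a + a' = m → b + b' = s → d + d' = G → m + s = 1 →
      G = 1 → a + b + d = a' + b' + d' := by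
    intro a a' b b' d d' m s G h1 h2 h3 h4 h5
    have t := two0
    linear_combination h1 + h2 + h3 + h4 + h5 + (1 - a' - b' - d') * t
  exact key _ _ _ _ _ _ _ _ _ e1 e2 e3 hOm' hGr

end Pool.Agent.Work.MP_7794fd_co.R
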