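import Pool.Agent.Work.MP_7794fd_co.R.Stmts

/-! MP_7794fd_co, module R, item 25: the union of the paths of a good pairing exists. -/

set_option autoImplicit false

namespace Pool.Agent.Work.MP_7794fd_co.R

open Finset Matrix

namespace Paths

set_option linter.unusedSectionVars false

variable {V E : Type} [Fintype V] [DecidableEq V] [Fintype E] [DecidableEq E] (G : MG V E)

lemma deg_ne_zero {X : Finset E} {v : V} : deg G X v ≠ 0 ↔ ∃ e ∈ X, v ∈ G.ends e := by
  unfold deg
  rw [Finset.card_ne_zero]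
  constructor
  · rintro ⟨e, he⟩
    exact ⟨e, (Finset.mem_filter.1 he).1, (Finset.mem_filter.1 he).2⟩
  · rintro ⟨e, he, hv⟩
    exact ⟨e, Finset.mem_filter.2 ⟨he, hv⟩⟩

lemma mem_verts {X : Finset E} {v : V} : v ∈ verts G X ↔ deg G X v ≠ 0 := by
  rw [deg_ne_zero]; rfl

lemma linked_mono {W : Set V} {X Y : Finset E} (h : X ⊆ Y) {a b : E} (hl : Linked G W X a b) :
    Linked G W Y a b := by
  induction hl with
  | refl => exact Relation.ReflTransGen.refl
  | tail _ hs ih => exact Relation.ReflTransGen.tail ih ⟨h hs.1, h hs.2.1, hs.2.2⟩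

/-- the abstract form: a family of paths which is pairwise disjoint at every vertex -/
lemma main (C P : Finset E) (n : ℕ) (f : ℕ → V) (pr : ℕ → ℕ) (H : ℕ → Finset E)
    (hlt : ∀ i < n, pr i < n) (hinv : ∀ i < n, pr (pr i) = i)
    (h0 : 0 < n) (h0' : 0 < pr 0) (hP : H 0 = P)
    (H1 : ∀ i < n, i < pr i → Disjoint C (H i))
    (H2 : ∀ i < n, i < pr i → ∀ k < n, deg G (H i) (f k) = if k = i ∨ k = pr i then 1 else 0)
    (H3 : ∀ i < n, i < pr i → ∀ z, z ∉ verts G C → deg G (H i) z = 0 ∨ deg G (H i) z = 2)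
    (H4 : ∀ i < n, i < pr i → ∀ a ∈ H i, ∀ b ∈ H i, Linked G Set.univ (H i) a b)
    (H5 : ∀ i < n, i < pr i → ∀ j < n, j < pr j → i ≠ j → ∀ z,
      deg G (H i) z = 0 ∨ deg G (H j) z = 0) :
    IsQ G C P n f pr (((range n).filter (fun i => i < pr i)).biUnion H) := by
  set T := (range n).filter (fun i => i < pr i) with hT
  have hmem : ∀ i, i ∈ T ↔ i < n ∧ i < pr i := by
    intro i; rw [hT, Finset.mem_filter, Finset.mem_range]
  have hsub : ∀ i ∈ T, H i ⊆ T.biUnion H := fun i hi => Finset.subset_biUnion_of_mem H hi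
  have hA : ∀ i ∈ T, ∀ z, deg G (H i) z ≠ 0 → ∀ e ∈ T.biUnion H, z ∈ G.ends e → e ∈ H i := by
    intro i hi z hz e he hze
    obtain ⟨j, hj, hej⟩ := Finset.mem_biUnion.1 he
    by_cases hij : i = j
    · rw [hij]; exact hej
    · exfalso
      have hi' := (hmem i).1 hi
      have hj' := (hmem j).1 hj
      rcases H5 i hi'.1 hi'.2 j hj'.1 hj'.2 hij z with h | h
      · exact hz h
      · exact (deg_ne_zero G).2 ⟨e, hej, hze⟩ h
  have hA' : ∀ i ∈ T, ∀ z, deg G (H i) z ≠ 0 → deg G (T.biUnion H) z = deg G (H i) z := by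
    intro i hi z hz
    have : (T.biUnion H).filter (fun e => z ∈ G.ends e) = (H i).filter (fun e => z ∈ G.ends e) := by
      ext e
      rw [Finset.mem_filter, Finset.mem_filter]
      exact ⟨fun h => ⟨hA i hi z hz e h.1 h.2, h.2⟩, fun h => ⟨hsub i hi h.1, h.2⟩⟩
    unfold deg
    rw [this]
  have hB : ∀ z, (∀ i ∈ T, deg G (H i) z = 0) → deg G (T.biUnion H) z = 0 := by
    intro z hz
    by_contra hne
    obtain ⟨e, he, hze⟩ := (deg_ne_zero G).1 hne
    obtain ⟨j, hj, hej⟩ := Finset.mem_biUnion.1 he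
    exact (deg_ne_zero G).2 ⟨e, hej, hze⟩ (hz j hj)
  -- the representative of a pair
  have hrep : ∀ k < n, pr k ≠ k → ∃ i ∈ T, (k = i ∨ k = pr i) ∧ (pr k = i ∨ pr k = pr i) := by
    intro k hk hne
    rcases lt_or_gt_of_ne hne with h | h
    · refine ⟨pr k, (hmem _).2 ⟨hlt k hk, ?_⟩, Or.inr (hinv k hk).symm, Or.inl rfl⟩
      rw [hinv k hk]; exact h
    · exact ⟨k, (hmem _).2 ⟨hk, h⟩, Or.inl rfl, Or.inr rfl⟩
  refine ⟨?_, ?_, ?_, ?_, ?_, ?_⟩
  · rw [← hP]; exact hsub 0 ((hmem 0).2 ⟨h0, h0'⟩)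
  · rw [Finset.disjoint_biUnion_right]
    intro i hi
    exact H1 i ((hmem i).1 hi).1 ((hmem i).1 hi).2
  · intro k hk
    by_cases hne : pr k = k
    · rw [if_pos hne]
      apply hB
      intro i hi
      have hi' := (hmem i).1 hi
      rw [H2 i hi'.1 hi'.2 k hk, if_neg]
      rintro (h | h)
      · rw [h] at hne; omega
      · rw [h, hinv i hi'.1] at hne; omega
    · rw [if_neg hne]
      obtain ⟨i, hi, h1, -⟩ := hrep k hk hne
      have hi' := (hmem i).1 hi
      have h2 : deg G (H i) (f k) = 1 := by rw [H2 i hi'.1 hi'.2 k hk, if_pos h1]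
      rw [hA' i hi (f k) (by rw [h2]; exact one_ne_zero), h2]
  · intro z hz
    by_cases h : ∀ i ∈ T, deg G (H i) z = 0
    · exact Or.inl (hB z h)
    · push Not at h
      obtain ⟨i, hi, hne⟩ := h
      rw [hA' i hi z hne]
      exact H3 i ((hmem i).1 hi).1 ((hmem i).1 hi).2 z hz
  · intro k hk hne a ha b hb hfa hfb
    obtain ⟨i, hi, h1, h1'⟩ := hrep k hk hne
    have hi' := (hmem i).1 hi
    have h2 : deg G (H i) (f k) = 1 := by rw [H2 i hi'.1 hi'.2 k hk, if_pos h1]
    have h3 : deg G (H i) (f (pr k)) = 1 := by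
      rw [H2 i hi'.1 hi'.2 (pr k) (hlt k hk), if_pos h1']
    have ha' := hA i hi (f k) (by rw [h2]; exact one_ne_zero) a ha hfa
    have hb' := hA i hi (f (pr k)) (by rw [h3]; exact one_ne_zero) b hb hfb
    exact linked_mono G (hsub i hi) (H4 i hi'.1 hi'.2 a ha' b hb')
  · intro a ha
    obtain ⟨i, hi, hai⟩ := Finset.mem_biUnion.1 ha
    have hi' := (hmem i).1 hi
    have h2 : deg G (H i) (f i) = 1 := by rw [H2 i hi'.1 hi'.2 i hi'.1, if_pos (Or.inl rfl)]
    obtain ⟨b, hb, hfb⟩ := (deg_ne_zero G).1 (show deg G (H i) (f i) ≠ 0 by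
      rw [h2]; exact one_ne_zero)
    exact ⟨i, hi'.1, by omega, b, hsub i hi hb, hfb,
      linked_mono G (hsub i hi) (H4 i hi'.1 hi'.2 a hai b hb)⟩

end Paths

theorem I_Paths (hb : StBridgePath) : StPaths := by
  intro V E _ _ _ _ G C P x y hcub hC hP n f c iy pr col hcyc hf0 hiy0 hiyn hfiy hg
  have hn0 : 0 < n := by omega
  have hpry : pr iy = 0 := by rw [← hg.root]; exact hg.inv 0 hn0
  have hfC : ∀ k < n, f k ∈ verts G C := fun k hk => (hcyc.memf _).2 ⟨k, hk, rfl⟩
  have hfCP : ∀ k < n, f k ∈ verts G (C ∪ P) := by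
    intro k hk
    obtain ⟨e, he, hv⟩ := hfC k hk
    exact ⟨e, Finset.mem_union_left _ he, hv⟩
  have hPCP : ∀ z, z ∈ verts G P → z ∈ verts G (C ∪ P) := by
    rintro z ⟨e, he, hv⟩
    exact ⟨e, Finset.mem_union_right _ he, hv⟩
  -- facts on the smaller elements
  have hsm : ∀ i, 0 < i → i < n → i < pr i → i ≠ iy ∧ pr i < n ∧ pr i ≠ iy ∧ 0 < pr i := by
    intro i h0 hi hlt
    refine ⟨?_, hg.lt i hi, ?_, by omega⟩
    · rintro rfl; omega
    · intro h
      have := hg.inv i hi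
      rw [h, hpry] at this
      omega
  have hex : ∀ i, ∃ F : Finset E, (0 < i → i < n → i < pr i →
      Disjoint C F ∧ deg G F (f i) = 1 ∧ deg G F (f (pr i)) = 1 ∧
      (∀ z ∈ verts G (C ∪ P), z ≠ f i → z ≠ f (pr i) → deg G F z = 0) ∧
      (∀ z, z ∉ verts G (C ∪ P) → deg G F z = 0 ∨ deg G F z = 2) ∧
      (∀ z, z ∉ verts G (C ∪ P) → deg G F z ≠ 0 → f i ∈ att G C P z ∧ f (pr i) ∈ att G C P z) ∧
      (∀ a ∈ F, ∀ b ∈ F, Linked G Set.univ F a b)) ∧ (i = 0 → F = P) := by
    intro i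
    by_cases h : 0 < i ∧ i < n ∧ i < pr i
    · obtain ⟨h0, hi, hlt⟩ := h
      obtain ⟨h1, h2, h3, h4⟩ := hsm i h0 hi hlt
      have hne : f i ≠ f (pr i) := by
        intro he
        have := hcyc.injf i hi (pr i) h2 he
        omega
      obtain ⟨F, hF⟩ := hb G C P x y hcub hC hP (f i) (f (pr i)) (hfC i hi) (hfC _ h2) hne
        (hg.rel i h0 hi h1 (by omega))
      exact ⟨F, fun _ _ _ => hF, fun h => by omega⟩
    · exact ⟨P, fun h0 hi hlt => (h ⟨h0, hi, hlt⟩).elim, fun _ => rfl⟩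
  choose H hH hH0 using hex
  have hH0' : H 0 = P := hH0 0 rfl
  -- degree of `P` on `C`
  have hPd : ∀ k < n, deg G P (f k) = if k = 0 ∨ k = pr 0 then 1 else 0 := by
    intro k hk
    rw [hg.root]
    by_cases h1 : k = 0
    · rw [if_pos (Or.inl h1), h1, hf0]; exact hP.degx
    · by_cases h2 : k = iy
      · rw [if_pos (Or.inr h2), h2, hfiy]; exact hP.degy
      · rw [if_neg (by tauto)]
        refine hP.degC _ (hfC k hk) ?_ ?_
        · rw [← hf0]
          intro he
          exact h1 (hcyc.injf k hk 0 hn0 he)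
        · rw [← hfiy]
          intro he
          exact h2 (hcyc.injf k hk iy hiyn he)
  have hFd : ∀ i, 0 < i → i < n → i < pr i → ∀ k < n,
      deg G (H i) (f k) = if k = i ∨ k = pr i then 1 else 0 := by
    intro i h0 hi hlt k hk
    obtain ⟨-, h2, h3, h4, -⟩ := hH i h0 hi hlt
    by_cases h1 : k = i
    · rw [if_pos (Or.inl h1), h1]; exact h2
    · by_cases h1' : k = pr i
      · rw [if_pos (Or.inr h1'), h1']; exact h3
      · rw [if_neg (by tauto)]
        refine h4 _ (hfCP k hk) ?_ ?_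
        · intro he
          exact h1 (hcyc.injf k hk i hi he)
        · intro he
          exact h1' (hcyc.injf k hk (pr i) (hg.lt i hi) he)
  -- `P` and a path have no common vertex
  have hPF : ∀ i, 0 < i → i < n → i < pr i → ∀ z, deg G P z = 0 ∨ deg G (H i) z = 0 := by
    intro i h0 hi hlt z
    by_contra hcon
    push Not at hcon
    obtain ⟨hz1, hz2⟩ := hcon
    have hzP : z ∈ verts G P := (Paths.mem_verts G).2 hz1
    obtain ⟨-, -, -, h4, -⟩ := hH i h0 hi hlt
    obtain ⟨g1, g2, g3, g4⟩ := hsm i h0 hi hlt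
    by_cases h1 : z = f i
    · apply hz1
      rw [h1, hPd i hi, if_neg]
      rw [hg.root]
      rintro (h | h)
      · omega
      · exact g1 h
    · by_cases h2 : z = f (pr i)
      · apply hz1
        rw [h2, hPd _ g2, if_neg]
        rw [hg.root]
        rintro (h | h)
        · omega
        · exact g3 h
      · exact hz2 (h4 z (hPCP z hzP) h1 h2)
  -- two paths have no common vertex
  have hFF : ∀ i, 0 < i → i < n → i < pr i → ∀ j, 0 < j → j < n → j < pr j → i ≠ j → ∀ z,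
      deg G (H i) z = 0 ∨ deg G (H j) z = 0 := by
    intro i hi0 hi hil j hj0 hj hjl hij z
    by_contra hcon
    push Not at hcon
    obtain ⟨hz1, hz2⟩ := hcon
    obtain ⟨gi1, gi2, gi3, gi4⟩ := hsm i hi0 hi hil
    obtain ⟨gj1, gj2, gj3, gj4⟩ := hsm j hj0 hj hjl
    by_cases hzC : z ∈ verts G C
    · obtain ⟨k, hk, rfl⟩ := (hcyc.memf z).1 hzC
      rw [hFd i hi0 hi hil k hk] at hz1
      rw [hFd j hj0 hj hjl k hk] at hz2
      have h1 : k = i ∨ k = pr i := by
        by_contra h; exact hz1 (if_neg h)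
      have h2 : k = j ∨ k = pr j := by
        by_contra h; exact hz2 (if_neg h)
      have hii := hg.inv i hi
      have hjj := hg.inv j hj
      rcases h1 with h1 | h1 <;> rcases h2 with h2 | h2
      · exact hij (h1.symm.trans h2)
      · have : pr i = j := by rw [← h1, h2]; exact hjj
        omega
      · have : pr j = i := by rw [← h2, h1]; exact hii
        omega
      · apply hij
        rw [← hii, ← hjj, ← h1, ← h2]
    · obtain ⟨-, -, -, hi4, -, hi6, -⟩ := hH i hi0 hi hil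
      obtain ⟨-, -, -, hj4, -, hj6, -⟩ := hH j hj0 hj hjl
      by_cases hzCP : z ∈ verts G (C ∪ P)
      · apply hz1
        refine hi4 z hzCP ?_ ?_
        · rintro rfl; exact hzC (hfC i hi)
        · rintro rfl; exact hzC (hfC _ gi2)
      · have h1 := (hi6 z hzCP hz1).1
        have h2 := (hj6 z hzCP hz2).1
        have hs : SameBridge G C P (f i) (f j) := Or.inr (Or.inr ⟨z, hzCP, h1, h2⟩)
        rcases hg.one i j hi0 hi gi1 hj0 hj gj1 (by omega) (by omega) hs with h | h
        · exact hij h.symm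
        · have := hg.inv i hi
          rw [← h] at this
          omega
  refine ⟨_, Paths.main G C P n f pr H hg.lt hg.inv hn0 (by rw [hg.root]; exact hiy0) hH0'
    ?_ ?_ ?_ ?_ ?_⟩
  · intro i hi hlt
    rcases Nat.eq_zero_or_pos i with h0 | h0
    · rw [h0, hH0']; exact hP.disj
    · exact (hH i h0 hi hlt).1
  · intro i hi hlt k hk
    rcases Nat.eq_zero_or_pos i with h0 | h0
    · rw [h0, hH0']; exact hPd k hk
    · exact hFd i h0 hi hlt k hk
  · intro i hi hlt z hz
    rcases Nat.eq_zero_or_pos i with h0 | h0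
    · rw [h0, hH0']; exact hP.degO z hz
    · obtain ⟨-, -, -, h4, h5, -⟩ := hH i h0 hi hlt
      by_cases hzCP : z ∈ verts G (C ∪ P)
      · left
        refine h4 z hzCP ?_ ?_
        · rintro rfl; exact hz (hfC i hi)
        · rintro rfl; exact hz (hfC _ (hg.lt i hi))
      · exact h5 z hzCP
  · intro i hi hlt
    rcases Nat.eq_zero_or_pos i with h0 | h0
    · rw [h0, hH0']; exact hP.conn
    · exact (hH i h0 hi hlt).2.2.2.2.2.2
  · intro i hi hil j hj hjl hij z
    rcases Nat.eq_zero_or_pos i with hi0 | hi0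
    · rcases Nat.eq_zero_or_pos j with hj0 | hj0
      · omega
      · rw [hi0, hH0']; exact hPF j hj0 hj hjl z
    · rcases Nat.eq_zero_or_pos j with hj0 | hj0
      · rw [hj0, hH0']; exact (hPF i hi0 hi hil z).symm
      · exact hFF i hi0 hi hil j hj0 hj hjl hij z

end Pool.Agent.Work.MP_7794fd_co.R
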