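import Pool.Agent.Work.MP_7794fd_co.R.Stmts

/-! Project MP_7794fd_co, module R: item 7, the colour change of a point which moves over an end of
a free chord. -/

set_option autoImplicit false

namespace Pool.Agent.Work.MP_7794fd_co.R

open Finset Matrix

namespace Point

theorem two_eq (a : ZMod 2) : a + a = 0 := CharTwo.add_self_eq_zero a

theorem sets {ι : Type} [DecidableEq ι] (u : ι) (A B : Finset ι) :
    insert u A ∪ B = A ∪ insert u B := by
  ext x
  simp only [Finset.mem_union, Finset.mem_insert]
  tauto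

/-- an end which is away from `[c', c]` is on the same side of both points -/
theorem lt2_away {c' c z : ℚ} (hcc : c' < c) (h : Away c' c z) : lt2 z c = lt2 z c' := by
  unfold lt2
  have : z < c ↔ z < c' := by
    rcases h with h | h
    · exact ⟨fun _ => h, fun _ => h.trans hcc⟩
    · exact ⟨fun h1 => absurd h1 (not_lt.mpr h.le), fun h1 => h1.trans hcc⟩
  simp only [this]

theorem pt_away {c' c : ℚ} (hcc : c' < c) {v : ℚ × ℚ} (h1 : Away c' c v.1) (h2 : Away c' c v.2) :
    pt v c = pt v c' := by
  unfold pt
  rw [lt2_away hcc h1, lt2_away hcc h2]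

theorem pt_end {ι : Type} [Fintype ι] [DecidableEq ι] {pos : ι → ℚ × ℚ} {u : ι} {c' c p q : ℚ}
    (he : EndsOf pos u p q) (h1 : c' < p) (h2 : p < c) (hq : Away c' c q) :
    pt (pos u) c + pt (pos u) c' = 1 := by
  have hcc : c' < c := h1.trans h2
  have e1 : lt2 p c = 1 := by
    unfold lt2
    rw [if_pos h2]
  have e2 : lt2 p c' = 0 := by
    unfold lt2
    rw [if_neg (not_lt.mpr h1.le)]
  have e3 := lt2_away hcc hq
  have e4 := two_eq (lt2 q c')
  unfold pt
  rcases he with he | he
  · rw [he]
    show lt2 p c + lt2 q c + (lt2 p c' + lt2 q c') = 1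
    rw [e1, e2, e3]
    linear_combination e4
  · rw [he]
    show lt2 q c + lt2 p c + (lt2 q c' + lt2 p c') = 1
    rw [e1, e2, e3]
    linear_combination e4

/-- the change of colour -/
theorem kap_add {ι : Type} [Fintype ι] [DecidableEq ι] (pos : ι → ℚ × ℚ) (y : ℚ) (N : Finset ι)
    (u : ι) {c' c p q : ℚ} (he : EndsOf pos u p q) (h1 : c' < p) (h2 : p < c) (hq : Away c' c q)
    (hy : Away c' c y) (hN : ∀ w ∈ N, w ≠ u → Away c' c (pos w).1 ∧ Away c' c (pos w).2) :
    kap pos y N c + kap pos y N c' = if u ∈ N then 1 else 0 := by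
  have hcc : c' < c := h1.trans h2
  have hs : (∑ m ∈ N, pt (pos m) c) + (∑ m ∈ N, pt (pos m) c') = if u ∈ N then 1 else 0 := by
    rw [← Finset.sum_add_distrib]
    have : ∀ m ∈ N, pt (pos m) c + pt (pos m) c' = if m = u then 1 else 0 := by
      intro m hm
      by_cases hmu : m = u
      · subst hmu
        rw [if_pos rfl]
        exact pt_end he h1 h2 hq
      · rw [if_neg hmu]
        obtain ⟨a1, a2⟩ := hN m hm hmu
        rw [pt_away hcc a1 a2]
        exact two_eq _
    rw [Finset.sum_congr rfl this, Finset.sum_ite_eq']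
  have e1 := lt2_away hcc hy
  have e2 := two_eq (1 + lt2 y c')
  unfold kap
  rw [e1]
  linear_combination e2 + hs

end Point

theorem I_Point : StPoint := by
  intro ι _ _ pos y V W u c' c p q h hu hVW he h1 h2 hq hy hN
  have hu' : u ∉ V.erase u := Finset.notMem_erase u V
  have hW : u ∉ W := Finset.disjoint_left.mp hVW hu
  unfold SS
  have e : V.powerset = (insert u (V.erase u)).powerset := by rw [Finset.insert_erase hu]
  rw [e, Finset.sum_powerset_insert hu']
  have hz : ∑ M ∈ (V.erase u).powerset, (BM pos y (V ∪ W) (M ∪ W)).det *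
      ((kap pos y (M ∪ W) c + kap pos y (M ∪ W) c') * h (kap pos y (M ∪ W))) = 0 := by
    refine Finset.sum_eq_zero fun M hM => ?_
    rw [Finset.mem_powerset] at hM
    have hM' : u ∉ M ∪ W := by
      rw [Finset.mem_union]
      rintro (h3 | h3)
      · exact hu' (hM h3)
      · exact hW h3
    rw [Point.kap_add pos y (M ∪ W) u he h1 h2 hq hy ?_, if_neg hM']
    · ring
    · intro w hw hwu
      refine hN w ?_ hwu
      rw [Finset.mem_union] at hw ⊢
      rcases hw with hw | hw
      · exact Or.inl (Finset.mem_of_mem_erase (hM hw))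
      · exact Or.inr hw
  rw [hz, zero_add]
  refine Finset.sum_congr rfl fun M hM => ?_
  rw [Finset.mem_powerset] at hM
  have hM' : u ∈ insert u M ∪ W := Finset.mem_union_left _ (Finset.mem_insert_self u M)
  beta_reduce
  rw [Point.kap_add pos y (insert u M ∪ W) u he h1 h2 hq hy ?_, if_pos hM', one_mul]
  · rw [Point.sets u M W, ← Point.sets u (V.erase u) W, Finset.insert_erase hu]
  · intro w hw hwu
    refine hN w ?_ hwu
    rw [Finset.mem_union] at hw ⊢
    rcases hw with hw | hw
    · rcases Finset.mem_insert.mp hw with hw | hw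
      · exact absurd hw hwu
      · exact Or.inl (Finset.mem_of_mem_erase (hM hw))
    · exact Or.inr hw

end Pool.Agent.Work.MP_7794fd_co.R
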