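import Pool.Agent.Work.MP_7794fd_co.R.Stmts

/-! Item PointY: a point moves over the end of the root chord. -/

set_option autoImplicit false

namespace Pool.Agent.Work.MP_7794fd_co.R

open Finset Matrix

namespace PointY

lemma two (a : ZMod 2) : a + a = 0 := by
  revert a; decide

lemma lt2_away {c' c z : ℚ} (h : c' < c) (hz : Away c' c z) : lt2 z c = lt2 z c' := by
  unfold lt2
  rcases hz with h1 | h1
  · rw [if_pos (h1.trans h), if_pos h1]
  · rw [if_neg (not_lt.mpr h1.le), if_neg (not_lt.mpr (h.trans h1).le)]

end PointY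

theorem I_PointY : StPointY := by
  intro ι _ _ pos y V W c' c h h1 h2 haw
  unfold SS
  refine Finset.sum_congr rfl (fun M hM => ?_)
  have hMV := Finset.mem_powerset.mp hM
  have hcc : c' < c := h1.trans h2
  have hk : kap pos y (M ∪ W) c + kap pos y (M ∪ W) c' = 1 := by
    have hs : ∑ m ∈ M ∪ W, pt (pos m) c = ∑ m ∈ M ∪ W, pt (pos m) c' := by
      refine Finset.sum_congr rfl (fun m hm => ?_)
      have hm' : m ∈ V ∪ W := by
        rcases Finset.mem_union.mp hm with h | h
        · exact Finset.mem_union_left _ (hMV h)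
        · exact Finset.mem_union_right _ h
      obtain ⟨ha, hb⟩ := haw m hm'
      unfold pt
      rw [PointY.lt2_away hcc ha, PointY.lt2_away hcc hb]
    have hy1 : lt2 y c = 1 := if_pos h2
    have hy2 : lt2 y c' = 0 := if_neg (not_lt.mpr h1.le)
    unfold kap
    rw [hs, hy1, hy2]
    have := PointY.two (1 + ∑ m ∈ M ∪ W, pt (pos m) c')
    linear_combination this
  simp only [hk, one_mul]

end Pool.Agent.Work.MP_7794fd_co.R
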