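import Pool.Agent.Work.MP_7794fd_co.R.Stmts

/-! Item Pr: the involution of a set of disjoint pairs. -/

set_option autoImplicit false

namespace Pool.Agent.Work.MP_7794fd_co.R

open Finset

namespace Pr

variable {ι : Type}

open Classical in
/-- the involution -/
noncomputable def prf (y : ℕ) (N : Finset ι) (e : ι → ℕ × ℕ) (i : ℕ) : ℕ :=
  if i = 0 then y else if i = y then 0
  else if h : ∃ u ∈ N, i = (e u).1 then (e h.choose).2
  else if h : ∃ u ∈ N, i = (e u).2 then (e h.choose).1 else i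

theorem prf_zero (y : ℕ) (N : Finset ι) (e : ι → ℕ × ℕ) : prf y N e 0 = y := by
  unfold prf; rw [if_pos rfl]

theorem prf_y (y : ℕ) (N : Finset ι) (e : ι → ℕ × ℕ) (hy : 0 < y) : prf y N e y = 0 := by
  unfold prf; rw [if_neg (by omega), if_pos rfl]

theorem prf_other (y : ℕ) (N : Finset ι) (e : ι → ℕ × ℕ) (i : ℕ) (h0 : 0 < i) (hy : i ≠ y)
    (h : ∀ u ∈ N, i ≠ (e u).1 ∧ i ≠ (e u).2) : prf y N e i = i := by
  unfold prf
  rw [if_neg (by omega), if_neg hy, dif_neg, dif_neg]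
  · rintro ⟨u, hu, h'⟩; exact (h u hu).2 h'
  · rintro ⟨u, hu, h'⟩; exact (h u hu).1 h'

end Pr

theorem I_Pr : StPr := by
  intro ι _ _ n y N e hy0 hyn hN hd
  have h1 : ∀ u ∈ N, Pr.prf y N e (e u).1 = (e u).2 := by
    intro u hu
    have hex : ∃ v ∈ N, (e u).1 = (e v).1 := ⟨u, hu, rfl⟩
    obtain ⟨a1, -, -, a4, -⟩ := hN u hu
    unfold Pr.prf
    rw [if_neg (by omega), if_neg a4, dif_pos hex]
    have hc := hex.choose_spec
    by_cases huv : u = hex.choose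
    · rw [← huv]
    · exact absurd hc.2 (hd u hu _ hc.1 huv).1
  have h2 : ∀ u ∈ N, Pr.prf y N e (e u).2 = (e u).1 := by
    intro u hu
    have hex : ∃ v ∈ N, (e u).2 = (e v).2 := ⟨u, hu, rfl⟩
    obtain ⟨a1, a2, -, -, a5⟩ := hN u hu
    have hnex : ¬ ∃ v ∈ N, (e u).2 = (e v).1 := by
      rintro ⟨v, hv, hvv⟩
      by_cases huv : u = v
      · subst huv; omega
      · exact (hd u hu v hv huv).2.2.1 hvv
    unfold Pr.prf
    rw [if_neg (by omega), if_neg a5, dif_neg hnex, dif_pos hex]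
    have hc := hex.choose_spec
    by_cases huv : u = hex.choose
    · rw [← huv]
    · exact absurd hc.2 (hd u hu _ hc.1 huv).2.2.2
  have hcase : ∀ i < n, i = 0 ∨ i = y ∨ (∃ u ∈ N, i = (e u).1) ∨ (∃ u ∈ N, i = (e u).2) ∨
      (0 < i ∧ i ≠ y ∧ ∀ u ∈ N, i ≠ (e u).1 ∧ i ≠ (e u).2) := by
    intro i _
    by_cases c0 : i = 0
    · exact Or.inl c0
    by_cases cy : i = y
    · exact Or.inr (Or.inl cy)
    by_cases c1 : ∃ u ∈ N, i = (e u).1
    · exact Or.inr (Or.inr (Or.inl c1))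
    by_cases c2 : ∃ u ∈ N, i = (e u).2
    · exact Or.inr (Or.inr (Or.inr (Or.inl c2)))
    refine Or.inr (Or.inr (Or.inr (Or.inr ⟨by omega, cy, fun u hu => ⟨fun h => c1 ⟨u, hu, h⟩,
      fun h => c2 ⟨u, hu, h⟩⟩⟩)))
  refine ⟨Pr.prf y N e, ?_, ?_, Pr.prf_zero y N e, fun u hu => ⟨h1 u hu, h2 u hu⟩, ?_⟩
  · intro i hi
    rcases hcase i hi with h | h | ⟨u, hu, h⟩ | ⟨u, hu, h⟩ | ⟨ha, hb, hc⟩
    · rw [h, Pr.prf_zero]; exact hyn
    · rw [h, Pr.prf_y y N e hy0]; omega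
    · rw [h, h1 u hu]; exact (hN u hu).2.2.1
    · rw [h, h2 u hu]
      obtain ⟨a1, a2, a3, -⟩ := hN u hu
      omega
    · rw [Pr.prf_other y N e i ha hb hc]; exact hi
  · intro i hi
    rcases hcase i hi with h | h | ⟨u, hu, h⟩ | ⟨u, hu, h⟩ | ⟨ha, hb, hc⟩
    · rw [h, Pr.prf_zero, Pr.prf_y y N e hy0]
    · rw [h, Pr.prf_y y N e hy0, Pr.prf_zero]
    · rw [h, h1 u hu, h2 u hu]
    · rw [h, h2 u hu, h1 u hu]
    · rw [Pr.prf_other y N e i ha hb hc, Pr.prf_other y N e i ha hb hc]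
  · intro i h0 _ hy h
    exact Pr.prf_other y N e i h0 hy h

end Pool.Agent.Work.MP_7794fd_co.R
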