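import Pool.Agent.Work.MP_7794fd_co.R.Stmts

/-! Project MP_7794fd_co, module R, item Side: the two circuits of a good pairing. -/

set_option autoImplicit false

set_option linter.unusedSectionVars false

namespace Pool.Agent.Work.MP_7794fd_co.R

open Finset

namespace Side

variable {V E : Type} [Fintype V] [DecidableEq V] [Fintype E] [DecidableEq E] {G : MG V E}

lemma linked_symm {W : Set V} {X : Finset E} {a b : E} (h : Linked G W X a b) :
    Linked G W X b a := by
  induction h with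
  | refl => exact Relation.ReflTransGen.refl
  | tail _ hs ih =>
    obtain ⟨h1, h2, v, hv, hva, hvb⟩ := hs
    exact (Relation.ReflTransGen.single ⟨h2, h1, v, hv, hvb, hva⟩).trans ih

lemma linked_mono {W : Set V} {X Y : Finset E} (hXY : X ⊆ Y) {a b : E}
    (h : Linked G W X a b) : Linked G W Y a b := by
  refine Relation.ReflTransGen.mono ?_ _ _ h
  rintro x y ⟨h1, h2, v, hv, hva, hvb⟩
  exact ⟨hXY h1, hXY h2, v, hv, hva, hvb⟩

lemma linked_one {X : Finset E} {a b : E} (ha : a ∈ X) (hb : b ∈ X) {v : V}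
    (h1 : v ∈ G.ends a) (h2 : v ∈ G.ends b) : Linked G Set.univ X a b :=
  Relation.ReflTransGen.single ⟨ha, hb, v, trivial, h1, h2⟩

/-- the index before `i` -/
def prev (n i : ℕ) : ℕ := if i = 0 then n - 1 else i - 1

lemma prev_lt {n i : ℕ} (h2 : 2 ≤ n) (hi : i < n) : prev n i < n := by
  unfold prev
  split_ifs <;> omega

lemma prev_ne {n i : ℕ} (h2 : 2 ≤ n) : prev n i ≠ i := by
  unfold prev
  split_ifs <;> omega

lemma succ_prev {n i : ℕ} (h2 : 2 ≤ n) (hi : i < n) : (prev n i + 1) % n = i := by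
  unfold prev
  split_ifs with h
  · subst h
    rw [Nat.sub_add_cancel (by omega)]
    exact Nat.mod_self n
  · rw [Nat.sub_add_cancel (by omega)]
    exact Nat.mod_eq_of_lt hi

lemma eq_prev {n i j : ℕ} (hj : j < n) (h : i = (j + 1) % n) : j = prev n i := by
  unfold prev
  rcases Nat.lt_or_ge (j + 1) n with h1 | h1
  · rw [Nat.mod_eq_of_lt h1] at h
    rw [if_neg (by omega)]
    omega
  · have h3 : j + 1 = n := by omega
    rw [h3, Nat.mod_self] at h
    rw [if_pos h]
    omega

section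

variable {C P : Finset E} {n : ℕ} {f : ℕ → V} {c : ℕ → E} {iy : ℕ} {R : ℕ → ℕ → Prop}
  {pr : ℕ → ℕ} {col : ℕ → ZMod 2} {Q : Finset E} {D : Finset E} {s : ZMod 2}

lemma mem_ends (hcyc : IsCyc G C n f c) {i j : ℕ} (hi : i < n) (hj : j < n) :
    f i ∈ G.ends (c j) ↔ (j = i ∨ j = prev n i) := by
  have h2 := hcyc.two
  rw [hcyc.ends j hj, Sym2.mem_iff]
  constructor
  · rintro (h | h)
    · exact Or.inl (hcyc.injf i hi j hj h).symm
    · right
      exact eq_prev hj (hcyc.injf i hi _ (Nat.mod_lt _ (by omega)) h)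
  · rintro (h | h)
    · left
      rw [h]
    · right
      rw [h, succ_prev h2 hi]

lemma colprev (hcyc : IsCyc G C n f c) (hiy : 0 < iy) (hgp : GoodPairing n iy R pr col)
    {i : ℕ} (hi : i < n) :
    (pr i = i → col i = col (prev n i)) ∧ (pr i ≠ i → col i = col (prev n i) + 1) := by
  rcases Nat.eq_zero_or_pos i with h | h
  · subst h
    have h1 : pr 0 ≠ 0 := by
      rw [hgp.root]
      omega
    refine ⟨fun h2 => absurd h2 h1, fun _ => ?_⟩
    unfold prev
    rw [if_pos rfl, hgp.col0, hgp.coln]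
    simp
  · unfold prev
    rw [if_neg (by omega)]
    exact hgp.flip i h hi

lemma zmod2 (a b c : ZMod 2) (h : a = b + 1) (h1 : a ≠ c) : b = c := by
  revert a b c
  decide

lemma zmod2' (a b c : ZMod 2) (h : a = b + 1) (h1 : a = c) : b ≠ c := by
  revert a b c
  decide

/-- the arc edge: index, colour and incidence -/
lemma arc_spec (hcyc : IsCyc G C n f c) (hiy : 0 < iy) (hgp : GoodPairing n iy R pr col)
    {i : ℕ} (hi : i < n) (hp : pr i ≠ i) (s : ZMod 2) :
    arc n col s i < n ∧ col (arc n col s i) = s ∧ f i ∈ G.ends (c (arc n col s i)) := by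
  have h2 := hcyc.two
  by_cases h : col i = s
  · have he : arc n col s i = i := by
      unfold arc
      rw [if_pos h]
    rw [he]
    exact ⟨hi, h, (mem_ends hcyc hi hi).2 (Or.inl rfl)⟩
  · have he : arc n col s i = prev n i := by
      unfold arc prev
      rw [if_neg h]
    rw [he]
    have hl := prev_lt h2 hi
    exact ⟨hl, zmod2 _ _ _ ((colprev hcyc hiy hgp hi).2 hp) h,
      (mem_ends hcyc hi hl).2 (Or.inr rfl)⟩

lemma mem_D (hD : ∀ e, e ∈ D ↔ e ∈ Q ∨ ∃ i < n, c i = e ∧ col i = s) {i : ℕ} (hi : i < n)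
    (h : col i = s) : c i ∈ D := (hD _).2 (Or.inr ⟨i, hi, rfl, h⟩)

lemma exists_Q (hQ : IsQ G C P n f pr Q) {i : ℕ} (hi : i < n) (hp : pr i ≠ i) :
    ∃ a ∈ Q, f i ∈ G.ends a := by
  have h := hQ.degC i hi
  rw [if_neg hp] at h
  unfold deg at h
  obtain ⟨e, he⟩ := Finset.card_pos.1 (by rw [h]; norm_num)
  rw [Finset.mem_filter] at he
  exact ⟨e, he.1, he.2⟩

lemma deg_split (hQ : IsQ G C P n f pr Q)
    (hD : ∀ e, e ∈ D ↔ e ∈ Q ∨ ∃ i < n, c i = e ∧ col i = s) (v : V) :
    deg G D v = deg G Q v + ((D \ Q).filter (fun e => v ∈ G.ends e)).card := by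
  unfold deg
  rw [← Finset.card_union_of_disjoint]
  · congr 1
    ext e
    simp only [Finset.mem_filter, Finset.mem_union, Finset.mem_sdiff]
    constructor
    · rintro ⟨h1, h2⟩
      by_cases h : e ∈ Q
      · exact Or.inl ⟨h, h2⟩
      · exact Or.inr ⟨⟨h1, h⟩, h2⟩
    · rintro (⟨h1, h2⟩ | ⟨⟨h1, _⟩, h2⟩)
      · exact ⟨(hD e).2 (Or.inl h1), h2⟩
      · exact ⟨h1, h2⟩
  · rw [Finset.disjoint_left]
    intro e h1 h2
    simp only [Finset.mem_filter, Finset.mem_sdiff] at h1 h2
    exact h2.1.2 h1.1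

lemma filter_eq (hcyc : IsCyc G C n f c) (hQ : IsQ G C P n f pr Q)
    (hD : ∀ e, e ∈ D ↔ e ∈ Q ∨ ∃ i < n, c i = e ∧ col i = s) {i : ℕ} (hi : i < n) :
    (D \ Q).filter (fun e => f i ∈ G.ends e) =
      (({i, prev n i} : Finset ℕ).filter (fun j => col j = s)).image c := by
  have h2 := hcyc.two
  have hdis : ∀ e, e ∈ C → e ∉ Q := fun e h1 h2 => (Finset.disjoint_left.1 hQ.disj) h1 h2
  ext e
  simp only [Finset.mem_filter, Finset.mem_sdiff, Finset.mem_image, Finset.mem_insert,
    Finset.mem_singleton]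
  constructor
  · rintro ⟨⟨h3, h4⟩, h5⟩
    rcases (hD e).1 h3 with h6 | ⟨j, hj, hcj, hs⟩
    · exact absurd h6 h4
    · refine ⟨j, ⟨?_, hs⟩, hcj⟩
      rw [← hcj] at h5
      exact (mem_ends hcyc hi hj).1 h5
  · rintro ⟨j, ⟨h3, h4⟩, h5⟩
    have hj : j < n := by
      rcases h3 with h3 | h3
      · rw [h3]; exact hi
      · rw [h3]; exact prev_lt h2 hi
    subst h5
    refine ⟨⟨mem_D hD hj h4, hdis _ ((hcyc.memc _).2 ⟨j, hj, rfl⟩)⟩, ?_⟩
    exact (mem_ends hcyc hi hj).2 h3

lemma card_filter (hcyc : IsCyc G C n f c) (hQ : IsQ G C P n f pr Q)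
    (hD : ∀ e, e ∈ D ↔ e ∈ Q ∨ ∃ i < n, c i = e ∧ col i = s) {i : ℕ} (hi : i < n) :
    ((D \ Q).filter (fun e => f i ∈ G.ends e)).card =
      (if col i = s then 1 else 0) + (if col (prev n i) = s then 1 else 0) := by
  have h2 := hcyc.two
  rw [filter_eq hcyc hQ hD hi, Finset.card_image_of_injOn]
  · have hne : i ≠ prev n i := (prev_ne h2).symm
    rw [Finset.filter_insert, Finset.filter_singleton]
    by_cases h3 : col i = s <;> by_cases h4 : col (prev n i) = s <;> simp [h3, h4, hne]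
  · intro a ha b hb hab
    have hlt : ∀ j, j ∈ (({i, prev n i} : Finset ℕ).filter (fun j => col j = s)) → j < n := by
      intro j hj
      simp only [Finset.mem_filter, Finset.mem_insert, Finset.mem_singleton] at hj
      rcases hj.1 with h3 | h3
      · rw [h3]; exact hi
      · rw [h3]; exact prev_lt h2 hi
    exact hcyc.injc a (hlt a ha) b (hlt b hb) hab

lemma deg_D (hcyc : IsCyc G C n f c) (hiy : 0 < iy) (hgp : GoodPairing n iy R pr col)
    (hQ : IsQ G C P n f pr Q)
    (hD : ∀ e, e ∈ D ↔ e ∈ Q ∨ ∃ i < n, c i = e ∧ col i = s) (v : V) :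
    deg G D v = 0 ∨ deg G D v = 2 := by
  rw [deg_split hQ hD v]
  by_cases hv : v ∈ verts G C
  · obtain ⟨i, hi, rfl⟩ := (hcyc.memf v).1 hv
    rw [card_filter hcyc hQ hD hi, hQ.degC i hi]
    obtain ⟨h1, h2⟩ := colprev hcyc hiy hgp hi
    by_cases hp : pr i = i
    · rw [if_pos hp, ← h1 hp]
      by_cases h3 : col i = s
      · right; simp [h3]
      · left; simp [h3]
    · rw [if_neg hp]
      right
      have h4 := h2 hp
      by_cases h3 : col i = s
      · have h5 : ¬ col (prev n i) = s := zmod2' _ _ _ h4 h3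
        simp [h3, h5]
      · have h5 : col (prev n i) = s := zmod2 _ _ _ h4 h3
        simp [h3, h5]
  · have h0 : ((D \ Q).filter (fun e => v ∈ G.ends e)).card = 0 := by
      rw [Finset.card_eq_zero, Finset.filter_eq_empty_iff]
      intro e he hve
      rw [Finset.mem_sdiff] at he
      rcases (hD e).1 he.1 with h6 | ⟨j, hj, hcj, _⟩
      · exact he.2 h6
      · exact hv ⟨e, (hcyc.memc e).2 ⟨j, hj, hcj⟩, hve⟩
    rw [h0, Nat.add_zero]
    exact hQ.degO v hv

end

end Side

open Side in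
open Classical in
theorem I_Side : StSide := by
  intro V E _ _ _ _ G C P _ _ n f c iy R pr col Q hcyc hiy _ hgp hQ s D hD
  have h2 := hcyc.two
  have h0n : 0 < n := by omega
  have hQD : Q ⊆ D := fun e he => (hD e).2 (Or.inl he)
  have hp0 : pr 0 ≠ 0 := by rw [hgp.root]; omega
  obtain ⟨e0, he0, hf0⟩ := exists_Q hQ h0n hp0
  -- all edges of `C` of colour `s` are linked to `e0`
  have hall : ∀ j < n, col j = s → Linked G Set.univ D e0 (c j) := by
    obtain ⟨a1, a2, a3⟩ := arc_spec hcyc hiy hgp h0n hp0 s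
    have hlink0 : Linked G Set.univ D e0 (c (arc n col s 0)) :=
      linked_one (hQD he0) (mem_D hD a1 a2) hf0 a3
    intro j hj hcj
    have key := hgp.conn s (fun i => if Linked G Set.univ D e0 (c i) then 1 else 0) ?_ ?_
      (arc n col s 0) a1 j hj a2 hcj
    · by_contra hne
      simp only [if_pos hlink0, if_neg hne] at key
      exact absurd key (by decide)
    · intro i hi0 hi hp hs
      have hs' : col (i - 1) = s := by rw [← (hgp.flip i hi0 hi).1 hp]; exact hs
      have hm1 : f i ∈ G.ends (c i) := (mem_ends hcyc hi hi).2 (Or.inl rfl)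
      have hm2 : f i ∈ G.ends (c (i - 1)) := by
        refine (mem_ends hcyc hi (by omega)).2 (Or.inr ?_)
        unfold prev
        rw [if_neg (by omega)]
      have hL : Linked G Set.univ D (c i) (c (i - 1)) :=
        linked_one (mem_D hD hi hs) (mem_D hD (by omega) hs') hm1 hm2
      have hiff : Linked G Set.univ D e0 (c i) ↔ Linked G Set.univ D e0 (c (i - 1)) :=
        ⟨fun h => h.trans hL, fun h => h.trans (linked_symm hL)⟩
      simp only [hiff]
    · intro i hi hp
      have hpi : pr i < n := hgp.lt i hi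
      have hpp : pr (pr i) ≠ pr i := by rw [hgp.inv i hi]; exact fun h => hp h.symm
      obtain ⟨a1, a2, a3⟩ := arc_spec hcyc hiy hgp hi hp s
      obtain ⟨b1, b2, b3⟩ := arc_spec hcyc hiy hgp hpi hpp s
      obtain ⟨a', ha', hfa'⟩ := exists_Q hQ hi hp
      obtain ⟨b', hb', hfb'⟩ := exists_Q hQ hpi hpp
      have hl := linked_mono hQD (hQ.link i hi hp a' ha' b' hb' hfa' hfb')
      have hL : Linked G Set.univ D (c (arc n col s i)) (c (arc n col s (pr i))) :=
        ((linked_one (mem_D hD a1 a2) (hQD ha') a3 hfa').trans hl).trans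
          (linked_one (hQD hb') (mem_D hD b1 b2) hfb' b3)
      have hiff : Linked G Set.univ D e0 (c (arc n col s i)) ↔
          Linked G Set.univ D e0 (c (arc n col s (pr i))) :=
        ⟨fun h => h.trans hL, fun h => h.trans (linked_symm hL)⟩
      simp only [hiff]
  have hlink : ∀ e ∈ D, Linked G Set.univ D e0 e := by
    intro e he
    rcases (hD e).1 he with h | ⟨i, hi, hci, hs⟩
    · obtain ⟨i, hi, hp, b, hb, hfb, hlb⟩ := hQ.meet e h
      obtain ⟨a1, a2, a3⟩ := arc_spec hcyc hiy hgp hi hp s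
      have h1 := hall _ a1 a2
      have h3 : Linked G Set.univ D (c (arc n col s i)) b :=
        linked_one (mem_D hD a1 a2) (hQD hb) a3 hfb
      exact (h1.trans h3).trans (linked_symm (linked_mono hQD hlb))
    · rw [← hci]
      exact hall i hi hs
  refine ⟨⟨e0, hQD he0⟩, deg_D hcyc hiy hgp hQ hD, ?_⟩
  intro e he e' he'
  exact (linked_symm (hlink e he)).trans (hlink e' he')

end Pool.Agent.Work.MP_7794fd_co.R
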