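import Pool.Agent.Work.MP_7794fd_co.R.Stmts

/-! Item Swap: the symmetry of a chord. -/

set_option autoImplicit false

namespace Pool.Agent.Work.MP_7794fd_co.R

open Finset Matrix

namespace Swap

lemma pt_eq {p p' : ℚ × ℚ} (h : p' = p ∨ p' = p.swap) (z : ℚ) : pt p' z = pt p z := by
  rcases h with h | h
  · rw [h]
  · rw [h]
    unfold pt
    rw [add_comm]
    rfl

lemma sum_ends {p p' : ℚ × ℚ} (h : p' = p ∨ p' = p.swap) (f : ℚ → ZMod 2) :
    f p'.1 + f p'.2 = f p.1 + f p.2 := by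
  rcases h with h | h
  · rw [h]
  · rw [h, add_comm]
    rfl

lemma cr_eq {u u' v v' : ℚ × ℚ} (hu : u' = u ∨ u' = u.swap) (hv : v' = v ∨ v' = v.swap) :
    cr u' v' = cr u v := by
  unfold cr
  rw [pt_eq hv, pt_eq hv]
  exact sum_ends hu (pt v)

lemma kap_eq {ι : Type} [Fintype ι] [DecidableEq ι] (pos pos' : ι → ℚ × ℚ) (y : ℚ)
    (N : Finset ι) (h : ∀ u ∈ N, pos' u = pos u ∨ pos' u = (pos u).swap) :
    kap pos' y N = kap pos y N := by
  funext z
  unfold kap
  rw [Finset.sum_congr rfl (fun m hm => pt_eq (h m hm) z)]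

lemma BM_eq {ι : Type} [Fintype ι] [DecidableEq ι] (pos pos' : ι → ℚ × ℚ) (y : ℚ)
    (V N : Finset ι) (hN : N ⊆ V) (h : ∀ u ∈ V, pos' u = pos u ∨ pos' u = (pos u).swap) :
    BM pos' y V N = BM pos y V N := by
  have hk := kap_eq pos pos' y N (fun u hu => h u (hN hu))
  funext u v
  unfold BM
  rw [hk]
  by_cases huv : u = v
  · rw [if_pos huv, if_pos huv]
    by_cases hu : u ∈ V
    · rw [if_pos hu, if_pos hu, add_assoc, add_assoc]
      rw [sum_ends (h u hu) (kap pos y N)]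
    · rw [if_neg hu, if_neg hu]
  · rw [if_neg huv, if_neg huv]
    by_cases hm : u ∈ N ∧ v ∈ N
    · rw [if_pos hm, if_pos hm]
      exact cr_eq (h u (hN hm.1)) (h v (hN hm.2))
    · rw [if_neg hm, if_neg hm]

end Swap

open Swap in
theorem I_Swap : StSwap := by
  intro ι _ _ pos pos' y V W h hpos
  unfold SS
  apply Finset.sum_congr rfl
  intro M hM
  have hsub : M ∪ W ⊆ V ∪ W :=
    Finset.union_subset_union (Finset.mem_powerset.1 hM) (Finset.Subset.refl _)
  rw [BM_eq pos pos' y (V ∪ W) (M ∪ W) hsub hpos,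
    kap_eq pos pos' y (M ∪ W) (fun u hu => hpos u (hsub hu))]

end Pool.Agent.Work.MP_7794fd_co.R
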