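import Pool.Agent.Work.MP_7794fd_co.R.Stmts

/-! Project MP_7794fd_co, module R, item Two: circuits which miss at most two vertices. -/

set_option autoImplicit false
set_option linter.unusedSectionVars false
set_option linter.unusedDecidableInType false

namespace Pool.Agent.Work.MP_7794fd_co.R

open Finset

namespace Two

variable {V E : Type} [Fintype V] [DecidableEq V] [Fintype E] [DecidableEq E] (G : MG V E)

theorem deg_sing (e : E) (v : V) : deg G {e} v = if v ∈ G.ends e then 1 else 0 := by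
  unfold deg
  rw [Finset.filter_singleton]
  split_ifs <;> rfl

theorem deg_ins {e : E} {X : Finset E} (h : e ∉ X) (v : V) :
    deg G (insert e X) v = (if v ∈ G.ends e then 1 else 0) + deg G X v := by
  unfold deg
  rw [Finset.filter_insert]
  split_ifs with h1
  · rw [Finset.card_insert_of_notMem (fun h2 => h (Finset.mem_filter.1 h2).1), add_comm]
  · rw [zero_add]

theorem linked_step {X : Finset E} {e f : E} {v : V} (he : e ∈ X) (hf : f ∈ X)
    (h1 : v ∈ G.ends e) (h2 : v ∈ G.ends f) : Linked G Set.univ X e f :=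
  Relation.ReflTransGen.single ⟨he, hf, v, trivial, h1, h2⟩

/-- exactly one edge at a vertex of `C` is not in `C` -/
theorem third {C : Finset E} (hG : Cubic G) (hC : IsCircuit G C) {v : V} (hv : v ∈ verts G C) :
    ∃ e, e ∉ C ∧ v ∈ G.ends e ∧ ∀ f, f ∉ C → v ∈ G.ends f → f = e := by
  have h3 := hG v
  have h2 : deg G C v = 2 := by
    rcases hC.deg v with h | h
    · exfalso
      obtain ⟨e, he, hve⟩ := hv
      unfold deg at h
      rw [Finset.card_eq_zero] at h
      have : e ∈ C.filter (fun e => v ∈ G.ends e) := Finset.mem_filter.2 ⟨he, hve⟩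
      rw [h] at this
      simp at this
    · exact h
  unfold deg at h3 h2
  have hsub : C.filter (fun e => v ∈ G.ends e) ⊆ Finset.univ.filter (fun e => v ∈ G.ends e) :=
    Finset.filter_subset_filter _ (Finset.subset_univ _)
  have h1 : (Finset.univ.filter (fun e => v ∈ G.ends e) \
      C.filter (fun e => v ∈ G.ends e)).card = 1 := by
    rw [Finset.card_sdiff_of_subset hsub, h3, h2]
  obtain ⟨e, he⟩ := Finset.card_eq_one.1 h1
  have hmem : ∀ f, f ∈ (Finset.univ.filter (fun e => v ∈ G.ends e) \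
      C.filter (fun e => v ∈ G.ends e)) ↔ (f ∉ C ∧ v ∈ G.ends f) := by
    intro f
    rw [Finset.mem_sdiff, Finset.mem_filter, Finset.mem_filter]
    constructor
    · rintro ⟨⟨-, h1⟩, h2⟩
      exact ⟨fun h => h2 ⟨h, h1⟩, h1⟩
    · rintro ⟨h1, h2⟩
      exact ⟨⟨Finset.mem_univ _, h2⟩, fun h => h1 h.1⟩
  rw [he] at hmem
  have he' := (hmem e).1 (Finset.mem_singleton_self e)
  exact ⟨e, he'.1, he'.2, fun f hf hvf => Finset.mem_singleton.1 ((hmem f).2 ⟨hf, hvf⟩)⟩

theorem verts_mono {C D : Finset E} (h : C ⊆ D) : verts G C ⊆ verts G D := by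
  rintro v ⟨e, he, hv⟩
  exact ⟨e, h he, hv⟩

theorem notC {C : Finset E} {e : E} {w : V} (hw : w ∉ verts G C) (h : w ∈ G.ends e) : e ∉ C :=
  fun he => hw ⟨e, he, h⟩

theorem reach_out {W : Set V} {u q : V} (hu : u ∈ W) (h : Reach G W Finset.univ u q) : q ∈ W := by
  induction h with
  | refl => exact hu
  | tail _ hs _ => exact hs.2.1

/-- a path through one outside vertex -/
theorem pathA {C : Finset E} {w a b : V} {e1 e2 : E} (hw : w ∉ verts G C) (ha : a ∈ verts G C)
    (hb : b ∈ verts G C) (hab : a ≠ b) (h1 : G.ends e1 = s(w, a)) (h2 : G.ends e2 = s(w, b)) :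
    IsCPath G C {e1, e2} a b := by
  have hwa : w ≠ a := fun h => hw (h ▸ ha)
  have hwb : w ≠ b := fun h => hw (h ▸ hb)
  have he : e1 ≠ e2 := by
    intro h
    rw [h, h2] at h1
    rcases Sym2.eq_iff.1 h1 with ⟨-, h⟩ | ⟨h, h'⟩
    · exact hab h.symm
    · exact hwa h
  have hn : e1 ∉ ({e2} : Finset E) := by rwa [Finset.mem_singleton]
  have hd : ∀ v, deg G {e1, e2} v = (if v ∈ G.ends e1 then 1 else 0) +
      (if v ∈ G.ends e2 then 1 else 0) := by
    intro v
    rw [deg_ins G hn, deg_sing]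
  refine ⟨?_, hab, ha, hb, ?_, ?_, ?_, ?_, ?_⟩
  · rw [Finset.disjoint_right]
    intro e he
    rw [Finset.mem_insert, Finset.mem_singleton] at he
    rcases he with rfl | rfl
    · exact notC G hw (by rw [h1]; simp)
    · exact notC G hw (by rw [h2]; simp)
  · rw [hd, h1, h2]
    simp [hab, hwa.symm]
  · rw [hd, h1, h2]
    simp [hab.symm, hwb.symm]
  · intro v hv hva hvb
    have hvw : v ≠ w := fun h => hw (h ▸ hv)
    rw [hd, h1, h2]
    simp [hva, hvb, hvw]
  · intro v hv
    have hva : v ≠ a := fun h => hv (h ▸ ha)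
    have hvb : v ≠ b := fun h => hv (h ▸ hb)
    rw [hd, h1, h2]
    by_cases hvw : v = w
    · right
      simp [hvw]
    · left
      simp [hva, hvb, hvw]
  · intro e he f hf
    have m1 : e1 ∈ ({e1, e2} : Finset E) := by simp
    have m2 : e2 ∈ ({e1, e2} : Finset E) := by simp
    have w1 : w ∈ G.ends e1 := by rw [h1]; simp
    have w2 : w ∈ G.ends e2 := by rw [h2]; simp
    rw [Finset.mem_insert, Finset.mem_singleton] at he hf
    rcases he with rfl | rfl <;> rcases hf with rfl | rfl
    · exact Relation.ReflTransGen.refl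
    · exact linked_step G m1 m2 w1 w2
    · exact linked_step G m2 m1 w2 w1
    · exact Relation.ReflTransGen.refl

/-- a chord -/
theorem pathB {C : Finset E} {a b : V} {e : E} (ha : a ∈ verts G C)
    (hb : b ∈ verts G C) (he : e ∉ C) (h1 : G.ends e = s(a, b)) :
    IsCPath G C {e} a b := by
  have hab : a ≠ b := by
    intro h
    apply G.loopless e
    rw [h1, h]
    simp
  refine ⟨?_, hab, ha, hb, ?_, ?_, ?_, ?_, ?_⟩
  · rw [Finset.disjoint_right]
    intro f hf
    rw [Finset.mem_singleton] at hf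
    rw [hf]
    exact he
  · rw [deg_sing, h1]
    simp
  · rw [deg_sing, h1]
    simp
  · intro v hv hva hvb
    rw [deg_sing, h1]
    simp [hva, hvb]
  · intro v hv
    have hva : v ≠ a := fun h => hv (h ▸ ha)
    have hvb : v ≠ b := fun h => hv (h ▸ hb)
    left
    rw [deg_sing, h1]
    simp [hva, hvb]
  · intro e' he' f hf
    rw [Finset.mem_singleton] at he' hf
    rw [he', hf]
    exact Relation.ReflTransGen.refl

/-- a path through two outside vertices -/
theorem pathC {C : Finset E} {w1 w2 a b : V} {e1 g e2 : E} (hw1 : w1 ∉ verts G C)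
    (hw2 : w2 ∉ verts G C) (hw : w1 ≠ w2) (ha : a ∈ verts G C)
    (hb : b ∈ verts G C) (hab : a ≠ b) (h1 : G.ends e1 = s(w1, a)) (h2 : G.ends e2 = s(w2, b))
    (h3 : G.ends g = s(w1, w2)) :
    IsCPath G C {e1, g, e2} a b := by
  have hwa : w1 ≠ a := fun h => hw1 (h ▸ ha)
  have hwb : w1 ≠ b := fun h => hw1 (h ▸ hb)
  have hwa2 : w2 ≠ a := fun h => hw2 (h ▸ ha)
  have hwb2 : w2 ≠ b := fun h => hw2 (h ▸ hb)
  have n12 : e1 ≠ e2 := by
    intro h
    have : w2 ∈ G.ends e1 := by rw [h, h2]; simp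
    rw [h1] at this
    simp [hw.symm, hwa2] at this
  have n1g : e1 ≠ g := by
    intro h
    have : w2 ∈ G.ends e1 := by rw [h, h3]; simp
    rw [h1] at this
    simp [hw.symm, hwa2] at this
  have ng2 : g ≠ e2 := by
    intro h
    have : w1 ∈ G.ends e2 := by rw [← h, h3]; simp
    rw [h2] at this
    simp [hw, hwb] at this
  have hd : ∀ v, deg G {e1, g, e2} v = (if v ∈ G.ends e1 then 1 else 0) +
      ((if v ∈ G.ends g then 1 else 0) + (if v ∈ G.ends e2 then 1 else 0)) := by
    intro v
    rw [deg_ins G (by simp [n1g, n12]), deg_ins G (by simp [ng2]), deg_sing]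
  refine ⟨?_, hab, ha, hb, ?_, ?_, ?_, ?_, ?_⟩
  · rw [Finset.disjoint_right]
    intro e he
    rw [Finset.mem_insert, Finset.mem_insert, Finset.mem_singleton] at he
    rcases he with rfl | rfl | rfl
    · exact notC G hw1 (by rw [h1]; simp)
    · exact notC G hw1 (by rw [h3]; simp)
    · exact notC G hw2 (by rw [h2]; simp)
  · rw [hd, h1, h2, h3]
    simp [hab, hwa.symm, hwa2.symm]
  · rw [hd, h1, h2, h3]
    simp [hab.symm, hwb.symm, hwb2.symm]
  · intro v hv hva hvb
    have hvw1 : v ≠ w1 := fun h => hw1 (h ▸ hv)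
    have hvw2 : v ≠ w2 := fun h => hw2 (h ▸ hv)
    rw [hd, h1, h2, h3]
    simp [hva, hvb, hvw1, hvw2]
  · intro v hv
    have hva : v ≠ a := fun h => hv (h ▸ ha)
    have hvb : v ≠ b := fun h => hv (h ▸ hb)
    rw [hd, h1, h2, h3]
    by_cases hvw : v = w1
    · right
      simp [hvw, hw, hwb]
    · by_cases hvw2 : v = w2
      · right
        simp [hvw2, hw.symm, hwa2]
      · left
        simp [hva, hvb, hvw, hvw2]
  · have m1 : e1 ∈ ({e1, g, e2} : Finset E) := by simp
    have mg : g ∈ ({e1, g, e2} : Finset E) := by simp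
    have m2 : e2 ∈ ({e1, g, e2} : Finset E) := by simp
    have i1 : w1 ∈ G.ends e1 := by rw [h1]; simp
    have i2 : w1 ∈ G.ends g := by rw [h3]; simp
    have i3 : w2 ∈ G.ends g := by rw [h3]; simp
    have i4 : w2 ∈ G.ends e2 := by rw [h2]; simp
    have hto : ∀ e ∈ ({e1, g, e2} : Finset E), Linked G Set.univ {e1, g, e2} e g := by
      intro e he
      rw [Finset.mem_insert, Finset.mem_insert, Finset.mem_singleton] at he
      rcases he with rfl | rfl | rfl
      · exact linked_step G m1 mg i1 i2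
      · exact Relation.ReflTransGen.refl
      · exact linked_step G m2 mg i4 i3
    have hfr : ∀ e ∈ ({e1, g, e2} : Finset E), Linked G Set.univ {e1, g, e2} g e := by
      intro e he
      rw [Finset.mem_insert, Finset.mem_insert, Finset.mem_singleton] at he
      rcases he with rfl | rfl | rfl
      · exact linked_step G mg m1 i2 i1
      · exact Relation.ReflTransGen.refl
      · exact linked_step G mg m2 i3 i4
    intro e he f hf
    exact (hto e he).trans (hfr f hf)

end Two

theorem I_Two (hm : StMain) : StTwo := by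
  intro V E _ _ _ _ G hG C hC hO
  have hO3 : ∀ x y z, x ∉ verts G C → y ∉ verts G C → z ∉ verts G C → x ≠ y → x ≠ z → y = z := by
    intro x y z hx hy hz hxy hxz
    by_contra hyz
    have h1 : ({x, y, z} : Set V) ⊆ (verts G C)ᶜ := by
      rintro t (rfl | rfl | rfl)
      · exact hx
      · exact hy
      · exact hz
    have h2 : ({x, y, z} : Set V).ncard = 3 := by
      rw [Set.ncard_eq_three]
      exact ⟨x, y, z, hxy, hxz, hyz, rfl⟩
    have h3 := Set.ncard_le_ncard h1 (Set.toFinite _)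
    omega
  by_cases hA : ∃ w a b e1 e2, w ∉ verts G C ∧ a ∈ verts G C ∧ b ∈ verts G C ∧ e1 ≠ e2 ∧
      G.ends e1 = s(w, a) ∧ G.ends e2 = s(w, b)
  · obtain ⟨w, a, b, e1, e2, hw, ha, hb, he, h1, h2⟩ := hA
    have n1 : e1 ∉ C := Two.notC G hw (by rw [h1]; simp)
    have n2 : e2 ∉ C := Two.notC G hw (by rw [h2]; simp)
    have hab : a ≠ b := by
      rintro rfl
      obtain ⟨e, -, -, h⟩ := Two.third G hG hC ha
      apply he
      rw [h e1 n1 (by rw [h1]; simp), h e2 n2 (by rw [h2]; simp)]
    obtain ⟨D, hD, -⟩ := hm G hG C {e1, e2} a b hC (Two.pathA G hw ha hb hab h1 h2) (by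
      intro u u' hu hu' _ _
      have hout : ∀ t, t ∉ verts G (C ∪ {e1, e2}) → t ∉ verts G C ∧ w ≠ t := by
        intro t ht
        refine ⟨fun h => ht (Two.verts_mono G Finset.subset_union_left h), ?_⟩
        rintro rfl
        exact ht ⟨e1, by simp, by rw [h1]; simp⟩
      have e := hO3 w u u' hw (hout u hu).1 (hout u' hu').1 (hout u hu).2 (hout u' hu').2
      rw [e]
      exact Relation.ReflTransGen.refl)
    exact ⟨D, hD⟩
  · have hA' : ∀ w a b e1 e2, w ∉ verts G C → a ∈ verts G C → b ∈ verts G C →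
        G.ends e1 = s(w, a) → G.ends e2 = s(w, b) → e1 = e2 := by
      intro w a b e1 e2 hw ha hb h1 h2
      by_contra he
      exact hA ⟨w, a, b, e1, e2, hw, ha, hb, he, h1, h2⟩
    have hA'' : ∀ w a b e1 e2, w ∉ verts G C → a ∈ verts G C → b ∈ verts G C →
        G.ends e1 = s(w, a) → G.ends e2 = s(w, b) → a = b := by
      intro w a b e1 e2 hw ha hb h1 h2
      have he := hA' w a b e1 e2 hw ha hb h1 h2
      rw [he, h2] at h1
      rcases Sym2.eq_iff.1 h1 with ⟨-, h⟩ | ⟨h, -⟩
      · exact h.symm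
      · exact absurd (h ▸ ha) hw
    by_cases hB : ∃ e a b, e ∉ C ∧ a ∈ verts G C ∧ b ∈ verts G C ∧ G.ends e = s(a, b)
    · obtain ⟨e, a, b, he, ha, hb, h1⟩ := hB
      obtain ⟨D, hD, -⟩ := hm G hG C {e} a b hC (Two.pathB G ha hb he h1) (by
        intro u u' hu _ h3 _
        exfalso
        have hq : ∀ x ∈ att G C {e} u, ∃ q, q ∉ verts G C ∧ ∃ f, G.ends f = s(q, x) := by
          rintro x ⟨-, q, hr, f, hf⟩
          have hq' : q ∈ (verts G (C ∪ {e}))ᶜ := Two.reach_out G (W := (verts G (C ∪ {e}))ᶜ) hu hr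
          exact ⟨q, fun h => hq' (Two.verts_mono G Finset.subset_union_left h), f, hf⟩
        choose! q hq1 hq2 using hq
        have h4 : (att G C {e} u).ncard ≤ ((verts G C)ᶜ).ncard := by
          apply Set.ncard_le_ncard_of_injOn q (fun x hx => hq1 x hx) _ (Set.toFinite _)
          intro x hx y hy hxy
          obtain ⟨f, hf⟩ := hq2 x hx
          obtain ⟨f', hf'⟩ := hq2 y hy
          have hxy' : q x = q y := hxy
          rw [← hxy'] at hf'
          exact hA'' (q x) x y f f' (hq1 x hx) hx.1 hy.1 hf hf'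
        omega)
      exact ⟨D, hD⟩
    · have hT : ∀ v ∈ verts G C, ∃ w, w ∉ verts G C ∧ ∃ e, G.ends e = s(w, v) := by
        intro v hv
        obtain ⟨e, he, hve, -⟩ := Two.third G hG hC hv
        obtain ⟨w, hw⟩ := Sym2.mem_iff_exists.1 hve
        refine ⟨w, fun h => hB ⟨e, v, w, he, hv, h, hw⟩, e, ?_⟩
        rw [hw, Sym2.eq_swap]
      obtain ⟨e0, he0⟩ := hC.nonempty
      obtain ⟨a, b, hab0⟩ : ∃ a b, G.ends e0 = s(a, b) := by
        induction h : G.ends e0 using Sym2.ind with
        | _ a b => exact ⟨a, b, rfl⟩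
      have hab : a ≠ b := by
        intro h
        apply G.loopless e0
        rw [hab0, h]
        simp
      have ha : a ∈ verts G C := ⟨e0, he0, by rw [hab0]; simp⟩
      have hb : b ∈ verts G C := ⟨e0, he0, by rw [hab0]; simp⟩
      obtain ⟨w1, hw1, e1, h1⟩ := hT a ha
      obtain ⟨w2, hw2, e2, h2⟩ := hT b hb
      have hw : w1 ≠ w2 := by
        rintro rfl
        exact hab (hA'' w1 a b e1 e2 hw1 ha hb h1 h2)
      obtain ⟨g, hg1, hg2⟩ : ∃ g, w1 ∈ G.ends g ∧ g ≠ e1 := by
        have h3 := hG w1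
        unfold deg at h3
        have h4 : 1 < (Finset.univ.filter (fun e => w1 ∈ G.ends e)).card := by omega
        obtain ⟨g, hg, hge⟩ := Finset.exists_mem_ne h4 e1
        exact ⟨g, (Finset.mem_filter.1 hg).2, hge⟩
      obtain ⟨z, hz⟩ := Sym2.mem_iff_exists.1 hg1
      have hzw : w1 ≠ z := by
        intro h
        apply G.loopless g
        rw [hz, ← h]
        simp
      have hzC : z ∉ verts G C := by
        intro h
        exact hg2 (hA' w1 z a g e1 hw1 h ha hz h1)
      have hz2 : z = w2 := hO3 w1 z w2 hw1 hzC hw2 hzw hw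
      rw [hz2] at hz
      obtain ⟨D, hD, -⟩ := hm G hG C {e1, g, e2} a b hC
        (Two.pathC G hw1 hw2 hw ha hb hab h1 h2 hz) (by
        intro u u' hu _ _ _
        exfalso
        have huC : u ∉ verts G C := fun h => hu (Two.verts_mono G Finset.subset_union_left h)
        by_cases h : w1 = u
        · exact hu ⟨e1, by simp, by rw [h1, ← h]; simp⟩
        · have h' := hO3 w1 u w2 hw1 huC hw2 h hw
          exact hu ⟨e2, by simp, by rw [h2, ← h']; simp⟩)
      exact ⟨D, hD⟩

end Pool.Agent.Work.MP_7794fd_co.R
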