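import Pool.Agent.Work.MP_7794fd_co.R.Stmts

/-! # Item 11: an end of the forced chord moves over the end of the root chord -/

set_option autoImplicit false

namespace Pool.Agent.Work.MP_7794fd_co.R

open Finset Matrix

namespace ChordY

variable {ι : Type} [Fintype ι] [DecidableEq ι]

theorem two0 (a : ZMod 2) : a + a = 0 := by
  revert a; decide

theorem lt2_away {c' c y z : ℚ} (h1 : c' < y) (h2 : y < c) (hz : Away c' c z) :
    lt2 y z = lt2 c z ∧ lt2 c' z = lt2 c z := by
  unfold lt2
  rcases hz with hz | hz
  · rw [if_neg (by linarith), if_neg (by linarith), if_neg (by linarith)]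
    exact ⟨rfl, rfl⟩
  · rw [if_pos (by linarith), if_pos (by linarith), if_pos (by linarith)]
    exact ⟨rfl, rfl⟩

theorem lt2_away' {c' c p : ℚ} (h1 : c' < c) (hp : Away c' c p) : lt2 p c' = lt2 p c := by
  unfold lt2
  rcases hp with hp | hp
  · rw [if_pos (by linarith), if_pos (by linarith)]
  · rw [if_neg (by linarith), if_neg (by linarith)]

theorem lt2_self (c : ℚ) : lt2 c c = 0 := by
  unfold lt2
  rw [if_neg (lt_irrefl c)]

theorem kap_upd (pos : ι → ℚ × ℚ) (y : ℚ) (M : Finset ι) (g : ι) (hg : g ∉ M) (p : ℚ × ℚ) (z : ℚ) :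
    kap (Function.update pos g p) y (M ∪ {g}) z
      = 1 + lt2 y z + (∑ m ∈ M, pt (pos m) z) + (lt2 p.1 z + lt2 p.2 z) := by
  unfold kap
  rw [Finset.sum_union (by simpa using hg), Finset.sum_singleton, Function.update_self]
  have : ∑ m ∈ M, pt (Function.update pos g p m) z = ∑ m ∈ M, pt (pos m) z := by
    refine Finset.sum_congr rfl fun m hm => ?_
    rw [Function.update_of_ne]
    rintro rfl
    exact hg hm
  rw [this]
  unfold pt
  ring

end ChordY

theorem I_ChordY (h1 : StDiag) : StChordY := by
  intro ι _ _ pos y V g r c' c h hg hy1 hy2 hr hV hI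
  unfold SS
  rw [← Finset.sum_add_distrib]
  refine Finset.sum_congr rfl fun M hM => ?_
  rw [Finset.mem_powerset] at hM
  have hgM : g ∉ M := fun h => hg (hM h)
  have hcc : c' < c := hy1.trans hy2
  -- colours of the points away
  have k1 : ∀ z, Away c' c z → kap (Function.update pos g (r, c)) y (M ∪ {g}) z
      = kap pos r (M ∪ ∅) z := by
    intro z hz
    rw [ChordY.kap_upd pos y M g hgM, (ChordY.lt2_away hy1 hy2 hz).1]
    rw [Finset.union_empty]
    unfold kap
    have := ChordY.two0 (lt2 c z)
    linear_combination this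
  have k2 : ∀ z, Away c' c z → kap (Function.update pos g (r, c')) y (M ∪ {g}) z
      = kap pos r (M ∪ ∅) z := by
    intro z hz
    rw [ChordY.kap_upd pos y M g hgM, (ChordY.lt2_away hy1 hy2 hz).1]
    rw [Finset.union_empty]
    unfold kap
    have := ChordY.two0 (lt2 c z)
    rw [show ((r, c').2 : ℚ) = c' from rfl, (ChordY.lt2_away hy1 hy2 hz).2]
    linear_combination this
  rw [hI _ _ k1, hI _ _ k2, ← add_mul]
  congr 1
  have hup : ∀ (p : ℚ × ℚ) (a : ι), a ≠ g → Function.update pos g p a = pos a := by
    intro p a ha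
    rw [Function.update_of_ne ha]
  have hMc : ∑ m ∈ M, pt (pos m) c' = ∑ m ∈ M, pt (pos m) c := by
    refine Finset.sum_congr rfl fun m hm => ?_
    unfold pt
    rw [ChordY.lt2_away' hcc (hV m (hM hm)).1, ChordY.lt2_away' hcc (hV m (hM hm)).2]
  rw [h1 (BM (Function.update pos g (r, c)) y (V ∪ {g}) (M ∪ {g}))
    (BM (Function.update pos g (r, c')) y (V ∪ {g}) (M ∪ {g})) g ?_ ?_]
  · congr 1
    funext a b
    by_cases ha : a = g
    · subst ha
      simp only [true_or, if_true]
      by_cases hab : a = b
      · subst hab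
        unfold BM
        rw [if_pos rfl, if_pos rfl, if_neg]
        simpa using hg
      · rw [if_neg hab]
        unfold BM
        rw [if_neg hab, if_neg]
        rintro ⟨h3, -⟩
        exact hgM (by simpa using h3)
    · by_cases hb : b = g
      · subst hb
        simp only [or_true, if_true]
        rw [if_neg ha]
        unfold BM
        rw [if_neg ha, if_neg]
        rintro ⟨-, h3⟩
        exact hgM (by simpa using h3)
      · rw [if_neg (by tauto)]
        unfold BM
        by_cases hab : a = b
        · subst hab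
          rw [if_pos rfl, if_pos rfl]
          by_cases haV : a ∈ V
          · rw [if_pos (by simp [haV]), if_pos (by simp [haV]), hup _ _ ha,
              k1 _ (hV a haV).1, k1 _ (hV a haV).2]
          · rw [if_neg (by simp [haV, ha]), if_neg (by simp [haV])]
        · rw [if_neg hab, if_neg hab, hup _ _ ha, hup _ _ hb]
          have : (a ∈ M ∪ {g} ∧ b ∈ M ∪ {g}) ↔ (a ∈ M ∪ ∅ ∧ b ∈ M ∪ ∅) := by
            simp [ha, hb]
          by_cases h3 : a ∈ M ∪ {g} ∧ b ∈ M ∪ {g}
          · rw [if_pos h3, if_pos (this.1 h3)]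
          · rw [if_neg h3, if_neg (fun h4 => h3 (this.2 h4))]
  · -- the diagonal entry
    unfold BM
    rw [if_pos rfl, if_pos rfl, if_pos (by simp), if_pos (by simp)]
    simp only [Function.update_self]
    rw [ChordY.kap_upd pos y M g hgM, ChordY.kap_upd pos y M g hgM,
      ChordY.kap_upd pos y M g hgM, ChordY.kap_upd pos y M g hgM]
    rw [hMc, ChordY.lt2_self, ChordY.lt2_self]
    have e1 : lt2 c' r = lt2 c r := (ChordY.lt2_away hy1 hy2 hr).2
    have e2 : lt2 r c' = lt2 r c := ChordY.lt2_away' hcc hr
    have e3 : lt2 y c = 1 := by unfold lt2; rw [if_pos hy2]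
    have e4 : lt2 y c' = 0 := by unfold lt2; rw [if_neg (by linarith)]
    simp only [e1, e2, e3, e4, ChordY.lt2_self]
    have := ChordY.two0 1
    linear_combination -this
  · -- the other entries
    intro a b hab
    unfold BM
    by_cases hh : a = b
    · subst hh
      have ha : a ≠ g := by tauto
      rw [if_pos rfl, if_pos rfl]
      by_cases haV : a ∈ V
      · rw [if_pos (by simp [haV]), if_pos (by simp [haV]), hup _ _ ha, hup _ _ ha,
          k1 _ (hV a haV).1, k1 _ (hV a haV).2, k2 _ (hV a haV).1, k2 _ (hV a haV).2]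
      · rw [if_neg (by simp [haV, ha]), if_neg (by simp [haV, ha])]
    · rw [if_neg hh, if_neg hh]
      by_cases h3 : a ∈ M ∪ {g} ∧ b ∈ M ∪ {g}
      · rw [if_pos h3, if_pos h3]
        by_cases ha : a = g
        · subst ha
          have hb : b ≠ a := fun h => hh h.symm
          have hbM : b ∈ M := by simpa [hb] using h3.2
          rw [hup _ _ hb, hup _ _ hb, Function.update_self, Function.update_self]
          unfold cr
          simp only [pt]
          rw [ChordY.lt2_away' hcc (hV b (hM hbM)).1, ChordY.lt2_away' hcc (hV b (hM hbM)).2]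
        · by_cases hb : b = g
          · subst hb
            have haM : a ∈ M := by simpa [ha] using h3.1
            rw [hup _ _ ha, hup _ _ ha, Function.update_self, Function.update_self]
            unfold cr
            simp only [pt]
            rw [(ChordY.lt2_away hy1 hy2 (hV a (hM haM)).1).2,
              (ChordY.lt2_away hy1 hy2 (hV a (hM haM)).2).2]
          · rw [hup _ _ ha, hup _ _ hb, hup _ _ ha, hup _ _ hb]
      · rw [if_neg h3, if_neg h3]

end Pool.Agent.Work.MP_7794fd_co.R
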