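import Pool.Agent.Results.MP_7794fd_co.RootedSemiExtension
import Pool.Agent.Work.MP_7794fd_co.R.Two
import Pool.Agent.Work.MP_7794fd_co.R.Isol

/-! MP_7794fd_co: two corollaries of the rooted theorem. -/

set_option autoImplicit false

namespace Pool.Agent.Work.MP_7794fd_co.R

/-- every circuit which misses at most two vertices has a semi-extension -/
theorem two : StTwo := I_Two Pool.Agent.Results.MP_7794fd_co.RootedSemiExtension.stMain

/-- the outside vertices are an isolated vertex and a connected rest -/
theorem isol : StIsol := I_Isol Pool.Agent.Results.MP_7794fd_co.RootedSemiExtension.stMain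

end Pool.Agent.Work.MP_7794fd_co.R
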