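import Pool.Agent.Work.MP_7794fd_co.R.Stmts

/-! Project MP_7794fd_co, module R, item Diag: changing a diagonal entry by one -/

set_option autoImplicit false

namespace Pool.Agent.Work.MP_7794fd_co.R

open Finset Matrix

theorem Diag.det_eq {ι : Type} [Fintype ι] [DecidableEq ι] (X : Matrix ι ι (ZMod 2)) (u : ι) :
    (X.updateRow u (Pi.single u 1)).det =
      Matrix.det (fun a b => if a = u ∨ b = u then (if a = b then (1 : ZMod 2) else 0) else X a b) := by
  rw [Matrix.det_apply, Matrix.det_apply]
  refine Finset.sum_congr rfl fun σ _ => ?_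
  congr 1
  by_cases hs : σ u = u
  · refine Finset.prod_congr rfl fun i _ => ?_
    by_cases hi : i = u
    · subst hi
      rw [hs]
      simp
    · have h1 : σ i ≠ u := by
        intro h
        exact hi (σ.injective (h.trans hs.symm))
      rw [Matrix.updateRow_ne h1]
      simp [h1, hi]
  · have h1 : σ (σ.symm u) = u := σ.apply_symm_apply u
    have h2 : σ.symm u ≠ u := by
      intro h
      rw [h] at h1
      exact hs h1
    rw [Finset.prod_eq_zero (Finset.mem_univ (σ.symm u)), Finset.prod_eq_zero
      (Finset.mem_univ (σ.symm u))]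
    · rw [h1]
      simp [h2.symm]
    · rw [h1]
      simp [h2]

theorem I_Diag : StDiag := by
  intro ι _ _ X X' u h1 h2
  have h3 : X' = X.updateRow u (X u + Pi.single u 1) := by
    ext a b
    by_cases ha : a = u
    · subst ha
      rw [Matrix.updateRow_self]
      by_cases hb : b = a
      · subst hb
        simp [h1]
      · rw [h2 a b (Or.inr hb)]
        simp [hb]
    · rw [Matrix.updateRow_ne ha, h2 a b (Or.inl ha)]
  rw [h3, Matrix.det_updateRow_add, Matrix.updateRow_eq_self, ← add_assoc,
    CharTwo.add_self_eq_zero, zero_add, Diag.det_eq]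

end Pool.Agent.Work.MP_7794fd_co.R
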