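import Pool.Agent.Work.MP_7794fd_co.Defs

/-! Project MP_7794fd_co, module R: semi-extensions through a given path (rooted one bridge
theorem).  Definitions and statements of the items.  Every item is a theorem with the given name
and signature, in its own file. -/

set_option autoImplicit false

namespace Pool.Agent.Work.MP_7794fd_co.R

open Finset Matrix

/-! ### Chord diagrams on the line

The circle is cut open at the first end `x` of the root chord; all other points are rational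
numbers.  The second end of the root chord is `y`.  A chord is a pair of rational numbers. -/

section Chords

/-- the indicator of `p < z` -/
def lt2 (p z : ℚ) : ZMod 2 := if p < z then 1 else 0

/-- the number of ends of the chord `u` before `z` -/
def pt (u : ℚ × ℚ) (z : ℚ) : ZMod 2 := lt2 u.1 z + lt2 u.2 z

/-- crossing of two chords -/
def cr (u v : ℚ × ℚ) : ZMod 2 := pt v u.1 + pt v u.2

variable {ι : Type} [Fintype ι] [DecidableEq ι]

/-- the colour of the point `z` if the chords of `M` and the root chord are used -/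
def kap (pos : ι → ℚ × ℚ) (y : ℚ) (M : Finset ι) (z : ℚ) : ZMod 2 :=
  1 + lt2 y z + ∑ m ∈ M, pt (pos m) z

/-- the matrix of the set `M` of used chords among the chords `V` -/
def BM (pos : ι → ℚ × ℚ) (y : ℚ) (V M : Finset ι) : Matrix ι ι (ZMod 2) := fun u v =>
  if u = v then (if u ∈ V then 1 + kap pos y M (pos u).1 + kap pos y M (pos u).2 else 1)
  else if u ∈ M ∧ v ∈ M then cr (pos u) (pos v) else 0

/-- the state sum: the chords of `W` are forced, the chords of `V` are free -/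
def SS (pos : ι → ℚ × ℚ) (y : ℚ) (V W : Finset ι) (h : (ℚ → ZMod 2) → ZMod 2) : ZMod 2 :=
  ∑ M ∈ V.powerset, (BM pos y (V ∪ W) (M ∪ W)).det * h (kap pos y (M ∪ W))

/-- all points of `A` have colour one -/
def allc (A : Finset ℚ) (κ : ℚ → ZMod 2) : ZMod 2 := ∏ a ∈ A, κ a

/-- all points of `A` have the same colour (for nonempty `A`) -/
def mono (A : Finset ℚ) (κ : ℚ → ZMod 2) : ZMod 2 := ∏ a ∈ A, κ a + ∏ a ∈ A, (1 + κ a)

/-- the pairs of a finite set -/
def pairs (A : Finset ℚ) : Finset (ℚ × ℚ) := (A ×ˢ A).filter (fun p => p.1 < p.2)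

/-- the ends of the chords of `V` and the points of `Z` are pairwise different -/
structure Gen (pos : ι → ℚ × ℚ) (V : Finset ι) (Z : Finset ℚ) : Prop where
  ne : ∀ u ∈ V, (pos u).1 ≠ (pos u).2
  dis : ∀ u ∈ V, ∀ v ∈ V, u ≠ v → (pos u).1 ≠ (pos v).1 ∧ (pos u).1 ≠ (pos v).2 ∧
    (pos u).2 ≠ (pos v).1 ∧ (pos u).2 ≠ (pos v).2
  out : ∀ u ∈ V, (pos u).1 ∉ Z ∧ (pos u).2 ∉ Z

/-- the point `z` is not in the interval from `c'` to `c` -/
def Away (c' c z : ℚ) : Prop := z < c' ∨ c < z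

/-- `h` does not depend on the colours of the points from `c'` to `c` -/
def Indep (c' c : ℚ) (h : (ℚ → ZMod 2) → ZMod 2) : Prop :=
  ∀ κ₁ κ₂ : ℚ → ZMod 2, (∀ z, Away c' c z → κ₁ z = κ₂ z) → h κ₁ = h κ₂

/-- `p` and `q` are the ends of the chord `u` -/
def EndsOf (pos : ι → ℚ × ℚ) (u : ι) (p q : ℚ) : Prop := pos u = (p, q) ∨ pos u = (q, p)

/-- the unrooted sum over the choices of the second end of the root chord in `A` -/
def Gr (pos : ι → ℚ × ℚ) (V : Finset ι) (A : Finset ℚ) : ZMod 2 :=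
  ∑ r ∈ A, SS pos r V ∅ (allc (A.erase r))

/-- the rooted sum for a bridge with the set `A` of attachments -/
def Om (pos : ι → ℚ × ℚ) (y : ℚ) (V : Finset ι) (g : ι) (A : Finset ℚ) : ZMod 2 :=
  SS pos y V ∅ (mono A) +
    ∑ p ∈ pairs A, SS (Function.update pos g p) y V {g} (allc ((A.erase p.1).erase p.2))

end Chords

/-! ### Statements: determinants modulo two -/

/-- D1: changing a diagonal entry by one. -/
def StDiag : Prop := ∀ {ι : Type} [Fintype ι] [DecidableEq ι] (X X' : Matrix ι ι (ZMod 2)) (u : ι),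
  X' u u = X u u + 1 → (∀ a b, (a ≠ u ∨ b ≠ u) → X' a b = X a b) →
    X.det + X'.det =
      Matrix.det (fun a b => if a = u ∨ b = u then (if a = b then (1 : ZMod 2) else 0) else X a b)

/-- D2: deletion and contraction for two indices. -/
def StContr : Prop := ∀ {ι : Type} [Fintype ι] [DecidableEq ι] (X X' Y : Matrix ι ι (ZMod 2))
  (u v : ι), u ≠ v →
  X' u u = X u u + 1 → X' v v = X v v + 1 → X' u v = X u v + 1 → X' v u = X v u + 1 →
  (∀ a b, ((a ≠ u ∧ a ≠ v) ∨ (b ≠ u ∧ b ≠ v)) → X' a b = X a b) →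
  (∀ a b, (a = u ∨ b = u) → Y a b = if a = b then 1 else 0) →
  (∀ a b, a ≠ u → a ≠ v → b ≠ u → b ≠ v → Y a b = X a b) →
  (∀ b, b ≠ u → b ≠ v → Y v b = X v b + X u b ∧ Y b v = X b v + X b u) →
  Y v v = X v v + X v u + X u v + X u u →
    X.det + X'.det = Y.det

/-- D3: an index which is isolated. -/
def StIso : Prop := ∀ {ι : Type} [Fintype ι] [DecidableEq ι] (X Y : Matrix ι ι (ZMod 2)) (u : ι),
  (∀ b, b ≠ u → X u b = 0 ∧ X b u = 0) →
  (∀ a b, a ≠ u → b ≠ u → Y a b = X a b) → (∀ b, b ≠ u → Y u b = 0 ∧ Y b u = 0) → Y u u = 1 →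
    X.det = X u u * Y.det

/-! ### Statements: the state sums -/

/-- 4: the symmetry of a chord. -/
def StSwap : Prop := ∀ {ι : Type} [Fintype ι] [DecidableEq ι] (pos pos' : ι → ℚ × ℚ) (y : ℚ)
  (V W : Finset ι) (h : (ℚ → ZMod 2) → ZMod 2),
  (∀ u ∈ V ∪ W, pos' u = pos u ∨ pos' u = (pos u).swap) → SS pos y V W h = SS pos' y V W h

/-- 5: linearity. -/
def StLin : Prop := ∀ {ι : Type} [Fintype ι] [DecidableEq ι] (pos : ι → ℚ × ℚ) (y : ℚ)
  (V W : Finset ι) (h₁ h₂ h₃ : (ℚ → ZMod 2) → ZMod 2),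
  (∀ M ∈ V.powerset, h₃ (kap pos y (M ∪ W)) = h₁ (kap pos y (M ∪ W)) + h₂ (kap pos y (M ∪ W))) →
    SS pos y V W h₃ = SS pos y V W h₁ + SS pos y V W h₂

/-- 6: the chord `u` is used or not. -/
def StSplit : Prop := ∀ {ι : Type} [Fintype ι] [DecidableEq ι] (pos : ι → ℚ × ℚ) (y : ℚ)
  (V W : Finset ι) (u : ι) (h : (ℚ → ZMod 2) → ZMod 2), u ∈ V → Disjoint V W →
    SS pos y V W h = SS pos y (V.erase u) (insert u W) h +
      SS pos y (V.erase u) W (fun κ => (1 + κ (pos u).1 + κ (pos u).2) * h κ)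

/-- 7: the colour change of a point which moves over an end of the free chord `u`. -/
def StPoint : Prop := ∀ {ι : Type} [Fintype ι] [DecidableEq ι] (pos : ι → ℚ × ℚ) (y : ℚ)
  (V W : Finset ι) (u : ι) (c' c p q : ℚ) (h : (ℚ → ZMod 2) → ZMod 2),
  u ∈ V → Disjoint V W → EndsOf pos u p q → c' < p → p < c → Away c' c q → Away c' c y →
  (∀ w ∈ V ∪ W, w ≠ u → Away c' c (pos w).1 ∧ Away c' c (pos w).2) →
    SS pos y V W (fun κ => (κ c + κ c') * h κ) = SS pos y (V.erase u) (insert u W) h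

/-- 8: the colour change of a point which moves over the end of the root chord. -/
def StPointY : Prop := ∀ {ι : Type} [Fintype ι] [DecidableEq ι] (pos : ι → ℚ × ℚ) (y : ℚ)
  (V W : Finset ι) (c' c : ℚ) (h : (ℚ → ZMod 2) → ZMod 2),
  c' < y → y < c → (∀ w ∈ V ∪ W, Away c' c (pos w).1 ∧ Away c' c (pos w).2) →
    SS pos y V W (fun κ => (κ c + κ c') * h κ) = SS pos y V W h

/-- 9: the end of the root chord moves over an end of the free chord `u`. -/
def StRoot : Prop := ∀ {ι : Type} [Fintype ι] [DecidableEq ι] (pos : ι → ℚ × ℚ)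
  (V : Finset ι) (u : ι) (c' c p q : ℚ) (h : (ℚ → ZMod 2) → ZMod 2),
  u ∈ V → EndsOf pos u p q → c' < p → p < c → Away c' c q →
  (∀ w ∈ V, w ≠ u → Away c' c (pos w).1 ∧ Away c' c (pos w).2) → Indep c' c h →
    SS pos c V ∅ h + SS pos c' V ∅ h = SS pos c (V.erase u) ∅ h + SS pos q (V.erase u) ∅ h

/-- 10: an end of the forced chord `g` moves over an end of the free chord `u`. -/
def StChord : Prop := ∀ {ι : Type} [Fintype ι] [DecidableEq ι] (pos : ι → ℚ × ℚ) (y : ℚ)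
  (V : Finset ι) (g u : ι) (r c' c p q : ℚ) (h : (ℚ → ZMod 2) → ZMod 2),
  g ∉ V → u ∈ V → EndsOf pos u p q → c' < p → p < c → Away c' c q → Away c' c y →
  Away c' c r → r ≠ q →
  (∀ w ∈ V, w ≠ u → Away c' c (pos w).1 ∧ Away c' c (pos w).2) → Indep c' c h →
    SS (Function.update pos g (r, c)) y V {g} h + SS (Function.update pos g (r, c')) y V {g} h =
    SS (Function.update pos g (r, c)) y (V.erase u) {g} h +
      SS (Function.update pos g (r, q)) y (V.erase u) {g} h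

/-- 11: an end of the forced chord `g` moves over the end of the root chord. -/
def StChordY : Prop := ∀ {ι : Type} [Fintype ι] [DecidableEq ι] (pos : ι → ℚ × ℚ) (y : ℚ)
  (V : Finset ι) (g : ι) (r c' c : ℚ) (h : (ℚ → ZMod 2) → ZMod 2),
  g ∉ V → c' < y → y < c → Away c' c r →
  (∀ w ∈ V, Away c' c (pos w).1 ∧ Away c' c (pos w).2) → Indep c' c h →
    SS (Function.update pos g (r, c)) y V {g} h + SS (Function.update pos g (r, c')) y V {g} h =
    SS pos r V ∅ h

/-- 12: the root chord ends before all other chords. -/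
def StBase : Prop := ∀ {ι : Type} [Fintype ι] [DecidableEq ι] (pos : ι → ℚ × ℚ) (y : ℚ)
  (V : Finset ι) (h : (ℚ → ZMod 2) → ZMod 2), Gen pos V ∅ →
  (∀ w ∈ V, y < (pos w).1 ∧ y < (pos w).2) → SS pos y V ∅ h = h (kap pos y ∅)

/-- 13: the forced chord `g` ends before all other chords. -/
def StBaseG : Prop := ∀ {ι : Type} [Fintype ι] [DecidableEq ι] (pos : ι → ℚ × ℚ) (y : ℚ)
  (V : Finset ι) (g : ι) (r s : ℚ) (h : (ℚ → ZMod 2) → ZMod 2), g ∉ V → r < s → s < y →
  (∀ w ∈ V, s < (pos w).1 ∧ s < (pos w).2) →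
    SS (Function.update pos g (r, s)) y V {g} h = 0

/-- 14: the sum over the second end of the root chord. -/
def StGr : Prop := ∀ {ι : Type} [Fintype ι] [DecidableEq ι] (pos : ι → ℚ × ℚ)
  (V : Finset ι) (A : Finset ℚ), A.Nonempty → Gen pos V A → Gr pos V A = 1

/-- 15: adding a point to `A`. -/
def StOmInsert : Prop := ∀ {ι : Type} [Fintype ι] [DecidableEq ι] (pos : ι → ℚ × ℚ) (y : ℚ)
  (V : Finset ι) (g : ι) (A : Finset ℚ) (c : ℚ), g ∉ V → A.Nonempty → c ∉ A →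
    Om pos y V g (insert c A) =
      SS pos y V ∅ (fun κ => κ c * (∏ a ∈ A, κ a) + (1 + κ c) * ∏ a ∈ A, (1 + κ a)) +
      ∑ p ∈ pairs A, SS (Function.update pos g p) y V {g}
        (fun κ => κ c * allc ((A.erase p.1).erase p.2) κ) +
      ∑ r ∈ A, SS (Function.update pos g (r, c)) y V {g} (allc (A.erase r))

/-- 16: moving a point of `A` over an end of a free chord. -/
def StOmSlide : Prop := ∀ {ι : Type} [Fintype ι] [DecidableEq ι] (pos : ι → ℚ × ℚ) (y : ℚ)
  (V : Finset ι) (g u : ι) (A : Finset ℚ) (c' c p q : ℚ),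
  g ∉ V → A.Nonempty → u ∈ V → EndsOf pos u p q → c' < p → p < c → Away c' c q → Away c' c y →
  y ∉ A → (∀ a ∈ A, Away c' c a) → Gen pos V (insert y A) →
  (∀ w ∈ V, w ≠ u → Away c' c (pos w).1 ∧ Away c' c (pos w).2) →
  Om pos y V g A = 1 → Om pos y (V.erase u) g A = 1 →
  Om pos y (V.erase u) g (insert c A) = 1 → Om pos y (V.erase u) g (insert q A) = 1 →
    Om pos y V g (insert c A) = Om pos y V g (insert c' A)

/-- 17: moving a point of `A` over the end of the root chord. -/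
def StOmSlideY : Prop := ∀ {ι : Type} [Fintype ι] [DecidableEq ι] (pos : ι → ℚ × ℚ) (y : ℚ)
  (V : Finset ι) (g : ι) (A : Finset ℚ) (c' c : ℚ),
  g ∉ V → A.Nonempty → c' < y → y < c → y ∉ A → (∀ a ∈ A, Away c' c a) →
  (∀ w ∈ V, Away c' c (pos w).1 ∧ Away c' c (pos w).2) →
  Om pos y V g A = 1 → Gr pos V A = 1 →
    Om pos y V g (insert c A) = Om pos y V g (insert c' A)

/-- 18: the parity theorem. -/
def StOm : Prop := ∀ {ι : Type} [Fintype ι] [DecidableEq ι] (pos : ι → ℚ × ℚ) (y : ℚ)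
  (V : Finset ι) (g : ι) (A : Finset ℚ), g ∉ V → A.Nonempty → y ∉ A → Gen pos V (insert y A) →
    Om pos y V g A = 1

/-! ### Pairings of the vertices of a cycle -/

/-- the edge at the vertex `i` with colour `s`; the edge `i` joins the vertices `i` and `i + 1`
of a cycle with `n` vertices -/
def arc (n : ℕ) (col : ℕ → ZMod 2) (s : ZMod 2) (i : ℕ) : ℕ :=
  if col i = s then i else if i = 0 then n - 1 else i - 1

/-- a good pairing of the vertices `0, ..., n-1` of a cycle with the root pair `0, y`;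
`pr i = i` means that `i` is not paired, `col i` is the colour of the edge `i`, `R` is the relation
to lie in the same bridge -/
structure GoodPairing (n y : ℕ) (R : ℕ → ℕ → Prop) (pr : ℕ → ℕ) (col : ℕ → ZMod 2) : Prop where
  lt : ∀ i < n, pr i < n
  inv : ∀ i < n, pr (pr i) = i
  root : pr 0 = y
  rel : ∀ i, 0 < i → i < n → i ≠ y → pr i ≠ i → R i (pr i)
  one : ∀ i j, 0 < i → i < n → i ≠ y → 0 < j → j < n → j ≠ y → pr i ≠ i → pr j ≠ j → R i j →
    j = i ∨ j = pr i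
  col0 : col 0 = 1
  coln : col (n - 1) = 0
  flip : ∀ i, 0 < i → i < n → (pr i = i → col i = col (i - 1)) ∧
    (pr i ≠ i → col i = col (i - 1) + 1)
  same : ∀ i j, 0 < i → i < n → i ≠ y → 0 < j → j < n → j ≠ y → R i j → pr i = i → pr j = j →
    col i = col j
  conn : ∀ (s : ZMod 2) (lam : ℕ → ZMod 2),
    (∀ i, 0 < i → i < n → pr i = i → col i = s → lam i = lam (i - 1)) →
    (∀ i < n, pr i ≠ i → lam (arc n col s i) = lam (arc n col s (pr i))) →
    ∀ i < n, ∀ j < n, col i = s → col j = s → lam i = lam j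

/-- 19: nonzero determinants give connected circuits (see the specification). -/
def StKernel : Prop := ∀ {ι : Type} [Fintype ι] [DecidableEq ι] (n : ℕ) (pos : ι → ℚ × ℚ) (y : ℕ)
  (V M : Finset ι) (e : ι → ℕ × ℕ), 0 < y → y < n → M ⊆ V →
  (∀ u ∈ M, pos u = (((e u).1 : ℚ), ((e u).2 : ℚ))) →
  (∀ u ∈ M, 0 < (e u).1 ∧ (e u).1 < (e u).2 ∧ (e u).2 < n ∧ (e u).1 ≠ y ∧ (e u).2 ≠ y) →
  (∀ u ∈ M, ∀ v ∈ M, u ≠ v → (e u).1 ≠ (e v).1 ∧ (e u).1 ≠ (e v).2 ∧ (e u).2 ≠ (e v).1 ∧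
    (e u).2 ≠ (e v).2) →
  (BM pos y V M).det ≠ 0 → ∀ (s : ZMod 2) (col lam : ℕ → ZMod 2),
  (∀ i < n, col i = kap pos y M ((i : ℚ) + 1 / 2)) →
  (∀ i, 0 < i → i < n → i ≠ y → (∀ u ∈ M, i ≠ (e u).1 ∧ i ≠ (e u).2) → col i = s →
    lam i = lam (i - 1)) →
  (∀ u ∈ M, lam (arc n col s (e u).1) = lam (arc n col s (e u).2)) →
  lam (arc n col s 0) = lam (arc n col s y) →
    ∀ i < n, ∀ j < n, col i = s → col j = s → lam i = lam j

/-- 19b: the involution of a set of disjoint pairs. -/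
def StPr : Prop := ∀ {ι : Type} [Fintype ι] [DecidableEq ι] (n y : ℕ) (N : Finset ι)
  (e : ι → ℕ × ℕ), 0 < y → y < n →
  (∀ u ∈ N, 0 < (e u).1 ∧ (e u).1 < (e u).2 ∧ (e u).2 < n ∧ (e u).1 ≠ y ∧ (e u).2 ≠ y) →
  (∀ u ∈ N, ∀ v ∈ N, u ≠ v → (e u).1 ≠ (e v).1 ∧ (e u).1 ≠ (e v).2 ∧ (e u).2 ≠ (e v).1 ∧
    (e u).2 ≠ (e v).2) →
  ∃ pr : ℕ → ℕ, (∀ i < n, pr i < n) ∧ (∀ i < n, pr (pr i) = i) ∧ pr 0 = y ∧
    (∀ u ∈ N, pr (e u).1 = (e u).2 ∧ pr (e u).2 = (e u).1) ∧
    ∀ i, 0 < i → i < n → i ≠ y → (∀ u ∈ N, i ≠ (e u).1 ∧ i ≠ (e u).2) → pr i = i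

/-- 20: the combinatorial theorem. -/
def StCore : Prop := ∀ (n y : ℕ) (R : ℕ → ℕ → Prop), 0 < y → y < n →
  (∀ i, R i i) → (∀ i j, R i j → R j i) → (∀ i j k, R i j → R j k → R i k) →
  (∀ a b c a' b' c' : ℕ,
    (∀ i ∈ ({a, b, c, a', b', c'} : Finset ℕ), 0 < i ∧ i < n ∧ i ≠ y) →
    a ≠ b → b ≠ c → a ≠ c → a' ≠ b' → b' ≠ c' → a' ≠ c' → R a b → R b c → R a' b' → R b' c' →
    R a a') →
  ∃ (pr : ℕ → ℕ) (col : ℕ → ZMod 2), GoodPairing n y R pr col

/-! ### Graphs -/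

section Graphs

variable {V E : Type} [Fintype V] [DecidableEq V] [Fintype E] [DecidableEq E] (G : MG V E)

/-- `P` is the edge set of a path with ends `x` and `y` on `C`, internally disjoint from `C` -/
structure IsCPath (C P : Finset E) (x y : V) : Prop where
  disj : Disjoint C P
  ne : x ≠ y
  memx : x ∈ verts G C
  memy : y ∈ verts G C
  degx : deg G P x = 1
  degy : deg G P y = 1
  degC : ∀ v ∈ verts G C, v ≠ x → v ≠ y → deg G P v = 0
  degO : ∀ v, v ∉ verts G C → deg G P v = 0 ∨ deg G P v = 2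
  conn : ∀ e ∈ P, ∀ f ∈ P, Linked G Set.univ P e f

/-- the neighbours on `C` of the component of `G - V(C ∪ P)` which contains `u` -/
def att (C P : Finset E) (u : V) : Set V :=
  {x | x ∈ verts G C ∧ ∃ q, Reach G (verts G (C ∪ P))ᶜ Finset.univ u q ∧ ∃ e, G.ends e = s(q, x)}

/-- the vertices `i, j` of `C` belong to the same bridge of `C ∪ P` -/
def SameBridge (C P : Finset E) (v w : V) : Prop :=
  v = w ∨ (∃ e, e ∉ C ∧ e ∉ P ∧ G.ends e = s(v, w)) ∨
    ∃ u, u ∉ verts G (C ∪ P) ∧ v ∈ att G C P u ∧ w ∈ att G C P u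

/-- `f, c` is a cyclic enumeration of the vertices and edges of `C` -/
structure IsCyc (C : Finset E) (n : ℕ) (f : ℕ → V) (c : ℕ → E) : Prop where
  two : 2 ≤ n
  injf : ∀ i < n, ∀ j < n, f i = f j → i = j
  injc : ∀ i < n, ∀ j < n, c i = c j → i = j
  memc : ∀ e, e ∈ C ↔ ∃ i < n, c i = e
  memf : ∀ v, v ∈ verts G C ↔ ∃ i < n, f i = v
  ends : ∀ i < n, G.ends (c i) = s(f i, f ((i + 1) % n))

end Graphs

/-- 21: cyclic enumeration of a circuit. -/
def StCyc : Prop := ∀ {V E : Type} [Fintype V] [DecidableEq V] [Fintype E] [DecidableEq E]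
  (G : MG V E) (C : Finset E), IsCircuit G C → ∀ x ∈ verts G C,
    ∃ (n : ℕ) (f : ℕ → V) (c : ℕ → E), IsCyc G C n f c ∧ f 0 = x

/-- 22: a path through a connected set of vertices. -/
def StPath : Prop := ∀ {V E : Type} [Fintype V] [DecidableEq V] [Fintype E] [DecidableEq E]
  (G : MG V E) (W : Set V) (x y u q : V) (e f : E), x ∉ W → y ∉ W → x ≠ y → u ∈ W → q ∈ W →
  G.ends e = s(x, u) → G.ends f = s(q, y) → Reach G W Finset.univ u q →
    ∃ F : Finset E, deg G F x = 1 ∧ deg G F y = 1 ∧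
      (∀ v, v ≠ x → v ≠ y → deg G F v = 0 ∨ deg G F v = 2) ∧
      (∀ v, v ≠ x → v ≠ y → deg G F v ≠ 0 → Reach G W Finset.univ u v) ∧
      (∀ a ∈ F, ∃ z ∈ W, z ∈ G.ends a) ∧
      (∀ a ∈ F, ∀ b ∈ F, Linked G Set.univ F a b)

/-- 23: two vertices of the same bridge are joined by a path in the bridge. -/
def StBridgePath : Prop := ∀ {V E : Type} [Fintype V] [DecidableEq V] [Fintype E] [DecidableEq E]
  (G : MG V E) (C P : Finset E) (x y : V), Cubic G → IsCircuit G C → IsCPath G C P x y →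
  ∀ v w, v ∈ verts G C → w ∈ verts G C → v ≠ w → SameBridge G C P v w →
    ∃ F : Finset E, Disjoint C F ∧ deg G F v = 1 ∧ deg G F w = 1 ∧
      (∀ z ∈ verts G (C ∪ P), z ≠ v → z ≠ w → deg G F z = 0) ∧
      (∀ z, z ∉ verts G (C ∪ P) → deg G F z = 0 ∨ deg G F z = 2) ∧
      (∀ z, z ∉ verts G (C ∪ P) → deg G F z ≠ 0 → v ∈ att G C P z ∧ w ∈ att G C P z) ∧
      (∀ a ∈ F, ∀ b ∈ F, Linked G Set.univ F a b)

/-- 24: the relation is an equivalence on the vertices of `C` which are not ends of `P`. -/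
def StEquiv : Prop := ∀ {V E : Type} [Fintype V] [DecidableEq V] [Fintype E] [DecidableEq E]
  (G : MG V E) (C P : Finset E) (x y : V), Cubic G → IsCircuit G C → IsCPath G C P x y →
  (∀ v w, SameBridge G C P v w → SameBridge G C P w v) ∧
  (∀ v w z, v ∈ verts G C → w ∈ verts G C → z ∈ verts G C → SameBridge G C P v w →
    SameBridge G C P w z → SameBridge G C P v z) ∧
  (∀ v ∈ verts G C, ∀ w ∈ verts G C, ∀ z ∈ verts G C, v ≠ w → w ≠ z → v ≠ z →
    SameBridge G C P v w → SameBridge G C P w z →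
      ∃ u, u ∉ verts G (C ∪ P) ∧ v ∈ att G C P u ∧ w ∈ att G C P u ∧ z ∈ att G C P u)

/-- the union `Q` of the paths of a good pairing -/
structure IsQ {V E : Type} [Fintype V] [DecidableEq V] [Fintype E] [DecidableEq E]
    (G : MG V E) (C P : Finset E) (n : ℕ) (f : ℕ → V) (pr : ℕ → ℕ) (Q : Finset E) : Prop where
  sub : P ⊆ Q
  disj : Disjoint C Q
  degC : ∀ i < n, deg G Q (f i) = if pr i = i then 0 else 1
  degO : ∀ z, z ∉ verts G C → deg G Q z = 0 ∨ deg G Q z = 2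
  link : ∀ i < n, pr i ≠ i → ∀ a ∈ Q, ∀ b ∈ Q, f i ∈ G.ends a → f (pr i) ∈ G.ends b →
    Linked G Set.univ Q a b
  meet : ∀ a ∈ Q, ∃ i < n, pr i ≠ i ∧ ∃ b ∈ Q, f i ∈ G.ends b ∧ Linked G Set.univ Q a b

/-- 25: the union of the paths of a good pairing exists. -/
def StPaths : Prop := ∀ {V E : Type} [Fintype V] [DecidableEq V] [Fintype E] [DecidableEq E]
  (G : MG V E) (C P : Finset E) (x y : V), Cubic G → IsCircuit G C → IsCPath G C P x y →
  ∀ (n : ℕ) (f : ℕ → V) (c : ℕ → E) (iy : ℕ) (pr : ℕ → ℕ) (col : ℕ → ZMod 2),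
  IsCyc G C n f c → f 0 = x → 0 < iy → iy < n → f iy = y →
  GoodPairing n iy (fun i j => SameBridge G C P (f i) (f j)) pr col →
    ∃ Q : Finset E, IsQ G C P n f pr Q

/-- 26: the two circuits. -/
def StSide : Prop := ∀ {V E : Type} [Fintype V] [DecidableEq V] [Fintype E] [DecidableEq E]
  (G : MG V E) (C P : Finset E), Cubic G → IsCircuit G C →
  ∀ (n : ℕ) (f : ℕ → V) (c : ℕ → E) (iy : ℕ) (R : ℕ → ℕ → Prop) (pr : ℕ → ℕ)
  (col : ℕ → ZMod 2) (Q : Finset E),
  IsCyc G C n f c → 0 < iy → iy < n → GoodPairing n iy R pr col → IsQ G C P n f pr Q →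
  ∀ (s : ZMod 2) (D : Finset E), (∀ e, e ∈ D ↔ e ∈ Q ∨ ∃ i < n, c i = e ∧ col i = s) →
    IsCircuit G D

/-- 27: from a good pairing to a semi-extension. -/
def StAssemble : Prop := ∀ {V E : Type} [Fintype V] [DecidableEq V] [Fintype E] [DecidableEq E]
  (G : MG V E) (C P : Finset E) (x y : V), Cubic G → IsCircuit G C → IsCPath G C P x y →
  ∀ (n : ℕ) (f : ℕ → V) (c : ℕ → E) (iy : ℕ) (pr : ℕ → ℕ) (col : ℕ → ZMod 2) (Q : Finset E),
  IsCyc G C n f c → f 0 = x → 0 < iy → iy < n → f iy = y →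
  GoodPairing n iy (fun i j => SameBridge G C P (f i) (f j)) pr col → IsQ G C P n f pr Q →
    ∃ D, IsSemiExt G C D ∧ P ⊆ D

/-- 28: the rooted theorem. -/
def StMain : Prop := ∀ {V E : Type} [Fintype V] [DecidableEq V] [Fintype E] [DecidableEq E]
  (G : MG V E), Cubic G → ∀ (C P : Finset E) (x y : V), IsCircuit G C → IsCPath G C P x y →
  (∀ u u', u ∉ verts G (C ∪ P) → u' ∉ verts G (C ∪ P) → 3 ≤ (att G C P u).ncard →
    3 ≤ (att G C P u').ncard → Reach G (verts G (C ∪ P))ᶜ Finset.univ u u') →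
    ∃ D, IsSemiExt G C D ∧ P ⊆ D

/-- 29: circuits which miss at most two vertices. -/
def StTwo : Prop := ∀ {V E : Type} [Fintype V] [DecidableEq V] [Fintype E] [DecidableEq E]
  (G : MG V E), Cubic G → ∀ C : Finset E, IsCircuit G C → ((verts G C)ᶜ).ncard ≤ 2 →
    ∃ D, IsSemiExt G C D

/-- 30: an outside vertex with all neighbours on `C`, the other outside vertices connected. -/
def StIsol : Prop := ∀ {V E : Type} [Fintype V] [DecidableEq V] [Fintype E] [DecidableEq E]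
  (G : MG V E), Cubic G → ∀ (C : Finset E) (w : V), IsCircuit G C → w ∉ verts G C →
  (∀ e z, G.ends e = s(w, z) → z ∈ verts G C) →
  (∀ u u', u ∉ verts G C → u' ∉ verts G C → u ≠ w → u' ≠ w →
    Reach G (verts G C)ᶜ Finset.univ u u') →
    ∃ D, IsSemiExt G C D

end Pool.Agent.Work.MP_7794fd_co.R
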